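import Mathlib

/-!
Partitions into distinct parts in residue classes (`A`) and partitions with difference
conditions governed by the residue of the larger part (`B0`), and their generating functions.
-/

namespace PD687

open Finset PowerSeries

/-- The representative in `{1,…,M}` of the residue class of `e` modulo `M` (for `M ≥ 1`). -/
def cls (M e : ℕ) : ℕ := if e % M = 0 then M else e % M

/-- `A(a_1,…,a_s;M;n)`: the number of partitions of `n` into distinct (positive) parts, i.e. of
finite sets of positive integers with sum `n`, each part congruent modulo `M` to at least one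
`a ∈ R`. -/
noncomputable def A (R : Finset ℕ) (M n : ℕ) : ℕ :=
  Nat.card {s : Finset ℕ // (∀ e ∈ s, 1 ≤ e ∧ ∃ a ∈ R, e ≡ a [MOD M]) ∧ ∑ e ∈ s, e = n}

/-- `B_0(b_1,…,b_M;M;C;n)`: the number of partitions `n = e_1 + … + e_r` with
`e_1 ≥ e_2 ≥ … ≥ e_r ≥ 1`, no `e_i` in `C`, and `e_i - e_{i+1} ≥ b_j` where
`j ∈ {1,…,M}`, `e_i ≡ j (mod M)`. -/
noncomputable def B0 (b : ℕ → ℕ) (M : ℕ) (C : Finset ℕ) (n : ℕ) : ℕ :=
  Nat.card {l : List ℕ // l.IsChain (fun x y => y ≤ x ∧ b (cls M x) ≤ x - y) ∧
    (∀ e ∈ l, 1 ≤ e ∧ e ∉ C) ∧ l.sum = n}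

/-- Lists of parts from the set `ok`, all `≤ k`, with gap at least `d x` below the part `x`,
with sum `n` (as a finite set, built by recursion on `k`). -/
def lists (ok : ℕ → Prop) [DecidablePred ok] (d : ℕ → ℕ) : ℕ → ℕ → Finset (List ℕ)
  | 0, n => if n = 0 then {[]} else ∅
  | k + 1, n => lists ok d k n ∪
      (if ok (k + 1) ∧ k + 1 ≤ n then
        (lists ok d (k - (d (k + 1) - 1)) (n - (k + 1))).image (List.cons (k + 1)) else ∅)
termination_by k => k
decreasing_by all_goals omega

/-- The gap relation. -/
def gap (d : ℕ → ℕ) (x y : ℕ) : Prop := y ≤ x ∧ d x ≤ x - y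

/-- The generating function of the lists above. -/
noncomputable def P (ok : ℕ → Prop) [DecidablePred ok] (d : ℕ → ℕ) : ℕ → PowerSeries ℤ
  | 0 => 1
  | k + 1 => P ok d k + (if ok (k + 1) then X ^ (k + 1) * P ok d (k - (d (k + 1) - 1)) else 0)
termination_by k => k
decreasing_by all_goals omega

section
variable {ok : ℕ → Prop} [DecidablePred ok] {d : ℕ → ℕ}

lemma mem_lists (hd : ∀ e, 1 ≤ e → 1 ≤ d e) (k n : ℕ) (l : List ℕ) :
    l ∈ lists ok d k n ↔ l.Pairwise (gap d) ∧ (∀ e ∈ l, 1 ≤ e ∧ e ≤ k ∧ ok e) ∧ l.sum = n := by
  induction k using Nat.strong_induction_on generalizing n l with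
  | _ k ih =>
    match k with
    | 0 =>
      rw [lists]
      constructor
      · intro h
        split_ifs at h with h0
        · simp only [Finset.mem_singleton] at h
          subst h; simp [h0]
        · simp at h
      · rintro ⟨_, h2, h3⟩
        have hl : l = [] := by
          cases l with
          | nil => rfl
          | cons a t =>
            have := h2 a (by simp)
            omega
        subst hl
        simp at h3
        simp [← h3]
    | k + 1 =>
      rw [lists]
      constructor
      · intro h
        rw [Finset.mem_union] at h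
        rcases h with h | h
        · rw [ih k (by omega)] at h
          exact ⟨h.1, fun e he => ⟨(h.2.1 e he).1, by have := (h.2.1 e he).2.1; omega,
            (h.2.1 e he).2.2⟩, h.2.2⟩
        · split_ifs at h with h0
          · rw [Finset.mem_image] at h
            obtain ⟨t, ht, rfl⟩ := h
            rw [ih _ (by omega)] at ht
            obtain ⟨h1, h2, h3⟩ := ht
            have hdk := hd (k + 1) (by omega)
            refine ⟨?_, ?_, ?_⟩
            · rw [List.pairwise_cons]
              refine ⟨fun y hy => ?_, h1⟩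
              have := h2 y hy
              unfold gap
              omega
            · intro e he
              rw [List.mem_cons] at he
              rcases he with rfl | he
              · exact ⟨by omega, le_rfl, h0.1⟩
              · have := h2 e he
                exact ⟨this.1, by omega, this.2.2⟩
            · rw [List.sum_cons, h3]; omega
          · simp at h
      · rintro ⟨h1, h2, h3⟩
        rw [Finset.mem_union]
        cases l with
        | nil =>
          left
          rw [ih k (by omega)]
          exact ⟨h1, by simp, h3⟩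
        | cons a t =>
          have ha := h2 a (by simp)
          rw [List.pairwise_cons] at h1
          by_cases hak : a = k + 1
          · right
            subst hak
            rw [List.sum_cons] at h3
            rw [if_pos ⟨ha.2.2, by omega⟩, Finset.mem_image]
            refine ⟨t, ?_, rfl⟩
            rw [ih _ (by omega)]
            refine ⟨h1.2, fun e he => ?_, by omega⟩
            have hg := h1.1 e he
            have he' := h2 e (by simp [he])
            have hdk := hd (k + 1) (by omega)
            unfold gap at hg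
            exact ⟨he'.1, by omega, he'.2.2⟩
          · left
            rw [ih k (by omega)]
            refine ⟨List.pairwise_cons.2 h1, fun e he => ?_, h3⟩
            have he' := h2 e he
            rw [List.mem_cons] at he
            rcases he with rfl | he
            · exact ⟨he'.1, by omega, he'.2.2⟩
            · have hg := h1.1 e he
              have hdk := hd a ha.1
              unfold gap at hg
              exact ⟨he'.1, by omega, he'.2.2⟩

lemma card_lists_succ (hd : ∀ e, 1 ≤ e → 1 ≤ d e) (k n : ℕ) :
    (lists ok d (k + 1) n).card = (lists ok d k n).card +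
      (if ok (k + 1) ∧ k + 1 ≤ n then (lists ok d (k - (d (k + 1) - 1)) (n - (k + 1))).card
        else 0) := by
  rw [lists, Finset.card_union_of_disjoint]
  · congr 1
    split_ifs with h
    · rw [Finset.card_image_of_injective _ (List.cons_injective)]
    · simp
  · rw [Finset.disjoint_left]
    intro l hl hl'
    split_ifs at hl' with h
    · rw [Finset.mem_image] at hl'
      obtain ⟨t, _, rfl⟩ := hl'
      rw [mem_lists hd] at hl
      have := hl.2.1 (k + 1) (by simp)
      omega
    · simp at hl'

lemma coeff_P (hd : ∀ e, 1 ≤ e → 1 ≤ d e) (k n : ℕ) :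
    coeff n (P ok d k) = ((lists ok d k n).card : ℤ) := by
  induction k using Nat.strong_induction_on generalizing n with
  | _ k ih =>
    match k with
    | 0 =>
      rw [P, lists, coeff_one]
      split_ifs <;> simp
    | k + 1 =>
      rw [P, card_lists_succ hd, map_add, ih k (by omega)]
      push_cast
      congr 1
      by_cases hok : ok (k + 1)
      · rw [if_pos hok, coeff_X_pow_mul', ih _ (by omega)]
        by_cases hk : k + 1 ≤ n
        · simp [hk, hok]
        · simp [hk]
      · simp [hok]

end

/-- the count of a bounded version agrees with `B0` for `n ≤ k` -/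
lemma B0_eq_card (b : ℕ → ℕ) (M : ℕ) (hM : 1 ≤ M) (hb : ∀ j, 1 ≤ j → j ≤ M → 1 ≤ b j)
    (C : Finset ℕ) (n k : ℕ) (hk : n ≤ k) :
    B0 b M C n = (lists (fun e => e ∉ C) (fun e => b (cls M e)) k n).card := by
  have hd : ∀ e, 1 ≤ e → 1 ≤ b (cls M e) := by
    intro e _
    apply hb
    · unfold cls; split_ifs <;> omega
    · unfold cls; split_ifs
      · exact le_rfl
      · exact (Nat.mod_lt _ (by omega)).le
  unfold B0
  have : ∀ l : List ℕ, (l.IsChain (fun x y => y ≤ x ∧ b (cls M x) ≤ x - y) ∧
    (∀ e ∈ l, 1 ≤ e ∧ e ∉ C) ∧ l.sum = n) ↔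
      l ∈ lists (fun e => e ∉ C) (fun e => b (cls M e)) k n := by
    intro l
    rw [mem_lists (ok := fun e => e ∉ C) (d := fun e => b (cls M e)) hd]
    constructor
    · rintro ⟨h1, h2, h3⟩
      have htr : IsTrans ℕ (gap (fun e => b (cls M e))) := by
        refine ⟨fun x y z hxy hyz => ?_⟩
        unfold gap at *
        omega
      refine ⟨?_, ?_, h3⟩
      · exact List.isChain_iff_pairwise.1 h1
      · intro e he
        refine ⟨(h2 e he).1, ?_, (h2 e he).2⟩
        have := List.single_le_sum (l := l) (by simp) e he
        omega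
    · rintro ⟨h1, h2, h3⟩
      refine ⟨h1.isChain, fun e he => ⟨(h2 e he).1, (h2 e he).2.2⟩, h3⟩
  rw [Nat.subtype_card _ (fun l => (this l).symm)]

/-- generating function of subsets of `{1,…,k}` satisfying `r` -/
noncomputable def Q (r : ℕ → Prop) [DecidablePred r] (k : ℕ) : PowerSeries ℤ :=
  ∏ e ∈ (Finset.Icc 1 k).filter r, (1 + X ^ e)

lemma coeff_Q (r : ℕ → Prop) [DecidablePred r] (k n : ℕ) :
    coeff n (Q r k) = ((((Finset.Icc 1 k).filter r).powerset.filter
      (fun s => ∑ e ∈ s, e = n)).card : ℤ) := by
  unfold Q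
  rw [Finset.prod_one_add, map_sum]
  rw [Finset.card_filter]
  push_cast
  apply Finset.sum_congr rfl
  intro s _
  rw [Finset.prod_pow_eq_pow_sum, coeff_X_pow]
  by_cases h : ∑ e ∈ s, e = n
  · simp [h]
  · have h' : ¬ n = ∑ e ∈ s, e := fun h' => h h'.symm
    simp [h, h']

lemma A_eq_card (R : Finset ℕ) (M n k : ℕ) (hk : n ≤ k) :
    A R M n = (((Finset.Icc 1 k).filter (fun e => ∃ a ∈ R, e ≡ a [MOD M])).powerset.filter
      (fun s => ∑ e ∈ s, e = n)).card := by
  unfold A
  rw [Nat.subtype_card]
  intro s
  simp only [Finset.mem_filter, Finset.mem_powerset, Finset.subset_iff, Finset.mem_Icc]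
  constructor
  · rintro ⟨h1, h2⟩
    exact ⟨fun e he => ⟨(h1 he).1.1, (h1 he).2⟩, h2⟩
  · rintro ⟨h1, h2⟩
    refine ⟨fun e he => ⟨⟨(h1 e he).1, ?_⟩, (h1 e he).2⟩, h2⟩
    have := Finset.single_le_sum (f := fun e => e) (fun i _ => Nat.zero_le i) he
    omega

lemma coeff_P_B0 (b : ℕ → ℕ) (M : ℕ) (hM : 1 ≤ M) (hb : ∀ j, 1 ≤ j → j ≤ M → 1 ≤ b j)
    (C : Finset ℕ) (n k : ℕ) (hk : n ≤ k) :
    coeff n (P (fun e => e ∉ C) (fun e => b (cls M e)) k) = (B0 b M C n : ℤ) := by
  rw [B0_eq_card b M hM hb C n k hk, coeff_P]
  intro e _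
  apply hb
  · unfold cls; split_ifs <;> omega
  · unfold cls; split_ifs
    · exact le_rfl
    · exact (Nat.mod_lt _ (by omega)).le

lemma coeff_Q_A (R : Finset ℕ) (M n k : ℕ) (hk : n ≤ k) :
    coeff n (Q (fun e => ∃ a ∈ R, e ≡ a [MOD M]) k) = (A R M n : ℤ) := by
  rw [coeff_Q, A_eq_card R M n k hk]

end PD687
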