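import Pool.Agent.TH687.PD.Search

namespace PD687

set_option maxRecDepth 100000

/-- the surviving gaps -/
def leaf31 (know : List (Bool × ℕ)) : Bool :=
  let x := know.getD 0 (false, 0)
  let y := know.getD 1 (false, 0)
  let z := know.getD 2 (false, 0)
  (x == (true, 1)) ||
  (x == (true, 2)) ||
  (x == (true, 3)) ||
  ((x == (true, 4) || x == (true, 5)) && (y == (true, 8) || y == (true, 9) || y == (true, 10))) ||
  (x == (true, 6) && y == (true, 7)) ||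
  (x == (true, 9) && y == (true, 10)) ||
  (x == (true, 7) && y == (true, 11) && z == (false, 12))

theorem aRow31 : aRow (fun e => e % 3 == 1) 52 52 =
    [1, 1, 0, 0, 1, 1, 0, 1, 1, 0, 1, 2, 1, 1, 2, 1, 1, 3, 2, 1, 3, 3, 2, 4, 4, 2, 4, 5, 3, 5, 7, 4, 5, 8, 6, 7, 10, 7, 7, 12, 10, 9, 14, 12, 10, 16, 16, 13, 19, 19, 15, 22, 24] := by decide +kernel

theorem search31 : search 3 52
    [1, 1, 0, 0, 1, 1, 0, 1, 1, 0, 1, 2, 1, 1, 2, 1, 1, 3, 2, 1, 3, 3, 2, 4, 4, 2, 4, 5, 3, 5, 7, 4, 5, 8, 6, 7, 10, 7, 7, 12, 10, 9, 14, 12, 10, 16, 16, 13, 19, 19, 15, 22, 24] leaf31 52 0 [row0 52]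
    (List.replicate 3 (false, 1)) = true := by decide +kernel

end PD687
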