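import Pool.Agent.TH687.PD.Search

namespace PD687

set_option maxRecDepth 100000

/-- the surviving gaps -/
def leaf32 (know : List (Bool × ℕ)) : Bool :=
  let x := know.getD 0 (false, 0)
  let y := know.getD 1 (false, 0)
  let z := know.getD 2 (false, 0)
  (y == (true, 1)) ||
  (y == (true, 2)) ||
  (y == (true, 3)) ||
  (y == (true, 4) && (x == (true, 9) || x == (true, 10) || x == (true, 11))) ||
  ((x == (true, 7) || x == (true, 8)) && (y == (true, 5) || y == (true, 6))) ||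
  ((x == (true, 10) || x == (true, 11)) && (y == (true, 8) || y == (true, 9)))

theorem aRow32 : aRow (fun e => e % 3 == 2) 51 51 =
    [1, 0, 1, 0, 0, 1, 0, 1, 1, 0, 1, 1, 0, 2, 1, 1, 2, 1, 1, 3, 1, 2, 3, 1, 3, 4, 2, 4, 4, 2, 5, 5, 3, 7, 5, 4, 8, 6, 6, 10, 7, 7, 12, 8, 10, 14, 9, 12, 16, 11, 16, 19] := by decide +kernel

theorem search32 : search 3 51
    [1, 0, 1, 0, 0, 1, 0, 1, 1, 0, 1, 1, 0, 2, 1, 1, 2, 1, 1, 3, 1, 2, 3, 1, 3, 4, 2, 4, 4, 2, 5, 5, 3, 7, 5, 4, 8, 6, 6, 10, 7, 7, 12, 8, 10, 14, 9, 12, 16, 11, 16, 19] leaf32 51 0 [row0 51]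
    (List.replicate 3 (false, 1)) = true := by decide +kernel

end PD687
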