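import Pool.Agent.TH687.PD.Search

namespace PD687

set_option maxRecDepth 100000

/-- the surviving gaps -/
def leaf1a (know : List (Bool × ℕ)) : Bool :=
  let x := know.getD 0 (false, 0)
  (x == (true, 1))

theorem aRow1a : aRow (fun _ => true) 5 5 =
    [1, 1, 1, 2, 2, 3] := by decide +kernel

theorem search1a : search 1 5
    [1, 1, 1, 2, 2, 3] leaf1a 5 0 [row0 5]
    (List.replicate 1 (false, 1)) = true := by decide +kernel

/-- the surviving gaps -/
def leaf2o (know : List (Bool × ℕ)) : Bool :=
  let x := know.getD 0 (false, 0)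
  let y := know.getD 1 (false, 0)
  (x == (true, 1)) ||
  (x == (true, 2)) ||
  (x == (true, 3) && (y == (true, 6) || y == (true, 7))) ||
  (x == (true, 4) && y == (true, 5)) ||
  (x == (true, 6) && y == (true, 7))

theorem aRow2o : aRow (fun e => e % 2 == 1) 16 16 =
    [1, 1, 0, 1, 1, 1, 1, 1, 2, 2, 2, 2, 3, 3, 3, 4, 5] := by decide +kernel

theorem search2o : search 2 16
    [1, 1, 0, 1, 1, 1, 1, 1, 2, 2, 2, 2, 3, 3, 3, 4, 5] leaf2o 16 0 [row0 16]
    (List.replicate 2 (false, 1)) = true := by decide +kernel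

/-- the surviving gaps -/
def leaf2a (know : List (Bool × ℕ)) : Bool :=
  let x := know.getD 0 (false, 0)
  let y := know.getD 1 (false, 0)
  (x == (true, 1) && y == (true, 1))

theorem aRow2a : aRow (fun _ => true) 5 5 =
    [1, 1, 1, 2, 2, 3] := by decide +kernel

theorem search2a : search 2 5
    [1, 1, 1, 2, 2, 3] leaf2a 5 0 [row0 5]
    (List.replicate 2 (false, 1)) = true := by decide +kernel

/-- the surviving gaps -/
def leaf312 (know : List (Bool × ℕ)) : Bool :=
  let x := know.getD 0 (false, 0)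
  let y := know.getD 1 (false, 0)
  let z := know.getD 2 (false, 0)
  (x == (true, 1) && y == (true, 1)) ||
  (x == (true, 2) && y == (true, 1)) ||
  (x == (true, 3) && y == (true, 2) && z == (true, 5)) ||
  (x == (true, 3) && y == (true, 3) && z == (true, 4))

theorem aRow312 : aRow (fun e => e % 3 != 0) 32 32 =
    [1, 1, 1, 1, 1, 2, 2, 3, 3, 3, 4, 5, 6, 7, 8, 9, 10, 12, 14, 16, 18, 20, 23, 26, 30, 34, 38, 42, 47, 53, 60, 67, 74] := by decide +kernel

theorem search312 : search 3 32
    [1, 1, 1, 1, 1, 2, 2, 3, 3, 3, 4, 5, 6, 7, 8, 9, 10, 12, 14, 16, 18, 20, 23, 26, 30, 34, 38, 42, 47, 53, 60, 67, 74] leaf312 32 0 [row0 32]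
    (List.replicate 3 (false, 1)) = true := by decide +kernel

/-- the surviving gaps -/
def leaf313 (know : List (Bool × ℕ)) : Bool :=
  let x := know.getD 0 (false, 0)
  let y := know.getD 1 (false, 0)
  let z := know.getD 2 (false, 0)
  (x == (true, 1) && z == (true, 1)) ||
  (x == (true, 1) && z == (true, 2))

theorem aRow313 : aRow (fun e => e % 3 != 2) 8 8 =
    [1, 1, 0, 1, 2, 1, 1, 3, 2] := by decide +kernel

theorem search313 : search 3 8
    [1, 1, 0, 1, 2, 1, 1, 3, 2] leaf313 8 0 [row0 8]
    (List.replicate 3 (false, 1)) = true := by decide +kernel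

/-- the surviving gaps -/
def leaf323 (know : List (Bool × ℕ)) : Bool :=
  let x := know.getD 0 (false, 0)
  let y := know.getD 1 (false, 0)
  let z := know.getD 2 (false, 0)
  (y == (true, 1) && z == (true, 1)) ||
  (y == (true, 2) && z == (true, 1))

theorem aRow323 : aRow (fun e => e % 3 != 1) 9 9 =
    [1, 0, 1, 1, 0, 2, 1, 1, 3, 2] := by decide +kernel

theorem search323 : search 3 9
    [1, 0, 1, 1, 0, 2, 1, 1, 3, 2] leaf323 9 0 [row0 9]
    (List.replicate 3 (false, 1)) = true := by decide +kernel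

/-- the surviving gaps -/
def leaf3a (know : List (Bool × ℕ)) : Bool :=
  let x := know.getD 0 (false, 0)
  let y := know.getD 1 (false, 0)
  let z := know.getD 2 (false, 0)
  (x == (true, 1) && y == (true, 1) && z == (true, 1))

theorem aRow3a : aRow (fun _ => true) 8 8 =
    [1, 1, 1, 2, 2, 3, 4, 5, 6] := by decide +kernel

theorem search3a : search 3 8
    [1, 1, 1, 2, 2, 3, 4, 5, 6] leaf3a 8 0 [row0 8]
    (List.replicate 3 (false, 1)) = true := by decide +kernel

end PD687
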