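import Pool.Agent.TH687.PD.FamG
import Pool.Agent.TH687.PD.SearchS
import Pool.Agent.TH687.PD.SearchA
import Pool.Agent.TH687.PD.SearchB

namespace PD687

open Finset PowerSeries

/-- `(R, b, C)` is a solution for the modulus `M`. -/
def IsSolution (R : Finset ℕ) (b : ℕ → ℕ) (M : ℕ) (C : Finset ℕ) : Prop :=
  (∀ j, 1 ≤ j → j ≤ M → 1 ≤ b j) ∧ (∀ c ∈ C, 1 ≤ c) ∧ ∀ n, 1 ≤ n → A R M n = B0 b M C n

lemma mem_res {R : Finset ℕ} {M : ℕ} (e : ℕ) :
    (∃ a ∈ R, e ≡ a [MOD M]) ↔ e % M ∈ R.image (· % M) := by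
  rw [Finset.mem_image]
  unfold Nat.ModEq
  constructor
  · rintro ⟨a, ha, h⟩; exact ⟨a, ha, h.symm⟩
  · rintro ⟨a, ha, h⟩; exact ⟨a, ha, h.symm⟩

lemma absurd_of_fam {R C : Finset ℕ} {M : ℕ} {b : ℕ → ℕ} (hM : 1 ≤ M)
    (hb : ∀ j, 1 ≤ j → j ≤ M → 1 ≤ b j) (h : ∀ n, 1 ≤ n → A R M n = B0 b M C n)
    (r ok' : ℕ → Prop) [DecidablePred r] [DecidablePred ok'] (d' : ℕ → ℕ)
    (hr : ∀ e, (∃ a ∈ R, e ≡ a [MOD M]) ↔ r e)
    (hfam : ∀ n, cnt ok' d' n n = cnt r (fun _ => 1) n n) (hd' : ∀ e, 1 ≤ e → 1 ≤ d' e)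
    (hgap : ∀ x y, ok' x → ok' y → 1 ≤ x → 1 ≤ y → (y + b (cls M x) ≤ x ↔ y + d' x ≤ x))
    (hinf : ∀ m, ∃ n, m < n ∧ ¬ ok' n) : False := by
  refine infinite_absurd hM hb h ok' (fun n _ => ?_) hinf
  rw [cnt_congr_gap (hb_cls hM hb) hd' n n hgap, hfam n, A_eq_cnt hr n]

lemma absurd_of_deg {R C : Finset ℕ} {M : ℕ} {b : ℕ → ℕ} (hM : 1 ≤ M)
    (hb : ∀ j, 1 ≤ j → j ≤ M → 1 ≤ b j) (h : ∀ n, 1 ≤ n → A R M n = B0 b M C n)
    (r : ℕ → Prop) [DecidablePred r]
    (hr : ∀ e, (∃ a ∈ R, e ≡ a [MOD M]) ↔ r e)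
    (hgap : ∀ x y, r x → r y → 1 ≤ x → 1 ≤ y → y < x → y + b (cls M x) ≤ x)
    (hinf : ∀ m, ∃ n, m < n ∧ ¬ r n) : False := by
  refine infinite_absurd hM hb h r (fun n _ => ?_) hinf
  exact deg_family r hr (hb_cls hM hb) hgap n

lemma hAt_of {R C : Finset ℕ} {M : ℕ} {b : ℕ → ℕ} (hM : 1 ≤ M)
    (hb : ∀ j, 1 ≤ j → j ≤ M → 1 ≤ b j) (h : ∀ n, 1 ≤ n → A R M n = B0 b M C n)
    (r : ℕ → Bool) (hr : ∀ e, (∃ a ∈ R, e ≡ a [MOD M]) ↔ r e = true) (N : ℕ) (L : List ℕ)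
    (hL : aRow r N N = L) :
    ∀ n, 1 ≤ n → n ≤ N → cnt (fun e => e ∉ C) (fun e => b (cls M e)) n n = L.getD n 0 := by
  intro n h1 h2
  rw [sol_cnt hM hb h n h1, ← hL]
  exact A_eq_aRow R M r hr N n h2

lemma sum_dvd {R : Finset ℕ} {M g n : ℕ} (hg : ∀ e, (∃ a ∈ R, e ≡ a [MOD M]) → g ∣ e)
    (hn : ¬ g ∣ n) : A R M n = 0 := by
  unfold A
  rw [Nat.card_eq_zero]
  left
  constructor
  rintro ⟨s, hs, hsum⟩
  apply hn
  rw [← hsum]
  exact Finset.dvd_sum (fun e he => hg e (hs e he).2)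

lemma absurd_of_dvd {R C : Finset ℕ} {M : ℕ} {b : ℕ → ℕ} (hM : 1 ≤ M)
    (hb : ∀ j, 1 ≤ j → j ≤ M → 1 ≤ b j) (h : ∀ n, 1 ≤ n → A R M n = B0 b M C n)
    (g : ℕ) (hg2 : 2 ≤ g) (hg : ∀ e, (∃ a ∈ R, e ≡ a [MOD M]) → g ∣ e) : False := by
  refine zero_absurd hM hb h (fun m => ⟨g * (m + 1) + 1, by nlinarith, sum_dvd hg ?_⟩)
  intro hd
  have : g ∣ 1 := (Nat.dvd_add_right (Dvd.intro _ rfl)).1 hd
  have := Nat.le_of_dvd (by norm_num) this
  omega

/-- the trivial solution -/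
lemma trivial_sol {R : Finset ℕ} {M : ℕ} {b : ℕ → ℕ} (hM : 1 ≤ M)
    (hr : ∀ e, (∃ a ∈ R, e ≡ a [MOD M]) ↔ True) (hb : ∀ j, 1 ≤ j → j ≤ M → b j = 1) (n : ℕ) :
    A R M n = B0 b M ∅ n := by
  have hb' : ∀ j, 1 ≤ j → j ≤ M → 1 ≤ b j := fun j h1 h2 => by rw [hb j h1 h2]
  rw [B0_eq_cnt hM hb' ∅ n n le_rfl, ← deg_family (fun _ => True) hr (hb_cls hM hb')
    (fun x y _ _ h1 h2 h3 => by
      rw [hb _ (cls_le hM x).1 (cls_le hM x).2]; omega) n]
  exact cnt_congr_ok (hb_cls hM hb') n n (fun e _ _ => by simp)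

lemma bcls2 (b : ℕ → ℕ) (x : ℕ) : b (cls 2 x) = if x % 2 = 1 then b 1 else b 2 := by
  unfold cls
  have h : x % 2 = 0 ∨ x % 2 = 1 := by omega
  rcases h with h | h <;> simp [h]

lemma bcls3 (b : ℕ → ℕ) (x : ℕ) :
    b (cls 3 x) = if x % 3 = 1 then b 1 else if x % 3 = 2 then b 2 else b 3 := by
  unfold cls
  have h : x % 3 = 0 ∨ x % 3 = 1 ∨ x % 3 = 2 := by omega
  rcases h with h | h | h <;> simp [h]

/-! ### Modulus 1 -/

theorem classify1 (R : Finset ℕ) (b : ℕ → ℕ) (C : Finset ℕ) :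
    IsSolution R b 1 C ↔ R.Nonempty ∧ b 1 = 1 ∧ C = ∅ := by
  constructor
  · rintro ⟨hb, hC, h⟩
    have hR : R.Nonempty := by
      by_contra hne
      rw [Finset.not_nonempty_iff_eq_empty] at hne
      subst hne
      exact absurd_of_dvd le_rfl hb h 2 le_rfl (by rintro e ⟨a, ha, _⟩; simp at ha)
    have hr : ∀ e, (∃ a ∈ R, e ≡ a [MOD 1]) ↔ (fun _ : ℕ => true) e = true := by
      intro e
      obtain ⟨a, ha⟩ := hR
      simp only [iff_true]
      exact ⟨a, ha, Nat.modEq_one⟩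
    obtain ⟨know, hl, hc, hleaf⟩ := search_root (ok := fun e => e ∉ C) (M := 1) le_rfl
      (hb_cls le_rfl hb) 5 _ (hAt_of le_rfl hb h _ hr 5 _ aRow1a) leaf1a search1a
    have hb1 : b 1 = 1 := by
      unfold leaf1a at hleaf
      simp only [beq_iff_eq] at hleaf
      have := (hc 0 (by omega)).1 1 (by
        rw [List.getD_eq_getElem _ _ (by omega)] at hleaf ⊢; exact hleaf)
      exact this
    refine ⟨hR, hb1, ?_⟩
    have hr' : ∀ e, (∃ a ∈ R, e ≡ a [MOD 1]) ↔ True := by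
      intro e; rw [hr e]; simp
    exact finite_unique le_rfl hb h
      (fun n _ => trivial_sol le_rfl hr' (fun j h1 h2 => by
        rw [show j = 1 by omega]; exact hb1) n) hC (by simp)
  · rintro ⟨⟨a, ha⟩, hb1, rfl⟩
    refine ⟨fun j h1 h2 => ?_, by simp, fun n _ => ?_⟩
    · rw [show j = 1 by omega, hb1]
    · apply trivial_sol le_rfl
      · intro e; simp only [iff_true]; exact ⟨a, ha, Nat.modEq_one⟩
      · intro j h1 h2; rw [show j = 1 by omega, hb1]

/-- reading off knowledge -/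
lemma know_eq {M : ℕ} {b : ℕ → ℕ} {know : List (Bool × ℕ)} (hc : Cons M b know)
    (hl : know.length = M) (j v : ℕ) (hj : j < M) (h : know.getD j (false, 0) = (true, v)) :
    b (j + 1) = v := by
  apply (hc j hj).1 v
  rw [List.getD_eq_getElem _ _ (by omega)] at h ⊢
  exact h

lemma know_ge {M : ℕ} {b : ℕ → ℕ} {know : List (Bool × ℕ)} (hc : Cons M b know)
    (hl : know.length = M) (j v : ℕ) (hj : j < M) (h : know.getD j (false, 0) = (false, v)) :
    v ≤ b (j + 1) := by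
  apply (hc j hj).2 v
  rw [List.getD_eq_getElem _ _ (by omega)] at h ⊢
  exact h

/-! ### Modulus 2 -/

lemma res2 (R : Finset ℕ) : R.image (· % 2) = ∅ ∨ R.image (· % 2) = {0} ∨
    R.image (· % 2) = {1} ∨ R.image (· % 2) = {0, 1} := by
  have h : R.image (· % 2) ∈ (Finset.range 2).powerset := by
    rw [Finset.mem_powerset]
    intro x hx
    rw [Finset.mem_image] at hx
    obtain ⟨a, _, rfl⟩ := hx
    rw [Finset.mem_range]; exact Nat.mod_lt _ (by norm_num)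
  rw [show (Finset.range 2).powerset = {∅, {0}, {1}, {0, 1}} by decide] at h
  simpa using h

theorem classify2 (R : Finset ℕ) (b : ℕ → ℕ) (C : Finset ℕ) :
    IsSolution R b 2 C ↔
      (R.image (· % 2) = {0, 1} ∧ b 1 = 1 ∧ b 2 = 1 ∧ C = ∅) ∨
      (R.image (· % 2) = {1} ∧ b 1 = 6 ∧ b 2 = 7 ∧ C = {2}) := by
  have hM : (1 : ℕ) ≤ 2 := by norm_num
  -- sufficiency for the odd family
  have suff : R.image (· % 2) = {1} → b 1 = 6 → b 2 = 7 → ∀ n, A R 2 n = B0 b 2 {2} n := by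
    intro hT h1 h2 n
    rw [A_congr (R' := {1}) (M' := 2) (fun e => by rw [mem_res, mem_res, hT]; simp) n, modTwo n]
    apply B0_congr
    intro e
    rw [gaps2, bcls2 b, h1, h2]
  constructor
  · rintro ⟨hb, hC, h⟩
    rcases res2 R with hT | hT | hT | hT
    · exact (absurd_of_dvd hM hb h 2 le_rfl (by
        intro e he; rw [mem_res, hT] at he; simp at he)).elim
    · exact (absurd_of_dvd hM hb h 2 le_rfl (by
        intro e he; rw [mem_res, hT] at he; simp at he; omega)).elim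
    · have hr : ∀ e, (∃ a ∈ R, e ≡ a [MOD 2]) ↔ (fun e => e % 2 == 1) e = true := by
        intro e; rw [mem_res, hT]; simp
      have hr' : ∀ e, (∃ a ∈ R, e ≡ a [MOD 2]) ↔ e % 2 = 1 := by
        intro e; rw [mem_res, hT]; simp
      obtain ⟨know, hl, hc, hleaf⟩ := search_root (ok := fun e => e ∉ C) (M := 2) hM
        (hb_cls hM hb) 16 _ (hAt_of hM hb h _ hr 16 _ aRow2o) leaf2o search2o
      unfold leaf2o at hleaf
      simp only [Bool.or_eq_true, Bool.and_eq_true, beq_iff_eq] at hleaf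
      rcases hleaf with (((h1 | h1) | ⟨h1, h2 | h2⟩) | ⟨h1, h2⟩) | ⟨h1, h2⟩
      · have e1 := know_eq hc hl 0 _ (by omega) h1
        exact (absurd_of_deg hM hb h (fun e => e % 2 = 1) hr' (by
          intro x y hx hy _ _ hxy; rw [bcls2 b, if_pos hx, e1]; omega)
          (fun m => ⟨2 * m + 2, by omega, by omega⟩)).elim
      · have e1 := know_eq hc hl 0 _ (by omega) h1
        exact (absurd_of_deg hM hb h (fun e => e % 2 = 1) hr' (by
          intro x y hx hy _ _ hxy; rw [bcls2 b, if_pos hx, e1]; omega)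
          (fun m => ⟨2 * m + 2, by omega, by omega⟩)).elim
      · have e1 := know_eq hc hl 0 _ (by omega) h1
        have e2 := know_eq hc hl 1 _ (by omega) h2
        exact (absurd_of_fam hM hb h (fun e => e % 2 = 1) (fun e => e % 4 ≠ 2)
          (fun e => if e % 2 = 1 then 3 else 7) hr' fam37 (fun e _ => by split_ifs <;> omega)
          (by intro x y hx hy _ _; rw [bcls2 b, e1, e2]; split_ifs <;> omega)
          (fun m => ⟨4 * m + 2, by omega, by omega⟩)).elim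
      · have e1 := know_eq hc hl 0 _ (by omega) h1
        have e2 := know_eq hc hl 1 _ (by omega) h2
        exact (absurd_of_fam hM hb h (fun e => e % 2 = 1) (fun e => e % 4 ≠ 2)
          (fun e => if e % 2 = 1 then 3 else 7) hr' fam37 (fun e _ => by split_ifs <;> omega)
          (by intro x y hx hy _ _; rw [bcls2 b, e1, e2])
          (fun m => ⟨4 * m + 2, by omega, by omega⟩)).elim
      · have e1 := know_eq hc hl 0 _ (by omega) h1
        have e2 := know_eq hc hl 1 _ (by omega) h2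
        exact (absurd_of_fam hM hb h (fun e => e % 2 = 1) (fun e => e % 4 ≠ 2)
          (fun e => if e % 2 = 1 then 4 else 5) hr' fam45 (fun e _ => by split_ifs <;> omega)
          (by intro x y hx hy _ _; rw [bcls2 b, e1, e2])
          (fun m => ⟨4 * m + 2, by omega, by omega⟩)).elim
      · have e1 := know_eq hc hl 0 _ (by omega) h1
        have e2 := know_eq hc hl 1 _ (by omega) h2
        exact Or.inr ⟨hT, e1, e2, finite_unique hM hb h (fun n _ => suff hT e1 e2 n) hC (by simp)⟩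
    · have hr : ∀ e, (∃ a ∈ R, e ≡ a [MOD 2]) ↔ (fun _ : ℕ => true) e = true := by
        intro e; rw [mem_res, hT]; simp; omega
      have hr' : ∀ e, (∃ a ∈ R, e ≡ a [MOD 2]) ↔ True := by
        intro e; rw [mem_res, hT]; simp; omega
      obtain ⟨know, hl, hc, hleaf⟩ := search_root (ok := fun e => e ∉ C) (M := 2) hM
        (hb_cls hM hb) 5 _ (hAt_of hM hb h _ hr 5 _ aRow2a) leaf2a search2a
      unfold leaf2a at hleaf
      simp only [Bool.and_eq_true, beq_iff_eq] at hleaf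
      have e1 := know_eq hc hl 0 _ (by omega) hleaf.1
      have e2 := know_eq hc hl 1 _ (by omega) hleaf.2
      refine Or.inl ⟨hT, e1, e2, finite_unique hM hb h (fun n _ => trivial_sol hM hr' ?_ n) hC
        (by simp)⟩
      intro j h1 h2
      interval_cases j
      · exact e1
      · exact e2
  · rintro (⟨hT, h1, h2, rfl⟩ | ⟨hT, h1, h2, rfl⟩)
    · refine ⟨?_, by simp, fun n _ => trivial_sol hM ?_ ?_ n⟩
      · intro j hj1 hj2; interval_cases j <;> omega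
      · intro e; rw [mem_res, hT]; simp; omega
      · intro j hj1 hj2; interval_cases j
        · exact h1
        · exact h2
    · refine ⟨?_, by simp, fun n _ => suff hT h1 h2 n⟩
      intro j hj1 hj2; interval_cases j <;> omega

end PD687
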