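import Pool.Agent.TH687.PD.Classify

namespace PD687

open Finset PowerSeries

/-! ### Modulus 3 -/

lemma res3 (R : Finset ℕ) : R.image (· % 3) = ∅ ∨ R.image (· % 3) = {0} ∨
    R.image (· % 3) = {1} ∨ R.image (· % 3) = {0, 1} ∨ R.image (· % 3) = {2} ∨
    R.image (· % 3) = {0, 2} ∨ R.image (· % 3) = {1, 2} ∨ R.image (· % 3) = {0, 1, 2} := by
  have h : R.image (· % 3) ∈ (Finset.range 3).powerset := by
    rw [Finset.mem_powerset]
    intro x hx
    rw [Finset.mem_image] at hx
    obtain ⟨a, _, rfl⟩ := hx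
    rw [Finset.mem_range]; exact Nat.mod_lt _ (by norm_num)
  rw [show (Finset.range 3).powerset = {∅, {0}, {1}, {0, 1}, {2}, {0, 2}, {1, 2}, {0, 1, 2}} by
    decide] at h
  simpa using h

lemma schur_sol (R : Finset ℕ) (b : ℕ → ℕ) (hT : R.image (· % 3) = {1, 2}) (h1 : b 1 = 3)
    (h2 : b 2 = 3) (h3 : b 3 = 4) (n : ℕ) : A R 3 n = B0 b 3 ∅ n := by
  have hM : (1 : ℕ) ≤ 3 := by norm_num
  have hb : ∀ j, 1 ≤ j → j ≤ 3 → 1 ≤ b j := by
    intro j hj1 hj2; interval_cases j <;> omega
  have hr : ∀ e, (∃ a ∈ R, e ≡ a [MOD 3]) ↔ e % 3 ≠ 0 := by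
    intro e; rw [mem_res, hT]; simp; omega
  rw [A_eq_cnt hr n, ← fam3_schur n, B0_eq_cnt hM hb ∅ n n le_rfl,
    cnt_congr_ok (ok' := fun _ => True) (hb_cls hM hb) n n (fun e _ _ => by simp)]
  refine (cnt_congr_gap (hb_cls hM hb) (fun e _ => by split_ifs <;> omega) n n ?_).symm
  intro x y _ _ _ _
  rw [bcls3 b, h1, h2, h3]
  split_ifs <;> omega

lemma cls3_mem2 (e : ℕ) : cls 3 e ∈ ({2} : Finset ℕ) ↔ e % 3 = 2 := by
  unfold cls
  have h : e % 3 = 0 ∨ e % 3 = 1 ∨ e % 3 = 2 := by omega
  rcases h with h | h | h <;> simp [h]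

lemma schur_sol' (R : Finset ℕ) (b : ℕ → ℕ) (hT : R.image (· % 3) = {1, 2}) (h1 : b 1 = 3)
    (h2 : b 2 = 2) (h3 : b 3 = 5) (n : ℕ) : A R 3 n = B0 b 3 ∅ n := by
  rw [schur_sol R (gaps [3, 3, 4]) hT (by simp [gaps]) (by simp [gaps]) (by simp [gaps]) n,
    B0_switch (b := gaps [3, 3, 4]) (M := 3) (g := 3) (I := {2}) (C := ∅) (by norm_num) _
      (by norm_num)]
  · rw [show swC 3 3 {2} ∅ = ∅ by decide]
    apply B0_congr
    intro e
    obtain ⟨hc1, hc2⟩ := cls_le (M := 3) (by norm_num) e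
    generalize cls 3 e = j at hc1 hc2
    interval_cases j
    · rw [h1]; decide
    · rw [h2]; decide
    · rw [h3]; decide
  · intro e h
    rw [cls3_mem2] at h ⊢; omega
  · intro e
    rw [cls3_mem2, cls3_mem2]; omega
  · intro e h
    rw [cls3_mem2] at h
    rw [bcls3 (gaps [3, 3, 4]), bcls3 (gaps [3, 3, 4])]
    simp only [gaps]
    constructor <;> split_ifs <;> first | omega | simp
  · intro e hh1 hh2 _ hle
    rw [cls3_mem2] at hh1 hh2 ⊢
    rw [bcls3 (gaps [3, 3, 4])] at hle ⊢
    simp only [gaps] at hle ⊢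
    split_ifs at hle ⊢ <;> simp at hle ⊢ <;> omega
  · intro e _ _; simp
  · intro j hj1 hj2
    interval_cases j <;> simp [gaps]

theorem classify3 (R : Finset ℕ) (b : ℕ → ℕ) (C : Finset ℕ) :
    IsSolution R b 3 C ↔
      (R.image (· % 3) = {0, 1, 2} ∧ b 1 = 1 ∧ b 2 = 1 ∧ b 3 = 1 ∧ C = ∅) ∨
      (R.image (· % 3) = {1, 2} ∧
        ((b 1 = 3 ∧ b 2 = 3 ∧ b 3 = 4) ∨ (b 1 = 3 ∧ b 2 = 2 ∧ b 3 = 5)) ∧ C = ∅) := by
  have hM : (1 : ℕ) ≤ 3 := by norm_num
  constructor
  · rintro ⟨hb, hC, h⟩
    rcases res3 R with hT | hT | hT | hT | hT | hT | hT | hT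
    · exact (absurd_of_dvd hM hb h 3 (by norm_num) (by
        intro e he; rw [mem_res, hT] at he; simp at he)).elim
    · exact (absurd_of_dvd hM hb h 3 (by norm_num) (by
        intro e he; rw [mem_res, hT] at he; simp at he; omega)).elim
    · -- residue 1
      exfalso
      have hr : ∀ e, (∃ a ∈ R, e ≡ a [MOD 3]) ↔ (fun e => e % 3 == 1) e = true := by
        intro e; rw [mem_res, hT]; simp
      have hr' : ∀ e, (∃ a ∈ R, e ≡ a [MOD 3]) ↔ e % 3 = 1 := by
        intro e; rw [mem_res, hT]; simp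
      obtain ⟨know, hl, hc, hleaf⟩ := search_root (ok := fun e => e ∉ C) (M := 3) hM
        (hb_cls hM hb) 52 _ (hAt_of hM hb h _ hr 52 _ aRow31) leaf31 search31
      unfold leaf31 at hleaf
      simp only [Bool.or_eq_true, Bool.and_eq_true, beq_iff_eq] at hleaf
      have fam_deg : (b 1 = 1 ∨ b 1 = 2 ∨ b 1 = 3) → False := by
        intro e1
        exact absurd_of_deg hM hb h (fun e => e % 3 = 1) hr' (by
          intro x y hx hy _ _ hxy; rw [bcls3 b, if_pos hx]; omega)
          (fun m => ⟨3 * m + 3, by omega, by omega⟩)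
      have fam_410 : (b 1 = 4 ∨ b 1 = 5) → (b 2 = 8 ∨ b 2 = 9 ∨ b 2 = 10) → False := by
        intro e1 e2
        exact absurd_of_fam hM hb h (fun e => e % 3 = 1)
          (fun e => e % 6 = 1 ∨ e % 6 = 4 ∨ e % 6 = 5)
          (fun e => if e % 3 = 1 then 4 else 10) hr' fam3_410 (fun e _ => by split_ifs <;> omega)
          (by intro x y hx hy _ _; rw [bcls3 b]; split_ifs <;> omega)
          (fun m => ⟨6 * m + 6, by omega, by omega⟩)
      have fam_67 : b 1 = 6 → b 2 = 7 → False := by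
        intro e1 e2
        exact absurd_of_fam hM hb h (fun e => e % 3 = 1)
          (fun e => e % 6 = 1 ∨ e % 6 = 4 ∨ e % 6 = 5)
          (fun e => if e % 3 = 1 then 6 else 7) hr' fam3_67 (fun e _ => by split_ifs <;> omega)
          (by intro x y hx hy _ _; rw [bcls3 b]; split_ifs <;> omega)
          (fun m => ⟨6 * m + 6, by omega, by omega⟩)
      have fam_910 : b 1 = 9 → b 2 = 10 → False := by
        intro e1 e2
        exact absurd_of_fam hM hb h (fun e => e % 3 = 1) (fun e => e % 3 ≠ 0 ∧ e ≠ 2)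
          (fun e => if e % 3 = 1 then 9 else 10) hr' fam3_910 (fun e _ => by split_ifs <;> omega)
          (by intro x y hx hy _ _; rw [bcls3 b]; split_ifs <;> omega)
          (fun m => ⟨3 * m + 3, by omega, by omega⟩)
      have fam_711 : b 1 = 7 → b 2 = 11 → 12 ≤ b 3 → False := by
        intro e1 e2 e3
        exact absurd_of_fam hM hb h (fun e => e % 3 = 1)
          (fun e => (e % 3 ≠ 0 ∧ e ≠ 2) ∨ e = 12)
          (fun e => if e % 3 = 1 then 7 else if e % 3 = 2 then 11 else 12) hr' fam3_711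
          (fun e _ => by split_ifs <;> omega)
          (by intro x y hx hy _ _; rw [bcls3 b]; split_ifs <;> omega)
          (fun m => ⟨3 * m + 15, by omega, by omega⟩)
      rcases hleaf with (((((hx | hx) | hx) | ⟨hx | hx, (hy | hy) | hy⟩) | ⟨hx, hy⟩) | ⟨hx, hy⟩) |
        ⟨⟨hx, hy⟩, hz⟩
      · have e1 := know_eq hc hl 0 _ (by omega) hx
        exact fam_deg (Or.inl e1)
      · have e1 := know_eq hc hl 0 _ (by omega) hx
        exact fam_deg (Or.inr (Or.inl e1))
      · have e1 := know_eq hc hl 0 _ (by omega) hx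
        exact fam_deg (Or.inr (Or.inr e1))
      · have e1 := know_eq hc hl 0 _ (by omega) hx
        have e2 := know_eq hc hl 1 _ (by omega) hy
        exact fam_410 (Or.inl e1) (Or.inl e2)
      · have e1 := know_eq hc hl 0 _ (by omega) hx
        have e2 := know_eq hc hl 1 _ (by omega) hy
        exact fam_410 (Or.inl e1) (Or.inr (Or.inl e2))
      · have e1 := know_eq hc hl 0 _ (by omega) hx
        have e2 := know_eq hc hl 1 _ (by omega) hy
        exact fam_410 (Or.inl e1) (Or.inr (Or.inr e2))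
      · have e1 := know_eq hc hl 0 _ (by omega) hx
        have e2 := know_eq hc hl 1 _ (by omega) hy
        exact fam_410 (Or.inr e1) (Or.inl e2)
      · have e1 := know_eq hc hl 0 _ (by omega) hx
        have e2 := know_eq hc hl 1 _ (by omega) hy
        exact fam_410 (Or.inr e1) (Or.inr (Or.inl e2))
      · have e1 := know_eq hc hl 0 _ (by omega) hx
        have e2 := know_eq hc hl 1 _ (by omega) hy
        exact fam_410 (Or.inr e1) (Or.inr (Or.inr e2))
      · have e1 := know_eq hc hl 0 _ (by omega) hx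
        have e2 := know_eq hc hl 1 _ (by omega) hy
        exact fam_67 e1 e2
      · have e1 := know_eq hc hl 0 _ (by omega) hx
        have e2 := know_eq hc hl 1 _ (by omega) hy
        exact fam_910 e1 e2
      · have e1 := know_eq hc hl 0 _ (by omega) hx
        have e2 := know_eq hc hl 1 _ (by omega) hy
        have e3 := know_ge hc hl 2 _ (by omega) hz
        exact fam_711 e1 e2 e3
    · -- residues 0, 1
      exfalso
      have hr : ∀ e, (∃ a ∈ R, e ≡ a [MOD 3]) ↔ (fun e => e % 3 != 2) e = true := by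
        intro e; rw [mem_res, hT]; simp; omega
      have hr' : ∀ e, (∃ a ∈ R, e ≡ a [MOD 3]) ↔ e % 3 ≠ 2 := by
        intro e; rw [mem_res, hT]; simp; omega
      obtain ⟨know, hl, hc, hleaf⟩ := search_root (ok := fun e => e ∉ C) (M := 3) hM
        (hb_cls hM hb) 8 _ (hAt_of hM hb h _ hr 8 _ aRow313) leaf313 search313
      unfold leaf313 at hleaf
      simp only [Bool.or_eq_true, Bool.and_eq_true, beq_iff_eq] at hleaf
      have hb13 : b 1 = 1 ∧ (b 3 = 1 ∨ b 3 = 2) := by
        rcases hleaf with ⟨hx, hz⟩ | ⟨hx, hz⟩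
        · exact ⟨know_eq hc hl 0 _ (by omega) hx, Or.inl (know_eq hc hl 2 _ (by omega) hz)⟩
        · exact ⟨know_eq hc hl 0 _ (by omega) hx, Or.inr (know_eq hc hl 2 _ (by omega) hz)⟩
      exact absurd_of_deg hM hb h (fun e => e % 3 ≠ 2) hr' (by
          intro x y hx hy _ _ hxy; rw [bcls3 b]; split_ifs <;> omega)
          (fun m => ⟨3 * m + 2, by omega, by omega⟩)
    · -- residue 2
      exfalso
      have hr : ∀ e, (∃ a ∈ R, e ≡ a [MOD 3]) ↔ (fun e => e % 3 == 2) e = true := by
        intro e; rw [mem_res, hT]; simp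
      have hr' : ∀ e, (∃ a ∈ R, e ≡ a [MOD 3]) ↔ e % 3 = 2 := by
        intro e; rw [mem_res, hT]; simp
      obtain ⟨know, hl, hc, hleaf⟩ := search_root (ok := fun e => e ∉ C) (M := 3) hM
        (hb_cls hM hb) 51 _ (hAt_of hM hb h _ hr 51 _ aRow32) leaf32 search32
      unfold leaf32 at hleaf
      simp only [Bool.or_eq_true, Bool.and_eq_true, beq_iff_eq] at hleaf
      have fam_deg : (b 2 = 1 ∨ b 2 = 2 ∨ b 2 = 3) → False := by
        intro e1
        exact absurd_of_deg hM hb h (fun e => e % 3 = 2) hr' (by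
          intro x y hx hy _ _ hxy; rw [bcls3 b]; split_ifs <;> omega)
          (fun m => ⟨3 * m + 3, by omega, by omega⟩)
      have fam_114 : (b 1 = 9 ∨ b 1 = 10 ∨ b 1 = 11) → b 2 = 4 → False := by
        intro e1 e2
        exact absurd_of_fam hM hb h (fun e => e % 3 = 2)
          (fun e => (e % 6 = 1 ∨ e % 6 = 2 ∨ e % 6 = 5) ∧ e ≠ 1)
          (fun e => if e % 3 = 1 then 11 else 4) hr' fam3_114 (fun e _ => by split_ifs <;> omega)
          (by intro x y hx hy _ _; rw [bcls3 b]; split_ifs <;> omega)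
          (fun m => ⟨6 * m + 6, by omega, by omega⟩)
      have fam_76 : (b 1 = 7 ∨ b 1 = 8) → (b 2 = 5 ∨ b 2 = 6) → False := by
        intro e1 e2
        exact absurd_of_fam hM hb h (fun e => e % 3 = 2)
          (fun e => (e % 6 = 1 ∨ e % 6 = 2 ∨ e % 6 = 5) ∧ e ≠ 1)
          (fun e => if e % 3 = 1 then 7 else 6) hr' fam3_76 (fun e _ => by split_ifs <;> omega)
          (by intro x y hx hy _ _; rw [bcls3 b]; split_ifs <;> omega)
          (fun m => ⟨6 * m + 6, by omega, by omega⟩)
      have fam_119 : (b 1 = 10 ∨ b 1 = 11) → (b 2 = 8 ∨ b 2 = 9) → False := by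
        intro e1 e2
        exact absurd_of_fam hM hb h (fun e => e % 3 = 2)
          (fun e => e % 3 ≠ 0 ∧ e ≠ 1 ∧ e ≠ 4)
          (fun e => if e % 3 = 1 then 11 else 9) hr' fam3_119 (fun e _ => by split_ifs <;> omega)
          (by intro x y hx hy _ _; rw [bcls3 b]; split_ifs <;> omega)
          (fun m => ⟨3 * m + 3, by omega, by omega⟩)
      rcases hleaf with ((((hy | hy) | hy) | ⟨hy, (hx | hx) | hx⟩) | ⟨hx | hx, hy | hy⟩) |
        ⟨hx | hx, hy | hy⟩
      · have e2 := know_eq hc hl 1 _ (by omega) hy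
        exact fam_deg (Or.inl e2)
      · have e2 := know_eq hc hl 1 _ (by omega) hy
        exact fam_deg (Or.inr (Or.inl e2))
      · have e2 := know_eq hc hl 1 _ (by omega) hy
        exact fam_deg (Or.inr (Or.inr e2))
      · have e1 := know_eq hc hl 0 _ (by omega) hx
        have e2 := know_eq hc hl 1 _ (by omega) hy
        exact fam_114 (Or.inl e1) e2
      · have e1 := know_eq hc hl 0 _ (by omega) hx
        have e2 := know_eq hc hl 1 _ (by omega) hy
        exact fam_114 (Or.inr (Or.inl e1)) e2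
      · have e1 := know_eq hc hl 0 _ (by omega) hx
        have e2 := know_eq hc hl 1 _ (by omega) hy
        exact fam_114 (Or.inr (Or.inr e1)) e2
      · have e1 := know_eq hc hl 0 _ (by omega) hx
        have e2 := know_eq hc hl 1 _ (by omega) hy
        exact fam_76 (Or.inl e1) (Or.inl e2)
      · have e1 := know_eq hc hl 0 _ (by omega) hx
        have e2 := know_eq hc hl 1 _ (by omega) hy
        exact fam_76 (Or.inl e1) (Or.inr e2)
      · have e1 := know_eq hc hl 0 _ (by omega) hx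
        have e2 := know_eq hc hl 1 _ (by omega) hy
        exact fam_76 (Or.inr e1) (Or.inl e2)
      · have e1 := know_eq hc hl 0 _ (by omega) hx
        have e2 := know_eq hc hl 1 _ (by omega) hy
        exact fam_76 (Or.inr e1) (Or.inr e2)
      · have e1 := know_eq hc hl 0 _ (by omega) hx
        have e2 := know_eq hc hl 1 _ (by omega) hy
        exact fam_119 (Or.inl e1) (Or.inl e2)
      · have e1 := know_eq hc hl 0 _ (by omega) hx
        have e2 := know_eq hc hl 1 _ (by omega) hy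
        exact fam_119 (Or.inl e1) (Or.inr e2)
      · have e1 := know_eq hc hl 0 _ (by omega) hx
        have e2 := know_eq hc hl 1 _ (by omega) hy
        exact fam_119 (Or.inr e1) (Or.inl e2)
      · have e1 := know_eq hc hl 0 _ (by omega) hx
        have e2 := know_eq hc hl 1 _ (by omega) hy
        exact fam_119 (Or.inr e1) (Or.inr e2)
    · -- residues 0, 2
      exfalso
      have hr : ∀ e, (∃ a ∈ R, e ≡ a [MOD 3]) ↔ (fun e => e % 3 != 1) e = true := by
        intro e; rw [mem_res, hT]; simp; omega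
      have hr' : ∀ e, (∃ a ∈ R, e ≡ a [MOD 3]) ↔ e % 3 ≠ 1 := by
        intro e; rw [mem_res, hT]; simp; omega
      obtain ⟨know, hl, hc, hleaf⟩ := search_root (ok := fun e => e ∉ C) (M := 3) hM
        (hb_cls hM hb) 9 _ (hAt_of hM hb h _ hr 9 _ aRow323) leaf323 search323
      unfold leaf323 at hleaf
      simp only [Bool.or_eq_true, Bool.and_eq_true, beq_iff_eq] at hleaf
      have hb23 : b 3 = 1 ∧ (b 2 = 1 ∨ b 2 = 2) := by
        rcases hleaf with ⟨hx, hz⟩ | ⟨hx, hz⟩
        · exact ⟨know_eq hc hl 2 _ (by omega) hz, Or.inl (know_eq hc hl 1 _ (by omega) hx)⟩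
        · exact ⟨know_eq hc hl 2 _ (by omega) hz, Or.inr (know_eq hc hl 1 _ (by omega) hx)⟩
      exact absurd_of_deg hM hb h (fun e => e % 3 ≠ 1) hr' (by
          intro x y hx hy _ _ hxy; rw [bcls3 b]; split_ifs <;> omega)
          (fun m => ⟨3 * m + 1, by omega, by omega⟩)
    · -- residues 1, 2
      have hr : ∀ e, (∃ a ∈ R, e ≡ a [MOD 3]) ↔ (fun e => e % 3 != 0) e = true := by
        intro e; rw [mem_res, hT]; simp; omega
      have hr' : ∀ e, (∃ a ∈ R, e ≡ a [MOD 3]) ↔ e % 3 ≠ 0 := by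
        intro e; rw [mem_res, hT]; simp; omega
      obtain ⟨know, hl, hc, hleaf⟩ := search_root (ok := fun e => e ∉ C) (M := 3) hM
        (hb_cls hM hb) 32 _ (hAt_of hM hb h _ hr 32 _ aRow312) leaf312 search312
      unfold leaf312 at hleaf
      simp only [Bool.or_eq_true, Bool.and_eq_true, beq_iff_eq] at hleaf
      have fam_deg : (b 1 = 1 ∨ b 1 = 2) → b 2 = 1 → False := by
        intro e1 e2
        exact absurd_of_deg hM hb h (fun e => e % 3 ≠ 0) hr' (by
          intro x y hx hy _ _ hxy; rw [bcls3 b]; split_ifs <;> omega)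
          (fun m => ⟨3 * m + 3, by omega, by omega⟩)
      rcases hleaf with ((⟨hx, hy⟩ | ⟨hx, hy⟩) | ⟨⟨hx, hy⟩, hz⟩) | ⟨⟨hx, hy⟩, hz⟩
      · have e1 := know_eq hc hl 0 _ (by omega) hx
        have e2 := know_eq hc hl 1 _ (by omega) hy
        exact (fam_deg (Or.inl e1) e2).elim
      · have e1 := know_eq hc hl 0 _ (by omega) hx
        have e2 := know_eq hc hl 1 _ (by omega) hy
        exact (fam_deg (Or.inr e1) e2).elim
      · have e1 := know_eq hc hl 0 _ (by omega) hx
        have e2 := know_eq hc hl 1 _ (by omega) hy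
        have e3 := know_eq hc hl 2 _ (by omega) hz
        exact Or.inr ⟨hT, Or.inr ⟨e1, e2, e3⟩,
          finite_unique hM hb h (fun n _ => schur_sol' R b hT e1 e2 e3 n) hC (by simp)⟩
      · have e1 := know_eq hc hl 0 _ (by omega) hx
        have e2 := know_eq hc hl 1 _ (by omega) hy
        have e3 := know_eq hc hl 2 _ (by omega) hz
        exact Or.inr ⟨hT, Or.inl ⟨e1, e2, e3⟩,
          finite_unique hM hb h (fun n _ => schur_sol R b hT e1 e2 e3 n) hC (by simp)⟩
    · -- all residues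
      have hr : ∀ e, (∃ a ∈ R, e ≡ a [MOD 3]) ↔ (fun _ : ℕ => true) e = true := by
        intro e; rw [mem_res, hT]; simp; omega
      have hr' : ∀ e, (∃ a ∈ R, e ≡ a [MOD 3]) ↔ True := by
        intro e; rw [mem_res, hT]; simp; omega
      obtain ⟨know, hl, hc, hleaf⟩ := search_root (ok := fun e => e ∉ C) (M := 3) hM
        (hb_cls hM hb) 8 _ (hAt_of hM hb h _ hr 8 _ aRow3a) leaf3a search3a
      unfold leaf3a at hleaf
      simp only [Bool.and_eq_true, beq_iff_eq] at hleaf
      have e1 := know_eq hc hl 0 _ (by omega) hleaf.1.1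
      have e2 := know_eq hc hl 1 _ (by omega) hleaf.1.2
      have e3 := know_eq hc hl 2 _ (by omega) hleaf.2
      refine Or.inl ⟨hT, e1, e2, e3,
        finite_unique hM hb h (fun n _ => trivial_sol hM hr' ?_ n) hC (by simp)⟩
      intro j h1 h2
      interval_cases j
      · exact e1
      · exact e2
      · exact e3
  · rintro (⟨hT, h1, h2, h3, rfl⟩ | ⟨hT, ⟨h1, h2, h3⟩ | ⟨h1, h2, h3⟩, rfl⟩)
    · refine ⟨?_, by simp, fun n _ => trivial_sol hM ?_ ?_ n⟩
      · intro j hj1 hj2; interval_cases j <;> omega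
      · intro e; rw [mem_res, hT]; simp; omega
      · intro j hj1 hj2; interval_cases j
        · exact h1
        · exact h2
        · exact h3
    · refine ⟨?_, by simp, fun n _ => schur_sol R b hT h1 h2 h3 n⟩
      intro j hj1 hj2; interval_cases j <;> omega
    · refine ⟨?_, by simp, fun n _ => schur_sol' R b hT h1 h2 h3 n⟩
      intro j hj1 hj2; interval_cases j <;> omega

end PD687
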