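import Pool.Agent.TH687.PD.FamG

namespace PD687

open Finset PowerSeries

/-! ### product sides -/

lemma Q4_18 (N : ℕ) : Q (fun e => e % 4 = 1) (8 * N) =
    ∏ i ∈ range N, (1 + (X : PowerSeries ℤ) ^ (1 + 8 * i)) * (1 + X ^ (5 + 8 * i)) := by
  induction N with
  | zero => simp [Q]
  | succ N ih =>
    have hf : (Finset.Icc 1 8).filter (fun j => (8 * N + j) % 4 = 1) = {1, 5} := by
      ext j; simp only [Finset.mem_filter, Finset.mem_Icc, Finset.mem_insert,
        Finset.mem_singleton]; omega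
    rw [show 8 * (N + 1) = 8 * N + 8 by ring, Q_add, ih, hf, prod_range_succ,
      Finset.prod_insert (by simp), Finset.prod_singleton]
    ring

lemma Q4_38 (N : ℕ) : Q (fun e => e % 4 = 3) (8 * N) =
    ∏ i ∈ range N, (1 + (X : PowerSeries ℤ) ^ (3 + 8 * i)) * (1 + X ^ (7 + 8 * i)) := by
  induction N with
  | zero => simp [Q]
  | succ N ih =>
    have hf : (Finset.Icc 1 8).filter (fun j => (8 * N + j) % 4 = 3) = {3, 7} := by
      ext j; simp only [Finset.mem_filter, Finset.mem_Icc, Finset.mem_insert,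
        Finset.mem_singleton]; omega
    rw [show 8 * (N + 1) = 8 * N + 8 by ring, Q_add, ih, hf, prod_range_succ,
      Finset.prod_insert (by simp), Finset.prod_singleton]
    ring

lemma Q4_12 (N : ℕ) : Q (fun e => e % 4 = 1 ∨ e % 4 = 2) (4 * N) =
    ∏ i ∈ range N, (1 + (X : PowerSeries ℤ) ^ (1 + 4 * i)) * (1 + X ^ (2 + 4 * i)) := by
  induction N with
  | zero => simp [Q]
  | succ N ih =>
    have hf : (Finset.Icc 1 4).filter (fun j => (4 * N + j) % 4 = 1 ∨ (4 * N + j) % 4 = 2) = {1, 2} := by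
      ext j; simp only [Finset.mem_filter, Finset.mem_Icc, Finset.mem_insert,
        Finset.mem_singleton]; omega
    rw [show 4 * (N + 1) = 4 * N + 4 by ring, Q_add, ih, hf, prod_range_succ,
      Finset.prod_insert (by simp), Finset.prod_singleton]
    ring

lemma Q4_23 (N : ℕ) : Q (fun e => e % 4 = 2 ∨ e % 4 = 3) (4 * N) =
    ∏ i ∈ range N, (1 + (X : PowerSeries ℤ) ^ (2 + 4 * i)) * (1 + X ^ (3 + 4 * i)) := by
  induction N with
  | zero => simp [Q]
  | succ N ih =>
    have hf : (Finset.Icc 1 4).filter (fun j => (4 * N + j) % 4 = 2 ∨ (4 * N + j) % 4 = 3) = {2, 3} := by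
      ext j; simp only [Finset.mem_filter, Finset.mem_Icc, Finset.mem_insert,
        Finset.mem_singleton]; omega
    rw [show 4 * (N + 1) = 4 * N + 4 by ring, Q_add, ih, hf, prod_range_succ,
      Finset.prod_insert (by simp), Finset.prod_singleton]
    ring

lemma Q4_112 (N : ℕ) : Q (fun e => e % 4 = 1) (12 * N) =
    ∏ i ∈ range N, (1 + (X : PowerSeries ℤ) ^ (1 + 12 * i)) * (1 + X ^ (5 + 12 * i)) *
      (1 + X ^ (9 + 12 * i)) := by
  induction N with
  | zero => simp [Q]
  | succ N ih =>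
    have hf : (Finset.Icc 1 12).filter (fun j => (12 * N + j) % 4 = 1) = {1, 5, 9} := by
      ext j; simp only [Finset.mem_filter, Finset.mem_Icc, Finset.mem_insert,
        Finset.mem_singleton]; omega
    rw [show 12 * (N + 1) = 12 * N + 12 by ring, Q_add, ih, hf, prod_range_succ,
      Finset.prod_insert (by simp), Finset.prod_insert (by simp), Finset.prod_singleton]
    ring

lemma Q4_312 (N : ℕ) : Q (fun e => e % 4 = 3) (12 * N) =
    ∏ i ∈ range N, (1 + (X : PowerSeries ℤ) ^ (3 + 12 * i)) * (1 + X ^ (7 + 12 * i)) *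
      (1 + X ^ (11 + 12 * i)) := by
  induction N with
  | zero => simp [Q]
  | succ N ih =>
    have hf : (Finset.Icc 1 12).filter (fun j => (12 * N + j) % 4 = 3) = {3, 7, 11} := by
      ext j; simp only [Finset.mem_filter, Finset.mem_Icc, Finset.mem_insert,
        Finset.mem_singleton]; omega
    rw [show 12 * (N + 1) = 12 * N + 12 by ring, Q_add, ih, hf, prod_range_succ,
      Finset.prod_insert (by simp), Finset.prod_insert (by simp), Finset.prod_singleton]
    ring

lemma fam4_89 (n : ℕ) : cnt (fun e => e % 8 = 1 ∨ e % 8 = 5 ∨ e % 8 = 6) (fun e => if e % 4 = 1 then 8 else 9) n n =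
    cnt (fun e => e % 4 = 1) (fun _ => 1) n n := by
  refine schur_bridge 1 5 8 (by norm_num) (fun e _ => by split_ifs <;> omega) Q4_18 ?_ n
  intro i
  refine ⟨8 * i + 1, 6 * i + 1, by omega, by omega, ?_⟩
  have h := schur_a (X : PowerSeries ℤ) (X ^ 5) (X ^ 8)
    (fun i => P (fun e => e % 8 = 1 ∨ e % 8 = 5 ∨ e % 8 = 6) (fun e => if e % 4 = 1 then 8 else 9) (8 * i + 1))
    (fun i => P (fun e => e % 8 = 1 ∨ e % 8 = 5 ∨ e % 8 = 6) (fun e => if e % 4 = 1 then 8 else 9) (8 * i + 5))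
    (fun i => P (fun e => e % 8 = 1 ∨ e % 8 = 5 ∨ e % 8 = 6) (fun e => if e % 4 = 1 then 8 else 9) (8 * i + 6))
    ?_ ?_ ?_ ?_ ?_ ?_ i
  · rw [pow_one]; exact h.1
  · have e1 := P_step (ok := fun e => e % 8 = 1 ∨ e % 8 = 5 ∨ e % 8 = 6) (d := fun e => if e % 4 = 1 then 8 else 9)
      (8 * 0 + 1) (0) (0) (by omega) (by split_ifs <;> omega)
      (by omega) (by intros; omega) (by split_ifs <;> omega)
      (by intro y h1 h2; split_ifs at h2 <;> omega)
    rw [e1, P_zero]; ring
  · have e1 := P_step (ok := fun e => e % 8 = 1 ∨ e % 8 = 5 ∨ e % 8 = 6) (d := fun e => if e % 4 = 1 then 8 else 9)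
      (8 * 0 + 5) (8 * 0 + 1) (0) (by omega) (by split_ifs <;> omega)
      (by omega) (by intros; omega) (by split_ifs <;> omega)
      (by intro y h1 h2; split_ifs at h2 <;> omega)
    rw [e1, P_zero]; ring
  · have e1 := P_step (ok := fun e => e % 8 = 1 ∨ e % 8 = 5 ∨ e % 8 = 6) (d := fun e => if e % 4 = 1 then 8 else 9)
      (8 * 0 + 6) (8 * 0 + 5) (0) (by omega) (by split_ifs <;> omega)
      (by omega) (by intros; omega) (by split_ifs <;> omega)
      (by intro y h1 h2; split_ifs at h2 <;> omega)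
    rw [e1, P_zero]; ring
  · intro i
    have e1 := P_step (ok := fun e => e % 8 = 1 ∨ e % 8 = 5 ∨ e % 8 = 6) (d := fun e => if e % 4 = 1 then 8 else 9)
      (8 * (i + 1) + 1) (8 * i + 6) (8 * i + 1) (by omega) (by split_ifs <;> omega)
      (by omega) (by intros; omega) (by split_ifs <;> omega)
      (by intro y h1 h2; split_ifs at h2 <;> omega)
    rw [e1]; ring
  · intro i
    have e1 := P_step (ok := fun e => e % 8 = 1 ∨ e % 8 = 5 ∨ e % 8 = 6) (d := fun e => if e % 4 = 1 then 8 else 9)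
      (8 * (i + 1) + 5) (8 * (i + 1) + 1) (8 * i + 5) (by omega) (by split_ifs <;> omega)
      (by omega) (by intros; omega) (by split_ifs <;> omega)
      (by intro y h1 h2; split_ifs at h2 <;> omega)
    rw [e1]; ring
  · intro i
    have e1 := P_step (ok := fun e => e % 8 = 1 ∨ e % 8 = 5 ∨ e % 8 = 6) (d := fun e => if e % 4 = 1 then 8 else 9)
      (8 * (i + 1) + 6) (8 * (i + 1) + 5) (8 * i + 5) (by omega) (by split_ifs <;> omega)
      (by omega) (by intros; omega) (by split_ifs <;> omega)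
      (by intro y h1 h2; split_ifs at h2 <;> omega)
    rw [e1]; ring

lemma fam4_513 (n : ℕ) : cnt (fun e => e % 8 = 1 ∨ e % 8 = 5 ∨ e % 8 = 6) (fun e => if e % 4 = 1 then 5 else 13) n n =
    cnt (fun e => e % 4 = 1) (fun _ => 1) n n := by
  refine schur_bridge 1 5 8 (by norm_num) (fun e _ => by split_ifs <;> omega) Q4_18 ?_ n
  intro i
  refine ⟨8 * i + 1, 6 * i + 1, by omega, by omega, ?_⟩
  have h := schur_b (X : PowerSeries ℤ) (X ^ 5) (X ^ 8)
    (fun i => P (fun e => e % 8 = 1 ∨ e % 8 = 5 ∨ e % 8 = 6) (fun e => if e % 4 = 1 then 5 else 13) (8 * i + 1))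
    (fun i => P (fun e => e % 8 = 1 ∨ e % 8 = 5 ∨ e % 8 = 6) (fun e => if e % 4 = 1 then 5 else 13) (8 * i + 6))
    ?_ ?_ ?_ ?_ i
  · rw [pow_one]; exact h.1
  · have e1 := P_step (ok := fun e => e % 8 = 1 ∨ e % 8 = 5 ∨ e % 8 = 6) (d := fun e => if e % 4 = 1 then 5 else 13)
      (8 * 0 + 1) (0) (0) (by omega) (by split_ifs <;> omega)
      (by omega) (by intros; omega) (by split_ifs <;> omega)
      (by intro y h1 h2; split_ifs at h2 <;> omega)
    rw [e1, P_zero]; ring
  · have e1 := P_step (ok := fun e => e % 8 = 1 ∨ e % 8 = 5 ∨ e % 8 = 6) (d := fun e => if e % 4 = 1 then 5 else 13)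
      (8 * 0 + 6) (8 * 0 + 5) (0) (by omega) (by split_ifs <;> omega)
      (by omega) (by intros; omega) (by split_ifs <;> omega)
      (by intro y h1 h2; split_ifs at h2 <;> omega)
    have e2 := P_step (ok := fun e => e % 8 = 1 ∨ e % 8 = 5 ∨ e % 8 = 6) (d := fun e => if e % 4 = 1 then 5 else 13)
      (8 * 0 + 5) (8 * 0 + 1) (0) (by omega) (by split_ifs <;> omega)
      (by omega) (by intros; omega) (by split_ifs <;> omega)
      (by intro y h1 h2; split_ifs at h2 <;> omega)
    rw [e1, e2, P_zero]; ring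
  · intro i
    have e1 := P_step (ok := fun e => e % 8 = 1 ∨ e % 8 = 5 ∨ e % 8 = 6) (d := fun e => if e % 4 = 1 then 5 else 13)
      (8 * (i + 1) + 1) (8 * i + 6) (8 * i + 1) (by omega) (by split_ifs <;> omega)
      (by omega) (by intros; omega) (by split_ifs <;> omega)
      (by intro y h1 h2; split_ifs at h2 <;> omega)
    rw [e1]; ring
  · intro i
    have e1 := P_step (ok := fun e => e % 8 = 1 ∨ e % 8 = 5 ∨ e % 8 = 6) (d := fun e => if e % 4 = 1 then 5 else 13)
      (8 * (i + 1) + 6) (8 * (i + 1) + 5) (8 * i + 1) (by omega) (by split_ifs <;> omega)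
      (by omega) (by intros; omega) (by split_ifs <;> omega)
      (by intro y h1 h2; split_ifs at h2 <;> omega)
    have e2 := P_step (ok := fun e => e % 8 = 1 ∨ e % 8 = 5 ∨ e % 8 = 6) (d := fun e => if e % 4 = 1 then 5 else 13)
      (8 * (i + 1) + 5) (8 * (i + 1) + 1) (8 * i + 6) (by omega) (by split_ifs <;> omega)
      (by omega) (by intros; omega) (by split_ifs <;> omega)
      (by intro y h1 h2; split_ifs at h2 <;> omega)
    rw [e1, e2]; ring

lemma fam4_445 (n : ℕ) : cnt (fun e => e % 4 ≠ 0) (fun e => if e % 4 = 3 then 5 else 4) n n =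
    cnt (fun e => e % 4 = 1 ∨ e % 4 = 2) (fun _ => 1) n n := by
  refine schur_bridge 1 2 4 (by norm_num) (fun e _ => by split_ifs <;> omega) Q4_12 ?_ n
  intro i
  refine ⟨4 * i + 1, 6 * i + 1, by omega, by omega, ?_⟩
  have h := schur_a (X : PowerSeries ℤ) (X ^ 2) (X ^ 4)
    (fun i => P (fun e => e % 4 ≠ 0) (fun e => if e % 4 = 3 then 5 else 4) (4 * i + 1))
    (fun i => P (fun e => e % 4 ≠ 0) (fun e => if e % 4 = 3 then 5 else 4) (4 * i + 2))
    (fun i => P (fun e => e % 4 ≠ 0) (fun e => if e % 4 = 3 then 5 else 4) (4 * i + 3))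
    ?_ ?_ ?_ ?_ ?_ ?_ i
  · rw [pow_one]; exact h.1
  · have e1 := P_step (ok := fun e => e % 4 ≠ 0) (d := fun e => if e % 4 = 3 then 5 else 4)
      (4 * 0 + 1) (0) (0) (by omega) (by split_ifs <;> omega)
      (by omega) (by intros; omega) (by split_ifs <;> omega)
      (by intro y h1 h2; split_ifs at h2 <;> omega)
    rw [e1, P_zero]; ring
  · have e1 := P_step (ok := fun e => e % 4 ≠ 0) (d := fun e => if e % 4 = 3 then 5 else 4)
      (4 * 0 + 2) (4 * 0 + 1) (0) (by omega) (by split_ifs <;> omega)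
      (by omega) (by intros; omega) (by split_ifs <;> omega)
      (by intro y h1 h2; split_ifs at h2 <;> omega)
    rw [e1, P_zero]; ring
  · have e1 := P_step (ok := fun e => e % 4 ≠ 0) (d := fun e => if e % 4 = 3 then 5 else 4)
      (4 * 0 + 3) (4 * 0 + 2) (0) (by omega) (by split_ifs <;> omega)
      (by omega) (by intros; omega) (by split_ifs <;> omega)
      (by intro y h1 h2; split_ifs at h2 <;> omega)
    rw [e1, P_zero]; ring
  · intro i
    have e1 := P_step (ok := fun e => e % 4 ≠ 0) (d := fun e => if e % 4 = 3 then 5 else 4)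
      (4 * (i + 1) + 1) (4 * i + 3) (4 * i + 1) (by omega) (by split_ifs <;> omega)
      (by omega) (by intros; omega) (by split_ifs <;> omega)
      (by intro y h1 h2; split_ifs at h2 <;> omega)
    rw [e1]; ring
  · intro i
    have e1 := P_step (ok := fun e => e % 4 ≠ 0) (d := fun e => if e % 4 = 3 then 5 else 4)
      (4 * (i + 1) + 2) (4 * (i + 1) + 1) (4 * i + 2) (by omega) (by split_ifs <;> omega)
      (by omega) (by intros; omega) (by split_ifs <;> omega)
      (by intro y h1 h2; split_ifs at h2 <;> omega)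
    rw [e1]; ring
  · intro i
    have e1 := P_step (ok := fun e => e % 4 ≠ 0) (d := fun e => if e % 4 = 3 then 5 else 4)
      (4 * (i + 1) + 3) (4 * (i + 1) + 2) (4 * i + 2) (by omega) (by split_ifs <;> omega)
      (by omega) (by intros; omega) (by split_ifs <;> omega)
      (by intro y h1 h2; split_ifs at h2 <;> omega)
    rw [e1]; ring

lemma fam4_436 (n : ℕ) : cnt (fun e => e % 4 ≠ 0) (fun e => if e % 4 = 1 then 4 else if e % 4 = 2 then 3 else 6) n n =
    cnt (fun e => e % 4 = 1 ∨ e % 4 = 2) (fun _ => 1) n n := by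
  refine schur_bridge 1 2 4 (by norm_num) (fun e _ => by split_ifs <;> omega) Q4_12 ?_ n
  intro i
  refine ⟨4 * i + 1, 6 * i + 1, by omega, by omega, ?_⟩
  have h := schur_b (X : PowerSeries ℤ) (X ^ 2) (X ^ 4)
    (fun i => P (fun e => e % 4 ≠ 0) (fun e => if e % 4 = 1 then 4 else if e % 4 = 2 then 3 else 6) (4 * i + 1))
    (fun i => P (fun e => e % 4 ≠ 0) (fun e => if e % 4 = 1 then 4 else if e % 4 = 2 then 3 else 6) (4 * i + 3))
    ?_ ?_ ?_ ?_ i
  · rw [pow_one]; exact h.1
  · have e1 := P_step (ok := fun e => e % 4 ≠ 0) (d := fun e => if e % 4 = 1 then 4 else if e % 4 = 2 then 3 else 6)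
      (4 * 0 + 1) (0) (0) (by omega) (by split_ifs <;> omega)
      (by omega) (by intros; omega) (by split_ifs <;> omega)
      (by intro y h1 h2; split_ifs at h2 <;> omega)
    rw [e1, P_zero]; ring
  · have e1 := P_step (ok := fun e => e % 4 ≠ 0) (d := fun e => if e % 4 = 1 then 4 else if e % 4 = 2 then 3 else 6)
      (4 * 0 + 3) (4 * 0 + 2) (0) (by omega) (by split_ifs <;> omega)
      (by omega) (by intros; omega) (by split_ifs <;> omega)
      (by intro y h1 h2; split_ifs at h2 <;> omega)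
    have e2 := P_step (ok := fun e => e % 4 ≠ 0) (d := fun e => if e % 4 = 1 then 4 else if e % 4 = 2 then 3 else 6)
      (4 * 0 + 2) (4 * 0 + 1) (0) (by omega) (by split_ifs <;> omega)
      (by omega) (by intros; omega) (by split_ifs <;> omega)
      (by intro y h1 h2; split_ifs at h2 <;> omega)
    rw [e1, e2, P_zero]; ring
  · intro i
    have e1 := P_step (ok := fun e => e % 4 ≠ 0) (d := fun e => if e % 4 = 1 then 4 else if e % 4 = 2 then 3 else 6)
      (4 * (i + 1) + 1) (4 * i + 3) (4 * i + 1) (by omega) (by split_ifs <;> omega)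
      (by omega) (by intros; omega) (by split_ifs <;> omega)
      (by intro y h1 h2; split_ifs at h2 <;> omega)
    rw [e1]; ring
  · intro i
    have e1 := P_step (ok := fun e => e % 4 ≠ 0) (d := fun e => if e % 4 = 1 then 4 else if e % 4 = 2 then 3 else 6)
      (4 * (i + 1) + 3) (4 * (i + 1) + 2) (4 * i + 1) (by omega) (by split_ifs <;> omega)
      (by omega) (by intros; omega) (by split_ifs <;> omega)
      (by intro y h1 h2; split_ifs at h2 <;> omega)
    have e2 := P_step (ok := fun e => e % 4 ≠ 0) (d := fun e => if e % 4 = 1 then 4 else if e % 4 = 2 then 3 else 6)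
      (4 * (i + 1) + 2) (4 * (i + 1) + 1) (4 * i + 3) (by omega) (by split_ifs <;> omega)
      (by omega) (by intros; omega) (by split_ifs <;> omega)
      (by intro y h1 h2; split_ifs at h2 <;> omega)
    rw [e1, e2]; ring

lemma fam4_118 (n : ℕ) : cnt (fun e => (e % 8 = 3 ∨ e % 8 = 7 ∨ e % 8 = 2) ∧ e ≠ 2) (fun e => if e % 4 = 3 then 8 else 11) n n =
    cnt (fun e => e % 4 = 3) (fun _ => 1) n n := by
  refine schur_bridge 3 7 8 (by norm_num) (fun e _ => by split_ifs <;> omega) Q4_38 ?_ n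
  intro i
  refine ⟨8 * i + 3, 6 * i + 1, by omega, by omega, ?_⟩
  have h := schur_a (X ^ 3 : PowerSeries ℤ) (X ^ 7) (X ^ 8)
    (fun i => P (fun e => (e % 8 = 3 ∨ e % 8 = 7 ∨ e % 8 = 2) ∧ e ≠ 2) (fun e => if e % 4 = 3 then 8 else 11) (8 * i + 3))
    (fun i => P (fun e => (e % 8 = 3 ∨ e % 8 = 7 ∨ e % 8 = 2) ∧ e ≠ 2) (fun e => if e % 4 = 3 then 8 else 11) (8 * i + 7))
    (fun i => P (fun e => (e % 8 = 3 ∨ e % 8 = 7 ∨ e % 8 = 2) ∧ e ≠ 2) (fun e => if e % 4 = 3 then 8 else 11) (8 * i + 10))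
    ?_ ?_ ?_ ?_ ?_ ?_ i
  · exact h.1
  · have e1 := P_step (ok := fun e => (e % 8 = 3 ∨ e % 8 = 7 ∨ e % 8 = 2) ∧ e ≠ 2) (d := fun e => if e % 4 = 3 then 8 else 11)
      (8 * 0 + 3) (0) (0) (by omega) (by split_ifs <;> omega)
      (by omega) (by intros; omega) (by split_ifs <;> omega)
      (by intro y h1 h2; split_ifs at h2 <;> omega)
    rw [e1, P_zero]; ring
  · have e1 := P_step (ok := fun e => (e % 8 = 3 ∨ e % 8 = 7 ∨ e % 8 = 2) ∧ e ≠ 2) (d := fun e => if e % 4 = 3 then 8 else 11)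
      (8 * 0 + 7) (8 * 0 + 3) (0) (by omega) (by split_ifs <;> omega)
      (by omega) (by intros; omega) (by split_ifs <;> omega)
      (by intro y h1 h2; split_ifs at h2 <;> omega)
    rw [e1, P_zero]; ring
  · have e1 := P_step (ok := fun e => (e % 8 = 3 ∨ e % 8 = 7 ∨ e % 8 = 2) ∧ e ≠ 2) (d := fun e => if e % 4 = 3 then 8 else 11)
      (8 * 0 + 10) (8 * 0 + 7) (0) (by omega) (by split_ifs <;> omega)
      (by omega) (by intros; omega) (by split_ifs <;> omega)
      (by intro y h1 h2; split_ifs at h2 <;> omega)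
    rw [e1, P_zero]; ring
  · intro i
    have e1 := P_step (ok := fun e => (e % 8 = 3 ∨ e % 8 = 7 ∨ e % 8 = 2) ∧ e ≠ 2) (d := fun e => if e % 4 = 3 then 8 else 11)
      (8 * (i + 1) + 3) (8 * i + 10) (8 * i + 3) (by omega) (by split_ifs <;> omega)
      (by omega) (by intros; omega) (by split_ifs <;> omega)
      (by intro y h1 h2; split_ifs at h2 <;> omega)
    rw [e1]; ring
  · intro i
    have e1 := P_step (ok := fun e => (e % 8 = 3 ∨ e % 8 = 7 ∨ e % 8 = 2) ∧ e ≠ 2) (d := fun e => if e % 4 = 3 then 8 else 11)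
      (8 * (i + 1) + 7) (8 * (i + 1) + 3) (8 * i + 7) (by omega) (by split_ifs <;> omega)
      (by omega) (by intros; omega) (by split_ifs <;> omega)
      (by intro y h1 h2; split_ifs at h2 <;> omega)
    rw [e1]; ring
  · intro i
    have e1 := P_step (ok := fun e => (e % 8 = 3 ∨ e % 8 = 7 ∨ e % 8 = 2) ∧ e ≠ 2) (d := fun e => if e % 4 = 3 then 8 else 11)
      (8 * (i + 1) + 10) (8 * (i + 1) + 7) (8 * i + 7) (by omega) (by split_ifs <;> omega)
      (by omega) (by intros; omega) (by split_ifs <;> omega)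
      (by intro y h1 h2; split_ifs at h2 <;> omega)
    rw [e1]; ring

lemma fam4_155 (n : ℕ) : cnt (fun e => (e % 8 = 3 ∨ e % 8 = 7 ∨ e % 8 = 2) ∧ e ≠ 2) (fun e => if e % 4 = 3 then 5 else 15) n n =
    cnt (fun e => e % 4 = 3) (fun _ => 1) n n := by
  refine schur_bridge 3 7 8 (by norm_num) (fun e _ => by split_ifs <;> omega) Q4_38 ?_ n
  intro i
  refine ⟨8 * i + 3, 6 * i + 1, by omega, by omega, ?_⟩
  have h := schur_b (X ^ 3 : PowerSeries ℤ) (X ^ 7) (X ^ 8)
    (fun i => P (fun e => (e % 8 = 3 ∨ e % 8 = 7 ∨ e % 8 = 2) ∧ e ≠ 2) (fun e => if e % 4 = 3 then 5 else 15) (8 * i + 3))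
    (fun i => P (fun e => (e % 8 = 3 ∨ e % 8 = 7 ∨ e % 8 = 2) ∧ e ≠ 2) (fun e => if e % 4 = 3 then 5 else 15) (8 * i + 10))
    ?_ ?_ ?_ ?_ i
  · exact h.1
  · have e1 := P_step (ok := fun e => (e % 8 = 3 ∨ e % 8 = 7 ∨ e % 8 = 2) ∧ e ≠ 2) (d := fun e => if e % 4 = 3 then 5 else 15)
      (8 * 0 + 3) (0) (0) (by omega) (by split_ifs <;> omega)
      (by omega) (by intros; omega) (by split_ifs <;> omega)
      (by intro y h1 h2; split_ifs at h2 <;> omega)
    rw [e1, P_zero]; ring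
  · have e1 := P_step (ok := fun e => (e % 8 = 3 ∨ e % 8 = 7 ∨ e % 8 = 2) ∧ e ≠ 2) (d := fun e => if e % 4 = 3 then 5 else 15)
      (8 * 0 + 10) (8 * 0 + 7) (0) (by omega) (by split_ifs <;> omega)
      (by omega) (by intros; omega) (by split_ifs <;> omega)
      (by intro y h1 h2; split_ifs at h2 <;> omega)
    have e2 := P_step (ok := fun e => (e % 8 = 3 ∨ e % 8 = 7 ∨ e % 8 = 2) ∧ e ≠ 2) (d := fun e => if e % 4 = 3 then 5 else 15)
      (8 * 0 + 7) (8 * 0 + 3) (0) (by omega) (by split_ifs <;> omega)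
      (by omega) (by intros; omega) (by split_ifs <;> omega)
      (by intro y h1 h2; split_ifs at h2 <;> omega)
    rw [e1, e2, P_zero]; ring
  · intro i
    have e1 := P_step (ok := fun e => (e % 8 = 3 ∨ e % 8 = 7 ∨ e % 8 = 2) ∧ e ≠ 2) (d := fun e => if e % 4 = 3 then 5 else 15)
      (8 * (i + 1) + 3) (8 * i + 10) (8 * i + 3) (by omega) (by split_ifs <;> omega)
      (by omega) (by intros; omega) (by split_ifs <;> omega)
      (by intro y h1 h2; split_ifs at h2 <;> omega)
    rw [e1]; ring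
  · intro i
    have e1 := P_step (ok := fun e => (e % 8 = 3 ∨ e % 8 = 7 ∨ e % 8 = 2) ∧ e ≠ 2) (d := fun e => if e % 4 = 3 then 5 else 15)
      (8 * (i + 1) + 10) (8 * (i + 1) + 7) (8 * i + 3) (by omega) (by split_ifs <;> omega)
      (by omega) (by intros; omega) (by split_ifs <;> omega)
      (by intro y h1 h2; split_ifs at h2 <;> omega)
    have e2 := P_step (ok := fun e => (e % 8 = 3 ∨ e % 8 = 7 ∨ e % 8 = 2) ∧ e ≠ 2) (d := fun e => if e % 4 = 3 then 5 else 15)
      (8 * (i + 1) + 7) (8 * (i + 1) + 3) (8 * i + 10) (by omega) (by split_ifs <;> omega)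
      (by omega) (by intros; omega) (by split_ifs <;> omega)
      (by intro y h1 h2; split_ifs at h2 <;> omega)
    rw [e1, e2]; ring

lemma fam4_644 (n : ℕ) : cnt (fun e => e % 4 ≠ 0 ∧ e ≠ 1) (fun e => if e % 4 = 1 then 6 else 4) n n =
    cnt (fun e => e % 4 = 2 ∨ e % 4 = 3) (fun _ => 1) n n := by
  refine schur_bridge 2 3 4 (by norm_num) (fun e _ => by split_ifs <;> omega) Q4_23 ?_ n
  intro i
  refine ⟨4 * i + 2, 6 * i + 1, by omega, by omega, ?_⟩
  have h := schur_a (X ^ 2 : PowerSeries ℤ) (X ^ 3) (X ^ 4)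
    (fun i => P (fun e => e % 4 ≠ 0 ∧ e ≠ 1) (fun e => if e % 4 = 1 then 6 else 4) (4 * i + 2))
    (fun i => P (fun e => e % 4 ≠ 0 ∧ e ≠ 1) (fun e => if e % 4 = 1 then 6 else 4) (4 * i + 3))
    (fun i => P (fun e => e % 4 ≠ 0 ∧ e ≠ 1) (fun e => if e % 4 = 1 then 6 else 4) (4 * i + 5))
    ?_ ?_ ?_ ?_ ?_ ?_ i
  · exact h.1
  · have e1 := P_step (ok := fun e => e % 4 ≠ 0 ∧ e ≠ 1) (d := fun e => if e % 4 = 1 then 6 else 4)
      (4 * 0 + 2) (0) (0) (by omega) (by split_ifs <;> omega)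
      (by omega) (by intros; omega) (by split_ifs <;> omega)
      (by intro y h1 h2; split_ifs at h2 <;> omega)
    rw [e1, P_zero]; ring
  · have e1 := P_step (ok := fun e => e % 4 ≠ 0 ∧ e ≠ 1) (d := fun e => if e % 4 = 1 then 6 else 4)
      (4 * 0 + 3) (4 * 0 + 2) (0) (by omega) (by split_ifs <;> omega)
      (by omega) (by intros; omega) (by split_ifs <;> omega)
      (by intro y h1 h2; split_ifs at h2 <;> omega)
    rw [e1, P_zero]; ring
  · have e1 := P_step (ok := fun e => e % 4 ≠ 0 ∧ e ≠ 1) (d := fun e => if e % 4 = 1 then 6 else 4)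
      (4 * 0 + 5) (4 * 0 + 3) (0) (by omega) (by split_ifs <;> omega)
      (by omega) (by intros; omega) (by split_ifs <;> omega)
      (by intro y h1 h2; split_ifs at h2 <;> omega)
    rw [e1, P_zero]; ring
  · intro i
    have e1 := P_step (ok := fun e => e % 4 ≠ 0 ∧ e ≠ 1) (d := fun e => if e % 4 = 1 then 6 else 4)
      (4 * (i + 1) + 2) (4 * i + 5) (4 * i + 2) (by omega) (by split_ifs <;> omega)
      (by omega) (by intros; omega) (by split_ifs <;> omega)
      (by intro y h1 h2; split_ifs at h2 <;> omega)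
    rw [e1]; ring
  · intro i
    have e1 := P_step (ok := fun e => e % 4 ≠ 0 ∧ e ≠ 1) (d := fun e => if e % 4 = 1 then 6 else 4)
      (4 * (i + 1) + 3) (4 * (i + 1) + 2) (4 * i + 3) (by omega) (by split_ifs <;> omega)
      (by omega) (by intros; omega) (by split_ifs <;> omega)
      (by intro y h1 h2; split_ifs at h2 <;> omega)
    rw [e1]; ring
  · intro i
    have e1 := P_step (ok := fun e => e % 4 ≠ 0 ∧ e ≠ 1) (d := fun e => if e % 4 = 1 then 6 else 4)
      (4 * (i + 1) + 5) (4 * (i + 1) + 3) (4 * i + 3) (by omega) (by split_ifs <;> omega)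
      (by omega) (by intros; omega) (by split_ifs <;> omega)
      (by intro y h1 h2; split_ifs at h2 <;> omega)
    rw [e1]; ring

lemma fam4_742 (n : ℕ) : cnt (fun e => e % 4 ≠ 0 ∧ e ≠ 1) (fun e => if e % 4 = 1 then 7 else if e % 4 = 2 then 4 else 2) n n =
    cnt (fun e => e % 4 = 2 ∨ e % 4 = 3) (fun _ => 1) n n := by
  refine schur_bridge 2 3 4 (by norm_num) (fun e _ => by split_ifs <;> omega) Q4_23 ?_ n
  intro i
  refine ⟨4 * i + 2, 6 * i + 1, by omega, by omega, ?_⟩
  have h := schur_b (X ^ 2 : PowerSeries ℤ) (X ^ 3) (X ^ 4)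
    (fun i => P (fun e => e % 4 ≠ 0 ∧ e ≠ 1) (fun e => if e % 4 = 1 then 7 else if e % 4 = 2 then 4 else 2) (4 * i + 2))
    (fun i => P (fun e => e % 4 ≠ 0 ∧ e ≠ 1) (fun e => if e % 4 = 1 then 7 else if e % 4 = 2 then 4 else 2) (4 * i + 5))
    ?_ ?_ ?_ ?_ i
  · exact h.1
  · have e1 := P_step (ok := fun e => e % 4 ≠ 0 ∧ e ≠ 1) (d := fun e => if e % 4 = 1 then 7 else if e % 4 = 2 then 4 else 2)
      (4 * 0 + 2) (0) (0) (by omega) (by split_ifs <;> omega)
      (by omega) (by intros; omega) (by split_ifs <;> omega)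
      (by intro y h1 h2; split_ifs at h2 <;> omega)
    rw [e1, P_zero]; ring
  · have e1 := P_step (ok := fun e => e % 4 ≠ 0 ∧ e ≠ 1) (d := fun e => if e % 4 = 1 then 7 else if e % 4 = 2 then 4 else 2)
      (4 * 0 + 5) (4 * 0 + 3) (0) (by omega) (by split_ifs <;> omega)
      (by omega) (by intros; omega) (by split_ifs <;> omega)
      (by intro y h1 h2; split_ifs at h2 <;> omega)
    have e2 := P_step (ok := fun e => e % 4 ≠ 0 ∧ e ≠ 1) (d := fun e => if e % 4 = 1 then 7 else if e % 4 = 2 then 4 else 2)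
      (4 * 0 + 3) (4 * 0 + 2) (0) (by omega) (by split_ifs <;> omega)
      (by omega) (by intros; omega) (by split_ifs <;> omega)
      (by intro y h1 h2; split_ifs at h2 <;> omega)
    rw [e1, e2, P_zero]; ring
  · intro i
    have e1 := P_step (ok := fun e => e % 4 ≠ 0 ∧ e ≠ 1) (d := fun e => if e % 4 = 1 then 7 else if e % 4 = 2 then 4 else 2)
      (4 * (i + 1) + 2) (4 * i + 5) (4 * i + 2) (by omega) (by split_ifs <;> omega)
      (by omega) (by intros; omega) (by split_ifs <;> omega)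
      (by intro y h1 h2; split_ifs at h2 <;> omega)
    rw [e1]; ring
  · intro i
    have e1 := P_step (ok := fun e => e % 4 ≠ 0 ∧ e ≠ 1) (d := fun e => if e % 4 = 1 then 7 else if e % 4 = 2 then 4 else 2)
      (4 * (i + 1) + 5) (4 * (i + 1) + 3) (4 * i + 2) (by omega) (by split_ifs <;> omega)
      (by omega) (by intros; omega) (by split_ifs <;> omega)
      (by intro y h1 h2; split_ifs at h2 <;> omega)
    have e2 := P_step (ok := fun e => e % 4 ≠ 0 ∧ e ≠ 1) (d := fun e => if e % 4 = 1 then 7 else if e % 4 = 2 then 4 else 2)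
      (4 * (i + 1) + 3) (4 * (i + 1) + 2) (4 * i + 5) (by omega) (by split_ifs <;> omega)
      (by omega) (by intros; omega) (by split_ifs <;> omega)
      (by intro y h1 h2; split_ifs at h2 <;> omega)
    rw [e1, e2]; ring

/-- `G` for the parts `≡ 1 mod 4` -/
noncomputable def g41 (k : ℕ) : PowerSeries ℤ := G (X ^ 1) (X ^ (1 + 4)) (X ^ (1 + 2 * 4)) (X ^ (3 * 4)) k

lemma g41_zero : g41 0 = 1 := G_zero _ _ _ _
lemma g41_odd (j : ℕ) : g41 (2 * j + 1) = g41 (2 * j) + X ^ (4 * j + 1) * g41 (2 * j - 5) :=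
  Gp_odd X 1 4 j
lemma g41_even (j : ℕ) : g41 (2 * j + 2) = g41 (2 * j + 1) +
    (if j = 0 then 0 else X ^ (4 * j + 2 * 1)) * g41 (2 * j - 5) := Gp_even X 1 4 j

/-- `G` for the parts `≡ 3 mod 4` -/
noncomputable def g43 (k : ℕ) : PowerSeries ℤ := G (X ^ 3) (X ^ (3 + 4)) (X ^ (3 + 2 * 4)) (X ^ (3 * 4)) k

lemma g43_zero : g43 0 = 1 := G_zero _ _ _ _
lemma g43_odd (j : ℕ) : g43 (2 * j + 1) = g43 (2 * j) + X ^ (4 * j + 3) * g43 (2 * j - 5) :=
  Gp_odd X 3 4 j
lemma g43_even (j : ℕ) : g43 (2 * j + 2) = g43 (2 * j + 1) +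
    (if j = 0 then 0 else X ^ (4 * j + 2 * 3)) * g43 (2 * j - 5) := Gp_even X 3 4 j

lemma P4_1213 (j : ℕ) :
    P (fun e => (e % 4 = 1 ∨ e % 4 = 2) ∧ e ≠ 2) (fun e => if e % 4 = 1 then 12 else 13) (4 * j + 1) = g41 (2 * j + 1) ∧
    P (fun e => (e % 4 = 1 ∨ e % 4 = 2) ∧ e ≠ 2) (fun e => if e % 4 = 1 then 12 else 13) (4 * j + 2) = g41 (2 * j + 2) := by
  induction j using Nat.strong_induction_on with
  | _ j ih =>
    match j with
    | 0 =>
      have e1 := P_step (ok := fun e => (e % 4 = 1 ∨ e % 4 = 2) ∧ e ≠ 2) (d := fun e => if e % 4 = 1 then 12 else 13)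
        (1) (0) (0) (by omega) (by split_ifs <;> omega)
        (by omega) (by intros; omega) (by split_ifs <;> omega)
        (by intro y h1 h2; split_ifs at h2 <;> omega)

      have e2 : P (fun e => (e % 4 = 1 ∨ e % 4 = 2) ∧ e ≠ 2) (fun e => if e % 4 = 1 then 12 else 13) 2 = P (fun e => (e % 4 = 1 ∨ e % 4 = 2) ∧ e ≠ 2) (fun e => if e % 4 = 1 then 12 else 13) 1 :=
        P_const' (by norm_num) (by intros; omega)
      have o := g41_odd 0
      have ev := g41_even 0
      simp only [Nat.mul_zero, Nat.zero_sub, Nat.zero_add, g41_zero, if_true, zero_mul,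
        add_zero] at o ev ⊢
      rw [e2, e1, ev, o, P_zero]
      exact ⟨rfl, rfl⟩
    | j + 1 =>
      have t : P (fun e => (e % 4 = 1 ∨ e % 4 = 2) ∧ e ≠ 2) (fun e => if e % 4 = 1 then 12 else 13) (4 * j - 7) = g41 (2 * (j + 1) - 5) := by
        by_cases hj : 2 ≤ j
        · have := (ih (j - 2) (by omega)).1
          rw [show 4 * (j - 2) + 1 = 4 * j - 7 by omega,
            show 2 * (j - 2) + 1 = 2 * (j + 1) - 5 by omega] at this
          exact this
        · rw [show 4 * j - 7 = 0 by omega, show 2 * (j + 1) - 5 = 0 by omega, P_zero, g41_zero]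
      have ihj := (ih j (by omega)).2
      have e1 := P_step (ok := fun e => (e % 4 = 1 ∨ e % 4 = 2) ∧ e ≠ 2)
        (d := fun e => if e % 4 = 1 then 12 else 13) (4 * (j + 1) + 1) (4 * j + 2) (4 * j - 7)
        (by omega) (by split_ifs <;> omega) (by omega) (by intros; omega)
        (by split_ifs <;> omega) (by intro y h1 h2; split_ifs at h2 <;> omega)
      have e2 := P_step (ok := fun e => (e % 4 = 1 ∨ e % 4 = 2) ∧ e ≠ 2)
        (d := fun e => if e % 4 = 1 then 12 else 13) (4 * (j + 1) + 2) (4 * (j + 1) + 1) (4 * j - 7)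
        (by omega) (by split_ifs <;> omega) (by omega) (by intros; omega)
        (by split_ifs <;> omega) (by intro y h1 h2; split_ifs at h2 <;> omega)
      have o := g41_odd (j + 1)
      have ev := g41_even (j + 1)
      rw [if_neg (by omega)] at ev
      rw [e2, e1, ihj, t, ev, o, show 2 * (j + 1) = 2 * j + 2 by ring]
      exact ⟨rfl, rfl⟩

lemma fam4_1213 (n : ℕ) : cnt (fun e => (e % 4 = 1 ∨ e % 4 = 2) ∧ e ≠ 2) (fun e => if e % 4 = 1 then 12 else 13) n n =
    cnt (fun e => e % 4 = 1) (fun _ => 1) n n := by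
  refine goll_bridge 1 5 9 12 (by norm_num) (fun e _ => by split_ifs <;> omega) Q4_112 ?_ n
  intro i
  refine ⟨12 * i + 1, 6 * i + 1, by omega, by omega, ?_⟩
  have := (P4_1213 (3 * i)).1
  rw [show 4 * (3 * i) + 1 = 12 * i + 1 by ring, show 2 * (3 * i) + 1 = 6 * i + 1 by ring] at this
  exact this

lemma P4_1512 (j : ℕ) :
    P (fun e => (e % 4 = 3 ∨ e % 4 = 2) ∧ e ≠ 2 ∧ e ≠ 6) (fun e => if e % 4 = 3 then 12 else 15) (4 * j + 3) = g43 (2 * j + 1) ∧
    P (fun e => (e % 4 = 3 ∨ e % 4 = 2) ∧ e ≠ 2 ∧ e ≠ 6) (fun e => if e % 4 = 3 then 12 else 15) (4 * j + 6) = g43 (2 * j + 2) := by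
  induction j using Nat.strong_induction_on with
  | _ j ih =>
    match j with
    | 0 =>
      have e1 := P_step (ok := fun e => (e % 4 = 3 ∨ e % 4 = 2) ∧ e ≠ 2 ∧ e ≠ 6) (d := fun e => if e % 4 = 3 then 12 else 15)
        (3) (0) (0) (by omega) (by split_ifs <;> omega)
        (by omega) (by intros; omega) (by split_ifs <;> omega)
        (by intro y h1 h2; split_ifs at h2 <;> omega)

      have e2 : P (fun e => (e % 4 = 3 ∨ e % 4 = 2) ∧ e ≠ 2 ∧ e ≠ 6) (fun e => if e % 4 = 3 then 12 else 15) 6 = P (fun e => (e % 4 = 3 ∨ e % 4 = 2) ∧ e ≠ 2 ∧ e ≠ 6) (fun e => if e % 4 = 3 then 12 else 15) 3 :=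
        P_const' (by norm_num) (by intros; omega)
      have o := g43_odd 0
      have ev := g43_even 0
      simp only [Nat.mul_zero, Nat.zero_sub, Nat.zero_add, g43_zero, if_true, zero_mul,
        add_zero] at o ev ⊢
      rw [e2, e1, ev, o, P_zero]
      exact ⟨rfl, rfl⟩
    | j + 1 =>
      have t : P (fun e => (e % 4 = 3 ∨ e % 4 = 2) ∧ e ≠ 2 ∧ e ≠ 6) (fun e => if e % 4 = 3 then 12 else 15) (4 * j - 5) = g43 (2 * (j + 1) - 5) := by
        by_cases hj : 2 ≤ j
        · have := (ih (j - 2) (by omega)).1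
          rw [show 4 * (j - 2) + 3 = 4 * j - 5 by omega,
            show 2 * (j - 2) + 1 = 2 * (j + 1) - 5 by omega] at this
          exact this
        · rw [show 4 * j - 5 = 0 by omega, show 2 * (j + 1) - 5 = 0 by omega, P_zero, g43_zero]
      have ihj := (ih j (by omega)).2
      have e1 := P_step (ok := fun e => (e % 4 = 3 ∨ e % 4 = 2) ∧ e ≠ 2 ∧ e ≠ 6)
        (d := fun e => if e % 4 = 3 then 12 else 15) (4 * (j + 1) + 3) (4 * j + 6) (4 * j - 5)
        (by omega) (by split_ifs <;> omega) (by omega) (by intros; omega)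
        (by split_ifs <;> omega) (by intro y h1 h2; split_ifs at h2 <;> omega)
      have e2 := P_step (ok := fun e => (e % 4 = 3 ∨ e % 4 = 2) ∧ e ≠ 2 ∧ e ≠ 6)
        (d := fun e => if e % 4 = 3 then 12 else 15) (4 * (j + 1) + 6) (4 * (j + 1) + 3) (4 * j - 5)
        (by omega) (by split_ifs <;> omega) (by omega) (by intros; omega)
        (by split_ifs <;> omega) (by intro y h1 h2; split_ifs at h2 <;> omega)
      have o := g43_odd (j + 1)
      have ev := g43_even (j + 1)
      rw [if_neg (by omega)] at ev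
      rw [e2, e1, ihj, t, ev, o, show 2 * (j + 1) = 2 * j + 2 by ring]
      exact ⟨rfl, rfl⟩

lemma fam4_1512 (n : ℕ) : cnt (fun e => (e % 4 = 3 ∨ e % 4 = 2) ∧ e ≠ 2 ∧ e ≠ 6) (fun e => if e % 4 = 3 then 12 else 15) n n =
    cnt (fun e => e % 4 = 3) (fun _ => 1) n n := by
  refine goll_bridge 3 7 11 12 (by norm_num) (fun e _ => by split_ifs <;> omega) Q4_312 ?_ n
  intro i
  refine ⟨12 * i + 3, 6 * i + 1, by omega, by omega, ?_⟩
  have := (P4_1512 (3 * i)).1
  rw [show 4 * (3 * i) + 3 = 12 * i + 3 by ring, show 2 * (3 * i) + 1 = 6 * i + 1 by ring] at this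
  exact this

/-- gaps (9,14,15) with the extra part 15 -/
lemma P4_914 (j : ℕ) : P (fun e => ((e % 4 = 1 ∨ e % 4 = 2) ∧ e ≠ 2) ∨ e = 15) (fun e => if e % 4 = 1 then 9 else if e % 4 = 2 then 14 else 15) (4 * j) = g41 (2 * j) := by
  induction j using Nat.strong_induction_on with
  | _ j ih =>
    match j with
    | 0 => simp only [Nat.mul_zero]; rw [P_zero, g41_zero]
    | 1 =>
      have e1 := P_step (ok := fun e => ((e % 4 = 1 ∨ e % 4 = 2) ∧ e ≠ 2) ∨ e = 15)
        (d := fun e => if e % 4 = 1 then 9 else if e % 4 = 2 then 14 else 15) 1 0 0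
        (by norm_num) (by norm_num)
        (by norm_num) (by intros; omega) (by norm_num) (by norm_num; intros; omega)
      have e2 : P (fun e => ((e % 4 = 1 ∨ e % 4 = 2) ∧ e ≠ 2) ∨ e = 15) (fun e => if e % 4 = 1 then 9 else if e % 4 = 2 then 14 else 15) 4 = P (fun e => ((e % 4 = 1 ∨ e % 4 = 2) ∧ e ≠ 2) ∨ e = 15) (fun e => if e % 4 = 1 then 9 else if e % 4 = 2 then 14 else 15) 1 :=
        P_const' (by norm_num) (by intros; omega)
      have o := g41_odd 0
      have ev := g41_even 0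
      simp only [Nat.mul_zero, Nat.zero_sub, Nat.zero_add, g41_zero, if_true, zero_mul,
        add_zero, Nat.mul_one] at o ev ⊢
      rw [e2, e1, ev, o, P_zero]
    | j + 2 =>
      have i0 := ih (j + 1) (by omega)
      have i1 := ih (j + 1 - 2) (by omega)
      have i2 := ih (j + 1 - 3) (by omega)
      have e1 := P_step (ok := fun e => ((e % 4 = 1 ∨ e % 4 = 2) ∧ e ≠ 2) ∨ e = 15)
        (d := fun e => if e % 4 = 1 then 9 else if e % 4 = 2 then 14 else 15)
        (4 * (j + 1) + 1) (4 * (j + 1)) (4 * (j + 1 - 2))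
        (by omega) (by split_ifs <;> omega) (by omega) (by intros; omega)
        (by split_ifs <;> omega) (by intro y h1 h2; split_ifs at h2 <;> omega)
      have e2 := P_step (ok := fun e => ((e % 4 = 1 ∨ e % 4 = 2) ∧ e ≠ 2) ∨ e = 15)
        (d := fun e => if e % 4 = 1 then 9 else if e % 4 = 2 then 14 else 15)
        (4 * (j + 1) + 2) (4 * (j + 1) + 1) (4 * (j + 1 - 3))
        (by omega) (by split_ifs <;> omega) (by omega) (by intros; omega)
        (by split_ifs <;> omega) (by intro y h1 h2; split_ifs at h2 <;> omega)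
      have o := g41_odd (j + 1)
      have ev := g41_even (j + 1)
      rw [if_neg (by omega)] at ev
      by_cases hj : j = 2
      · subst hj
        have e3 := P_step (ok := fun e => ((e % 4 = 1 ∨ e % 4 = 2) ∧ e ≠ 2) ∨ e = 15)
          (d := fun e => if e % 4 = 1 then 9 else if e % 4 = 2 then 14 else 15)
          15 14 0 (by norm_num) (by norm_num)
          (by norm_num) (by intros; omega) (by norm_num) (by norm_num; intros; omega)
        have e4 : P (fun e => ((e % 4 = 1 ∨ e % 4 = 2) ∧ e ≠ 2) ∨ e = 15) (fun e => if e % 4 = 1 then 9 else if e % 4 = 2 then 14 else 15) 16 = P (fun e => ((e % 4 = 1 ∨ e % 4 = 2) ∧ e ≠ 2) ∨ e = 15) (fun e => if e % 4 = 1 then 9 else if e % 4 = 2 then 14 else 15) 15 :=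
          P_const' (by norm_num) (by intros; omega)
        have o0 := g41_odd 0
        have ev0 := g41_even 0
        norm_num at e1 e2 e3 e4 o ev i0 i1 i2 o0 ev0 ⊢
        rw [e4, e3, e2, e1, i0, i1, i2, ev, o, ev0, o0, g41_zero]
        ring
      · have e3 : P (fun e => ((e % 4 = 1 ∨ e % 4 = 2) ∧ e ≠ 2) ∨ e = 15) (fun e => if e % 4 = 1 then 9 else if e % 4 = 2 then 14 else 15) (4 * (j + 2)) = P (fun e => ((e % 4 = 1 ∨ e % 4 = 2) ∧ e ≠ 2) ∨ e = 15) (fun e => if e % 4 = 1 then 9 else if e % 4 = 2 then 14 else 15) (4 * (j + 1) + 2) :=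
          P_const' (by omega) (by intros; omega)
        rw [e3, e2, e1, i0, i1, i2, show 2 * (j + 2) = 2 * (j + 1) + 2 by ring, ev, o]
        by_cases hj3 : j ≤ 1
        · rw [show 2 * (j + 1 - 2) = 0 by omega, show 2 * (j + 1 - 3) = 0 by omega,
            show 2 * (j + 1) - 5 = 0 by omega]
        · obtain ⟨w, rfl⟩ : ∃ w, j = w + 3 := ⟨j - 3, by omega⟩
          rw [show w + 3 + 1 - 2 = w + 2 by omega, show w + 3 + 1 - 3 = w + 1 by omega,
            show 2 * (w + 3 + 1) - 5 = 2 * (w + 1) + 1 by omega,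
            show 2 * (w + 2) = 2 * (w + 1) + 2 by ring]
          have o' := g41_odd (w + 1)
          have ev' := g41_even (w + 1)
          rw [if_neg (by omega)] at ev'
          rw [ev', o']
          ring

lemma fam4_914 (n : ℕ) : cnt (fun e => ((e % 4 = 1 ∨ e % 4 = 2) ∧ e ≠ 2) ∨ e = 15) (fun e => if e % 4 = 1 then 9 else if e % 4 = 2 then 14 else 15) n n =
    cnt (fun e => e % 4 = 1) (fun _ => 1) n n := by
  refine goll_bridge 1 5 9 12 (by norm_num) (fun e _ => by split_ifs <;> omega) Q4_112 ?_ n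
  intro i
  refine ⟨12 * i, 6 * i, by omega, by omega, ?_⟩
  have := P4_914 (3 * i)
  rw [show 4 * (3 * i) = 12 * i by ring, show 2 * (3 * i) = 6 * i by ring] at this
  exact this

end PD687
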