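import Pool.Agent.TH687.PD.SearchN

namespace PD687

set_option maxRecDepth 100000

/-- the surviving boxes -/
def box4r12 : List (List (ℕ × ℕ)) :=
   [[(1, 3), (1, 1), (1, 0), (1, 0)],
    [(4, 4), (2, 3), (6, 6), (1, 0)],
    [(4, 4), (4, 4), (5, 5), (1, 0)]]

/-- the values `A(n)` -/
def vals4r12 : List ℕ :=
   [1, 1, 1, 1, 0, 1, 2, 2, 2, 2, 2, 3, 3, 3, 4, 5, 6, 6, 6, 7, 8, 9, 10, 11, 13, 14, 14, 16, 18, 20, 23, 24, 27, 30, 31, 34, 37, 41, 46, 49, 53, 58, 62, 67]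

theorem aRow4r12 : aRow (fun e => e % 4 == 1 || e % 4 == 2) 43 43 = vals4r12 := by decide +kernel

theorem search4r12 : searchN 4 (BB ^ (43 + 1)) (leafBox 4 box4r12) 43 (vals4r12).tail 0 BB [1] []
    (List.replicate 4 (1, 0)) = true := by decide +kernel

/-- the surviving boxes -/
def box4r13 : List (List (ℕ × ℕ)) :=
   [[(1, 2), (1, 0), (1, 2), (1, 0)],
    [(3, 4), (1, 0), (3, 3), (6, 7)],
    [(3, 4), (1, 0), (4, 4), (5, 5)],
    [(6, 6), (7, 7), (6, 6), (7, 7)]]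

/-- the values `A(n)` -/
def vals4r13 : List ℕ :=
   [1, 1, 0, 1, 1, 1, 1, 1, 2, 2, 2, 2, 3, 3, 3, 4, 5, 5, 5, 6, 7, 8, 8, 9, 11, 12, 12, 14, 16, 17, 18, 20, 23, 25, 26, 29, 33, 35, 37, 41, 46, 49, 52, 57, 63, 68]

theorem aRow4r13 : aRow (fun e => e % 2 == 1) 45 45 = vals4r13 := by decide +kernel

theorem search4r13 : searchN 4 (BB ^ (45 + 1)) (leafBox 4 box4r13) 45 (vals4r13).tail 0 BB [1] []
    (List.replicate 4 (1, 0)) = true := by decide +kernel

/-- the surviving boxes -/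
def box4r23 : List (List (ℕ × ℕ)) :=
   [[(1, 0), (1, 3), (1, 1), (1, 0)],
    [(7, 7), (4, 4), (2, 2), (1, 0)],
    [(5, 6), (4, 4), (3, 4), (1, 0)]]

/-- the values `A(n)` -/
def vals4r23 : List ℕ :=
   [1, 0, 1, 1, 0, 1, 1, 1, 1, 2, 2, 2, 2, 3, 2, 3, 4, 4, 5, 5, 6, 7, 6, 8, 9, 9, 11, 12, 13, 14, 15, 17, 19, 20, 23, 25, 27, 29, 31, 35, 37, 40, 46, 48, 52, 57, 60, 66]

theorem aRow4r23 : aRow (fun e => e % 4 == 2 || e % 4 == 3) 47 47 = vals4r23 := by decide +kernel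

theorem search4r23 : searchN 4 (BB ^ (47 + 1)) (leafBox 4 box4r23) 47 (vals4r23).tail 0 BB [1] []
    (List.replicate 4 (1, 0)) = true := by decide +kernel

/-- the surviving boxes -/
def box4r123 : List (List (ℕ × ℕ)) :=
   [[(1, 2), (1, 1), (1, 1), (1, 0)]]

/-- the values `A(n)` -/
def vals4r123 : List ℕ :=
   [1, 1, 1, 2, 1, 2, 3, 3, 4, 5, 6, 7, 8, 9, 11]

theorem aRow4r123 : aRow (fun e => e % 4 != 0) 14 14 = vals4r123 := by decide +kernel

theorem search4r123 : searchN 4 (BB ^ (14 + 1)) (leafBox 4 box4r123) 14 (vals4r123).tail 0 BB [1] []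
    (List.replicate 4 (1, 0)) = true := by decide +kernel

/-- the surviving boxes -/
def box4r14 : List (List (ℕ × ℕ)) :=
   [[(1, 1), (1, 0), (1, 0), (1, 3)]]

/-- the values `A(n)` -/
def vals4r14 : List ℕ :=
   [1, 1, 0, 0, 1, 2, 1, 0, 1, 3]

theorem aRow4r14 : aRow (fun e => e % 4 == 0 || e % 4 == 1) 9 9 = vals4r14 := by decide +kernel

theorem search4r14 : searchN 4 (BB ^ (9 + 1)) (leafBox 4 box4r14) 9 (vals4r14).tail 0 BB [1] []
    (List.replicate 4 (1, 0)) = true := by decide +kernel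

/-- the surviving boxes -/
def box4r34 : List (List (ℕ × ℕ)) :=
   [[(1, 0), (1, 0), (1, 3), (1, 1)]]

/-- the values `A(n)` -/
def vals4r34 : List ℕ :=
   [1, 0, 0, 1, 1, 0, 0, 2, 1, 0, 1, 3]

theorem aRow4r34 : aRow (fun e => e % 4 == 0 || e % 4 == 3) 11 11 = vals4r34 := by decide +kernel

theorem search4r34 : searchN 4 (BB ^ (11 + 1)) (leafBox 4 box4r34) 11 (vals4r34).tail 0 BB [1] []
    (List.replicate 4 (1, 0)) = true := by decide +kernel

/-- the surviving boxes -/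
def box4r124 : List (List (ℕ × ℕ)) :=
   [[(1, 1), (1, 1), (1, 0), (1, 2)],
    [(4, 4), (1, 1), (4, 4), (1, 1)],
    [(3, 3), (2, 2), (3, 3), (2, 2)]]

/-- the values `A(n)` -/
def vals4r124 : List ℕ :=
   [1, 1, 1, 1, 1, 2, 3, 3, 3, 4, 5, 6, 7, 8, 10, 12, 13, 15, 18, 21, 24, 27, 31, 36, 41, 46, 52, 60, 68, 76, 86, 97, 109]

theorem aRow4r124 : aRow (fun e => e % 4 != 3) 32 32 = vals4r124 := by decide +kernel

theorem search4r124 : searchN 4 (BB ^ (32 + 1)) (leafBox 4 box4r124) 32 (vals4r124).tail 0 BB [1] []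
    (List.replicate 4 (1, 0)) = true := by decide +kernel

/-- the surviving boxes -/
def box4r134 : List (List (ℕ × ℕ)) :=
   [[(1, 1), (1, 0), (1, 2), (1, 1)]]

/-- the values `A(n)` -/
def vals4r134 : List ℕ :=
   [1, 1, 0, 1, 2, 2, 1, 2, 4, 4]

theorem aRow4r134 : aRow (fun e => e % 4 != 2) 9 9 = vals4r134 := by decide +kernel

theorem search4r134 : searchN 4 (BB ^ (9 + 1)) (leafBox 4 box4r134) 9 (vals4r134).tail 0 BB [1] []
    (List.replicate 4 (1, 0)) = true := by decide +kernel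

/-- the surviving boxes -/
def box4r234 : List (List (ℕ × ℕ)) :=
   [[(1, 0), (1, 2), (1, 1), (1, 1)],
    [(4, 4), (1, 1), (4, 4), (1, 1)],
    [(3, 3), (2, 2), (3, 3), (2, 2)]]

/-- the values `A(n)` -/
def vals4r234 : List ℕ :=
   [1, 0, 1, 1, 1, 1, 2, 2, 2, 3, 4, 4, 5, 6, 7, 8, 9, 11, 13, 14, 17, 20, 22]

theorem aRow4r234 : aRow (fun e => e % 4 != 1) 22 22 = vals4r234 := by decide +kernel

theorem search4r234 : searchN 4 (BB ^ (22 + 1)) (leafBox 4 box4r234) 22 (vals4r234).tail 0 BB [1] []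
    (List.replicate 4 (1, 0)) = true := by decide +kernel

/-- the surviving boxes -/
def box4all : List (List (ℕ × ℕ)) :=
   [[(1, 1), (1, 1), (1, 1), (1, 1)]]

/-- the values `A(n)` -/
def vals4all : List ℕ :=
   [1, 1, 1, 2, 2, 3, 4, 5, 6, 8]

theorem aRow4all : aRow (fun _ => true) 9 9 = vals4all := by decide +kernel

theorem search4all : searchN 4 (BB ^ (9 + 1)) (leafBox 4 box4all) 9 (vals4all).tail 0 BB [1] []
    (List.replicate 4 (1, 0)) = true := by decide +kernel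

end PD687
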