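import Pool.Agent.TH687.PD.SearchN

namespace PD687

set_option maxRecDepth 100000

/-- the surviving boxes -/
def box4r1 : List (List (ℕ × ℕ)) :=
   [[(1, 4), (1, 0), (1, 0), (1, 0)],
    [(5, 7), (10, 13), (1, 0), (1, 0)],
    [(8, 8), (9, 9), (1, 0), (1, 0)],
    [(12, 12), (13, 13), (1, 0), (1, 0)],
    [(9, 10), (14, 15), (15, 0), (1, 0)]]

/-- the values `A(n)` -/
def vals4r1 : List ℕ :=
   [1, 1, 0, 0, 0, 1, 1, 0, 0, 1, 1, 0, 0, 1, 2, 1, 0, 1, 2, 1, 0, 1, 3, 2, 0, 1, 3, 3, 1, 1, 4, 4, 1, 1, 4, 5, 2, 1, 5, 7, 3, 1, 5, 8, 5, 2, 6, 10, 6, 2, 6, 12, 9, 3, 7, 14, 11, 4, 7, 16, 15, 6, 8, 19, 18, 8, 9, 21, 23, 11, 10, 24, 27, 14, 11, 27, 34, 19, 13, 30, 39, 24, 15, 33, 47, 31, 18, 37, 54, 38, 22, 41, 64, 48]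

theorem aRow4r1 : aRow (fun e => e % 4 == 1) 93 93 = vals4r1 := by decide +kernel

theorem search4r1 : searchN 4 (BB ^ (93 + 1)) (leafBox 4 box4r1) 93 (vals4r1).tail 0 BB [1] []
    (List.replicate 4 (1, 0)) = true := by decide +kernel

end PD687
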