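import Pool.Agent.TH687.PD.SearchN

namespace PD687

set_option maxRecDepth 100000

/-- the surviving boxes -/
def box4r3 : List (List (ℕ × ℕ)) :=
   [[(1, 0), (1, 0), (1, 4), (1, 0)],
    [(1, 0), (12, 15), (5, 5), (1, 0)],
    [(1, 0), (9, 11), (6, 8), (1, 0)],
    [(1, 0), (13, 15), (10, 12), (1, 0)]]

/-- the values `A(n)` -/
def vals4r3 : List ℕ :=
   [1, 0, 0, 1, 0, 0, 0, 1, 0, 0, 1, 1, 0, 0, 1, 1, 0, 0, 2, 1, 0, 1, 2, 1, 0, 1, 3, 1, 0, 2, 3, 1, 0, 3, 4, 1, 1, 4, 4, 1, 1, 5, 5, 1, 2, 7, 5, 1, 3, 8, 6, 1, 5, 10, 6, 2, 6, 12, 7, 2, 9, 14, 7, 3, 11, 16, 8, 4, 15, 19, 8, 6, 18, 21, 9, 8, 23, 24, 10, 11, 27, 27, 11, 14, 34, 30, 12, 19, 39, 33]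

theorem aRow4r3 : aRow (fun e => e % 4 == 3) 89 89 = vals4r3 := by decide +kernel

theorem search4r3 : searchN 4 (BB ^ (89 + 1)) (leafBox 4 box4r3) 89 (vals4r3).tail 0 BB [1] []
    (List.replicate 4 (1, 0)) = true := by decide +kernel

end PD687
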