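import Pool.Agent.TH687.PD.Classify3
import Pool.Agent.TH687.PD.Fam4
import Pool.Agent.TH687.PD.SN4
import Pool.Agent.TH687.PD.SN4A
import Pool.Agent.TH687.PD.SN4B

namespace PD687

open Finset PowerSeries

lemma bcls4 (b : ℕ → ℕ) (x : ℕ) :
    b (cls 4 x) = if x % 4 = 1 then b 1 else if x % 4 = 2 then b 2 else if x % 4 = 3 then b 3
      else b 4 := by
  unfold cls
  have h : x % 4 = 0 ∨ x % 4 = 1 ∨ x % 4 = 2 ∨ x % 4 = 3 := by omega
  rcases h with h | h | h | h <;> simp [h]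

lemma res4 (R : Finset ℕ) : R.image (· % 4) = ∅ ∨ R.image (· % 4) = {0} ∨
    R.image (· % 4) = {2} ∨ R.image (· % 4) = {0, 2} ∨ R.image (· % 4) = {1} ∨
    R.image (· % 4) = {3} ∨ R.image (· % 4) = {1, 2} ∨ R.image (· % 4) = {1, 3} ∨
    R.image (· % 4) = {2, 3} ∨ R.image (· % 4) = {1, 2, 3} ∨ R.image (· % 4) = {0, 1} ∨
    R.image (· % 4) = {0, 3} ∨ R.image (· % 4) = {0, 1, 2} ∨ R.image (· % 4) = {0, 1, 3} ∨
    R.image (· % 4) = {0, 2, 3} ∨ R.image (· % 4) = {0, 1, 2, 3} := by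
  have h : R.image (· % 4) ∈ (Finset.range 4).powerset := by
    rw [Finset.mem_powerset]
    intro x hx
    rw [Finset.mem_image] at hx
    obtain ⟨a, _, rfl⟩ := hx
    rw [Finset.mem_range]; exact Nat.mod_lt _ (by norm_num)
  rw [show (Finset.range 4).powerset = {∅, {0}, {2}, {0, 2}, {1}, {3}, {1, 2}, {1, 3}, {2, 3},
    {1, 2, 3}, {0, 1}, {0, 3}, {0, 1, 2}, {0, 1, 3}, {0, 2, 3}, {0, 1, 2, 3}} by decide] at h
  simpa using h

/-! ### the finite solutions -/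

lemma suff13 (R : Finset ℕ) (b : ℕ → ℕ) (hT : R.image (· % 4) = {1, 3}) (h1 : b 1 = 6)
    (h2 : b 2 = 7) (h3 : b 3 = 6) (h4 : b 4 = 7) (n : ℕ) : A R 4 n = B0 b 4 {2} n := by
  rw [A_congr (R' := {1}) (M' := 2) (fun e => by
    rw [mem_res, mem_res, hT]; simp; omega) n, modTwo n]
  apply B0_congr
  intro e
  rw [gaps2, bcls4 b, h1, h2, h3, h4]
  split_ifs <;> first | rfl | omega

lemma cls4_mem24 (e : ℕ) : cls 4 e ∈ ({2, 4} : Finset ℕ) ↔ e % 2 = 0 := by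
  unfold cls
  have h : e % 4 = 0 ∨ e % 4 = 1 ∨ e % 4 = 2 ∨ e % 4 = 3 := by omega
  rcases h with h | h | h | h <;> simp [h] <;> omega

lemma switch3232 (C : Finset ℕ) (hC : C = ∅ ∨ C = {1}) (n : ℕ) :
    B0 (gaps [3, 2, 3, 2]) 4 C n = B0 (gaps [4, 1, 4, 1]) 4 (swC 4 2 {2, 4} C) n := by
  rw [B0_switch (b := gaps [3, 2, 3, 2]) (M := 4) (g := 2) (I := {2, 4}) (C := C) (by norm_num) _
      (by norm_num)]
  · apply B0_congr
    intro e
    obtain ⟨hc1, hc2⟩ := cls_le (M := 4) (by norm_num) e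
    generalize cls 4 e = j at hc1 hc2
    interval_cases j <;> decide
  · intro e h
    rw [cls4_mem24] at h ⊢; omega
  · intro e
    rw [cls4_mem24, cls4_mem24]; omega
  · intro e h
    rw [cls4_mem24] at h
    rw [gaps4, gaps4]
    constructor <;> split_ifs <;> omega
  · intro e hh1 hh2 _ _
    rw [cls4_mem24] at hh1 hh2; omega
  · intro e he h
    rw [cls4_mem24] at h
    rcases hC with rfl | rfl
    · simp
    · simp only [Finset.mem_singleton]; omega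
  · intro j hj1 hj2
    interval_cases j <;> simp [gaps]

lemma suff012a (R : Finset ℕ) (b : ℕ → ℕ) (hT : R.image (· % 4) = {0, 1, 2}) (h1 : b 1 = 4)
    (h2 : b 2 = 1) (h3 : b 3 = 4) (h4 : b 4 = 1) (n : ℕ) : A R 4 n = B0 b 4 {3} n := by
  rw [A_congr (R' := {1, 2, 4}) (M' := 4) (fun e => by
    rw [mem_res, mem_res, hT, show ({1, 2, 4} : Finset ℕ).image (· % 4) = {0, 1, 2} by decide]) n,
    modFour_one n]
  apply B0_congr
  intro e
  rw [gaps4, bcls4 b, h1, h2, h3, h4]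
  split_ifs <;> first | rfl | omega

lemma suff012b (R : Finset ℕ) (b : ℕ → ℕ) (hT : R.image (· % 4) = {0, 1, 2}) (h1 : b 1 = 3)
    (h2 : b 2 = 2) (h3 : b 3 = 3) (h4 : b 4 = 2) (n : ℕ) : A R 4 n = B0 b 4 ∅ n := by
  rw [A_congr (R' := {1, 2, 4}) (M' := 4) (fun e => by
    rw [mem_res, mem_res, hT, show ({1, 2, 4} : Finset ℕ).image (· % 4) = {0, 1, 2} by decide]) n,
    modFour_one n, show ({3} : Finset ℕ) = swC 4 2 {2, 4} ∅ by decide,
    ← switch3232 ∅ (Or.inl rfl) n]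
  apply B0_congr
  intro e
  rw [gaps4, bcls4 b, h1, h2, h3, h4]
  split_ifs <;> first | rfl | omega

lemma suff023a (R : Finset ℕ) (b : ℕ → ℕ) (hT : R.image (· % 4) = {0, 2, 3}) (h1 : b 1 = 4)
    (h2 : b 2 = 1) (h3 : b 3 = 4) (h4 : b 4 = 1) (n : ℕ) : A R 4 n = B0 b 4 {1} n := by
  rw [A_congr (R' := {2, 3, 4}) (M' := 4) (fun e => by
    rw [mem_res, mem_res, hT, show ({2, 3, 4} : Finset ℕ).image (· % 4) = {0, 2, 3} by decide]) n,
    modFour_two n]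
  apply B0_congr
  intro e
  rw [gaps4, bcls4 b, h1, h2, h3, h4]
  split_ifs <;> first | rfl | omega

lemma suff023b (R : Finset ℕ) (b : ℕ → ℕ) (hT : R.image (· % 4) = {0, 2, 3}) (h1 : b 1 = 3)
    (h2 : b 2 = 2) (h3 : b 3 = 3) (h4 : b 4 = 2) (n : ℕ) : A R 4 n = B0 b 4 {1} n := by
  rw [A_congr (R' := {2, 3, 4}) (M' := 4) (fun e => by
    rw [mem_res, mem_res, hT, show ({2, 3, 4} : Finset ℕ).image (· % 4) = {0, 2, 3} by decide]) n,
    modFour_two n]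
  conv_lhs => rw [show ({1} : Finset ℕ) = swC 4 2 {2, 4} {1} by decide]
  rw [← switch3232 {1} (Or.inr rfl) n]
  apply B0_congr
  intro e
  rw [gaps4, bcls4 b, h1, h2, h3, h4]
  split_ifs <;> first | rfl | omega

theorem classify4 (R : Finset ℕ) (b : ℕ → ℕ) (C : Finset ℕ) :
    IsSolution R b 4 C ↔
      (R.image (· % 4) = {0, 1, 2, 3} ∧ b 1 = 1 ∧ b 2 = 1 ∧ b 3 = 1 ∧ b 4 = 1 ∧ C = ∅) ∨
      (R.image (· % 4) = {1, 3} ∧ b 1 = 6 ∧ b 2 = 7 ∧ b 3 = 6 ∧ b 4 = 7 ∧ C = {2}) ∨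
      (R.image (· % 4) = {0, 1, 2} ∧ b 1 = 3 ∧ b 2 = 2 ∧ b 3 = 3 ∧ b 4 = 2 ∧ C = ∅) ∨
      (R.image (· % 4) = {0, 1, 2} ∧ b 1 = 4 ∧ b 2 = 1 ∧ b 3 = 4 ∧ b 4 = 1 ∧ C = {3}) ∨
      (R.image (· % 4) = {0, 2, 3} ∧ b 1 = 3 ∧ b 2 = 2 ∧ b 3 = 3 ∧ b 4 = 2 ∧ C = {1}) ∨
      (R.image (· % 4) = {0, 2, 3} ∧ b 1 = 4 ∧ b 2 = 1 ∧ b 3 = 4 ∧ b 4 = 1 ∧ C = {1}) := by
  have hM : (1 : ℕ) ≤ 4 := by norm_num
  constructor
  · rintro ⟨hb, hC, h⟩
    have hb1 := hb 1 (by norm_num) (by norm_num)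
    have hb2 := hb 2 (by norm_num) (by norm_num)
    have hb3 := hb 3 (by norm_num) (by norm_num)
    have hb4 := hb 4 (by norm_num) (by norm_num)
    rcases res4 R with hT | hT | hT | hT | hT | hT | hT | hT | hT | hT | hT | hT | hT | hT | hT | hT
    · exact (absurd_of_dvd hM hb h 2 (by norm_num) (by
        intro e he; rw [mem_res, hT] at he; simp at he)).elim
    · exact (absurd_of_dvd hM hb h 2 (by norm_num) (by
        intro e he; rw [mem_res, hT] at he; simp at he; omega)).elim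
    · exact (absurd_of_dvd hM hb h 2 (by norm_num) (by
        intro e he; rw [mem_res, hT] at he; simp at he; omega)).elim
    · exact (absurd_of_dvd hM hb h 2 (by norm_num) (by
        intro e he; rw [mem_res, hT] at he; simp at he; omega)).elim
    · have hr : ∀ e, (∃ a ∈ R, e ≡ a [MOD 4]) ↔ (fun e => e % 4 == 1) e = true := by
        intro e; rw [mem_res, hT]; simp <;> omega
      have hr' : ∀ e, (∃ a ∈ R, e ≡ a [MOD 4]) ↔ (e % 4 = 1) := by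
        intro e; rw [mem_res, hT]; simp <;> omega
      obtain ⟨box, hbox, hj⟩ := searchN_root (ok := fun e => e ∉ C) (M := 4) hM
        (hb_cls hM hb) 93 (by norm_num) _ (hAt_of hM hb h _ hr 93 _ aRow4r1) box4r1 search4r1
      unfold box4r1 at hbox
      simp only [List.mem_cons, List.not_mem_nil, or_false] at hbox
      rcases hbox with rfl | rfl | rfl | rfl | rfl
      · have q1 : 1 ≤ b 1 ∧ (4 = 0 ∨ b 1 ≤ 4) := hj 0 (by norm_num)
        have q2 : 1 ≤ b 2 ∧ (0 = 0 ∨ b 2 ≤ 0) := hj 1 (by norm_num)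
        have q3 : 1 ≤ b 3 ∧ (0 = 0 ∨ b 3 ≤ 0) := hj 2 (by norm_num)
        have q4 : 1 ≤ b 4 ∧ (0 = 0 ∨ b 4 ≤ 0) := hj 3 (by norm_num)
        exact (absurd_of_deg hM hb h (fun e => e % 4 = 1) hr' (by
          intro x y hx hy _ _ hxy; rw [bcls4 b]; split_ifs <;> omega)
          (fun m => ⟨4 * m + 4, by omega, by omega⟩)).elim
      · have q1 : 5 ≤ b 1 ∧ (7 = 0 ∨ b 1 ≤ 7) := hj 0 (by norm_num)
        have q2 : 10 ≤ b 2 ∧ (13 = 0 ∨ b 2 ≤ 13) := hj 1 (by norm_num)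
        have q3 : 1 ≤ b 3 ∧ (0 = 0 ∨ b 3 ≤ 0) := hj 2 (by norm_num)
        have q4 : 1 ≤ b 4 ∧ (0 = 0 ∨ b 4 ≤ 0) := hj 3 (by norm_num)
        exact (absurd_of_fam hM hb h (fun e => e % 4 = 1)
          (fun e => e % 8 = 1 ∨ e % 8 = 5 ∨ e % 8 = 6)
          (fun e => if e % 4 = 1 then 5 else 13) hr' fam4_513
          (fun e _ => by split_ifs <;> omega)
          (by intro x y hx hy _ _; rw [bcls4 b]; split_ifs <;> omega)
          (fun m => ⟨8 * m + 8, by omega, by omega⟩)).elim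
      · have q1 : 8 ≤ b 1 ∧ (8 = 0 ∨ b 1 ≤ 8) := hj 0 (by norm_num)
        have q2 : 9 ≤ b 2 ∧ (9 = 0 ∨ b 2 ≤ 9) := hj 1 (by norm_num)
        have q3 : 1 ≤ b 3 ∧ (0 = 0 ∨ b 3 ≤ 0) := hj 2 (by norm_num)
        have q4 : 1 ≤ b 4 ∧ (0 = 0 ∨ b 4 ≤ 0) := hj 3 (by norm_num)
        exact (absurd_of_fam hM hb h (fun e => e % 4 = 1)
          (fun e => e % 8 = 1 ∨ e % 8 = 5 ∨ e % 8 = 6)
          (fun e => if e % 4 = 1 then 8 else 9) hr' fam4_89
          (fun e _ => by split_ifs <;> omega)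
          (by intro x y hx hy _ _; rw [bcls4 b]; split_ifs <;> omega)
          (fun m => ⟨8 * m + 8, by omega, by omega⟩)).elim
      · have q1 : 12 ≤ b 1 ∧ (12 = 0 ∨ b 1 ≤ 12) := hj 0 (by norm_num)
        have q2 : 13 ≤ b 2 ∧ (13 = 0 ∨ b 2 ≤ 13) := hj 1 (by norm_num)
        have q3 : 1 ≤ b 3 ∧ (0 = 0 ∨ b 3 ≤ 0) := hj 2 (by norm_num)
        have q4 : 1 ≤ b 4 ∧ (0 = 0 ∨ b 4 ≤ 0) := hj 3 (by norm_num)
        exact (absurd_of_fam hM hb h (fun e => e % 4 = 1)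
          (fun e => (e % 4 = 1 ∨ e % 4 = 2) ∧ e ≠ 2)
          (fun e => if e % 4 = 1 then 12 else 13) hr' fam4_1213
          (fun e _ => by split_ifs <;> omega)
          (by intro x y hx hy _ _; rw [bcls4 b]; split_ifs <;> omega)
          (fun m => ⟨4 * m + 4, by omega, by omega⟩)).elim
      · have q1 : 9 ≤ b 1 ∧ (10 = 0 ∨ b 1 ≤ 10) := hj 0 (by norm_num)
        have q2 : 14 ≤ b 2 ∧ (15 = 0 ∨ b 2 ≤ 15) := hj 1 (by norm_num)
        have q3 : 15 ≤ b 3 ∧ (0 = 0 ∨ b 3 ≤ 0) := hj 2 (by norm_num)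
        have q4 : 1 ≤ b 4 ∧ (0 = 0 ∨ b 4 ≤ 0) := hj 3 (by norm_num)
        exact (absurd_of_fam hM hb h (fun e => e % 4 = 1)
          (fun e => ((e % 4 = 1 ∨ e % 4 = 2) ∧ e ≠ 2) ∨ e = 15)
          (fun e => if e % 4 = 1 then 9 else if e % 4 = 2 then 14 else 15) hr' fam4_914
          (fun e _ => by split_ifs <;> omega)
          (by intro x y hx hy _ _; rw [bcls4 b]; split_ifs <;> omega)
          (fun m => ⟨4 * m + 4, by omega, by omega⟩)).elim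
    · have hr : ∀ e, (∃ a ∈ R, e ≡ a [MOD 4]) ↔ (fun e => e % 4 == 3) e = true := by
        intro e; rw [mem_res, hT]; simp <;> omega
      have hr' : ∀ e, (∃ a ∈ R, e ≡ a [MOD 4]) ↔ (e % 4 = 3) := by
        intro e; rw [mem_res, hT]; simp <;> omega
      obtain ⟨box, hbox, hj⟩ := searchN_root (ok := fun e => e ∉ C) (M := 4) hM
        (hb_cls hM hb) 89 (by norm_num) _ (hAt_of hM hb h _ hr 89 _ aRow4r3) box4r3 search4r3
      unfold box4r3 at hbox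
      simp only [List.mem_cons, List.not_mem_nil, or_false] at hbox
      rcases hbox with rfl | rfl | rfl | rfl
      · have q1 : 1 ≤ b 1 ∧ (0 = 0 ∨ b 1 ≤ 0) := hj 0 (by norm_num)
        have q2 : 1 ≤ b 2 ∧ (0 = 0 ∨ b 2 ≤ 0) := hj 1 (by norm_num)
        have q3 : 1 ≤ b 3 ∧ (4 = 0 ∨ b 3 ≤ 4) := hj 2 (by norm_num)
        have q4 : 1 ≤ b 4 ∧ (0 = 0 ∨ b 4 ≤ 0) := hj 3 (by norm_num)
        exact (absurd_of_deg hM hb h (fun e => e % 4 = 3) hr' (by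
          intro x y hx hy _ _ hxy; rw [bcls4 b]; split_ifs <;> omega)
          (fun m => ⟨4 * m + 4, by omega, by omega⟩)).elim
      · have q1 : 1 ≤ b 1 ∧ (0 = 0 ∨ b 1 ≤ 0) := hj 0 (by norm_num)
        have q2 : 12 ≤ b 2 ∧ (15 = 0 ∨ b 2 ≤ 15) := hj 1 (by norm_num)
        have q3 : 5 ≤ b 3 ∧ (5 = 0 ∨ b 3 ≤ 5) := hj 2 (by norm_num)
        have q4 : 1 ≤ b 4 ∧ (0 = 0 ∨ b 4 ≤ 0) := hj 3 (by norm_num)
        exact (absurd_of_fam hM hb h (fun e => e % 4 = 3)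
          (fun e => (e % 8 = 3 ∨ e % 8 = 7 ∨ e % 8 = 2) ∧ e ≠ 2)
          (fun e => if e % 4 = 3 then 5 else 15) hr' fam4_155
          (fun e _ => by split_ifs <;> omega)
          (by intro x y hx hy _ _; rw [bcls4 b]; split_ifs <;> omega)
          (fun m => ⟨8 * m + 8, by omega, by omega⟩)).elim
      · have q1 : 1 ≤ b 1 ∧ (0 = 0 ∨ b 1 ≤ 0) := hj 0 (by norm_num)
        have q2 : 9 ≤ b 2 ∧ (11 = 0 ∨ b 2 ≤ 11) := hj 1 (by norm_num)
        have q3 : 6 ≤ b 3 ∧ (8 = 0 ∨ b 3 ≤ 8) := hj 2 (by norm_num)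
        have q4 : 1 ≤ b 4 ∧ (0 = 0 ∨ b 4 ≤ 0) := hj 3 (by norm_num)
        exact (absurd_of_fam hM hb h (fun e => e % 4 = 3)
          (fun e => (e % 8 = 3 ∨ e % 8 = 7 ∨ e % 8 = 2) ∧ e ≠ 2)
          (fun e => if e % 4 = 3 then 8 else 11) hr' fam4_118
          (fun e _ => by split_ifs <;> omega)
          (by intro x y hx hy _ _; rw [bcls4 b]; split_ifs <;> omega)
          (fun m => ⟨8 * m + 8, by omega, by omega⟩)).elim
      · have q1 : 1 ≤ b 1 ∧ (0 = 0 ∨ b 1 ≤ 0) := hj 0 (by norm_num)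
        have q2 : 13 ≤ b 2 ∧ (15 = 0 ∨ b 2 ≤ 15) := hj 1 (by norm_num)
        have q3 : 10 ≤ b 3 ∧ (12 = 0 ∨ b 3 ≤ 12) := hj 2 (by norm_num)
        have q4 : 1 ≤ b 4 ∧ (0 = 0 ∨ b 4 ≤ 0) := hj 3 (by norm_num)
        exact (absurd_of_fam hM hb h (fun e => e % 4 = 3)
          (fun e => (e % 4 = 3 ∨ e % 4 = 2) ∧ e ≠ 2 ∧ e ≠ 6)
          (fun e => if e % 4 = 3 then 12 else 15) hr' fam4_1512
          (fun e _ => by split_ifs <;> omega)
          (by intro x y hx hy _ _; rw [bcls4 b]; split_ifs <;> omega)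
          (fun m => ⟨4 * m + 4, by omega, by omega⟩)).elim
    · have hr : ∀ e, (∃ a ∈ R, e ≡ a [MOD 4]) ↔ (fun e => e % 4 == 1 || e % 4 == 2) e = true := by
        intro e; rw [mem_res, hT]; simp <;> omega
      have hr' : ∀ e, (∃ a ∈ R, e ≡ a [MOD 4]) ↔ (e % 4 = 1 ∨ e % 4 = 2) := by
        intro e; rw [mem_res, hT]; simp <;> omega
      obtain ⟨box, hbox, hj⟩ := searchN_root (ok := fun e => e ∉ C) (M := 4) hM
        (hb_cls hM hb) 43 (by norm_num) _ (hAt_of hM hb h _ hr 43 _ aRow4r12) box4r12 search4r12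
      unfold box4r12 at hbox
      simp only [List.mem_cons, List.not_mem_nil, or_false] at hbox
      rcases hbox with rfl | rfl | rfl
      · have q1 : 1 ≤ b 1 ∧ (3 = 0 ∨ b 1 ≤ 3) := hj 0 (by norm_num)
        have q2 : 1 ≤ b 2 ∧ (1 = 0 ∨ b 2 ≤ 1) := hj 1 (by norm_num)
        have q3 : 1 ≤ b 3 ∧ (0 = 0 ∨ b 3 ≤ 0) := hj 2 (by norm_num)
        have q4 : 1 ≤ b 4 ∧ (0 = 0 ∨ b 4 ≤ 0) := hj 3 (by norm_num)
        exact (absurd_of_deg hM hb h (fun e => e % 4 = 1 ∨ e % 4 = 2) hr' (by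
          intro x y hx hy _ _ hxy; rw [bcls4 b]; split_ifs <;> omega)
          (fun m => ⟨4 * m + 4, by omega, by omega⟩)).elim
      · have q1 : 4 ≤ b 1 ∧ (4 = 0 ∨ b 1 ≤ 4) := hj 0 (by norm_num)
        have q2 : 2 ≤ b 2 ∧ (3 = 0 ∨ b 2 ≤ 3) := hj 1 (by norm_num)
        have q3 : 6 ≤ b 3 ∧ (6 = 0 ∨ b 3 ≤ 6) := hj 2 (by norm_num)
        have q4 : 1 ≤ b 4 ∧ (0 = 0 ∨ b 4 ≤ 0) := hj 3 (by norm_num)
        exact (absurd_of_fam hM hb h (fun e => e % 4 = 1 ∨ e % 4 = 2)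
          (fun e => e % 4 ≠ 0)
          (fun e => if e % 4 = 1 then 4 else if e % 4 = 2 then 3 else 6) hr' fam4_436
          (fun e _ => by split_ifs <;> omega)
          (by intro x y hx hy _ _; rw [bcls4 b]; split_ifs <;> omega)
          (fun m => ⟨4 * m + 4, by omega, by omega⟩)).elim
      · have q1 : 4 ≤ b 1 ∧ (4 = 0 ∨ b 1 ≤ 4) := hj 0 (by norm_num)
        have q2 : 4 ≤ b 2 ∧ (4 = 0 ∨ b 2 ≤ 4) := hj 1 (by norm_num)
        have q3 : 5 ≤ b 3 ∧ (5 = 0 ∨ b 3 ≤ 5) := hj 2 (by norm_num)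
        have q4 : 1 ≤ b 4 ∧ (0 = 0 ∨ b 4 ≤ 0) := hj 3 (by norm_num)
        exact (absurd_of_fam hM hb h (fun e => e % 4 = 1 ∨ e % 4 = 2)
          (fun e => e % 4 ≠ 0)
          (fun e => if e % 4 = 3 then 5 else 4) hr' fam4_445
          (fun e _ => by split_ifs <;> omega)
          (by intro x y hx hy _ _; rw [bcls4 b]; split_ifs <;> omega)
          (fun m => ⟨4 * m + 4, by omega, by omega⟩)).elim
    · have hr : ∀ e, (∃ a ∈ R, e ≡ a [MOD 4]) ↔ (fun e => e % 2 == 1) e = true := by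
        intro e; rw [mem_res, hT]; simp <;> omega
      have hr' : ∀ e, (∃ a ∈ R, e ≡ a [MOD 4]) ↔ (e % 2 = 1) := by
        intro e; rw [mem_res, hT]; simp <;> omega
      obtain ⟨box, hbox, hj⟩ := searchN_root (ok := fun e => e ∉ C) (M := 4) hM
        (hb_cls hM hb) 45 (by norm_num) _ (hAt_of hM hb h _ hr 45 _ aRow4r13) box4r13 search4r13
      unfold box4r13 at hbox
      simp only [List.mem_cons, List.not_mem_nil, or_false] at hbox
      rcases hbox with rfl | rfl | rfl | rfl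
      · have q1 : 1 ≤ b 1 ∧ (2 = 0 ∨ b 1 ≤ 2) := hj 0 (by norm_num)
        have q2 : 1 ≤ b 2 ∧ (0 = 0 ∨ b 2 ≤ 0) := hj 1 (by norm_num)
        have q3 : 1 ≤ b 3 ∧ (2 = 0 ∨ b 3 ≤ 2) := hj 2 (by norm_num)
        have q4 : 1 ≤ b 4 ∧ (0 = 0 ∨ b 4 ≤ 0) := hj 3 (by norm_num)
        exact (absurd_of_deg hM hb h (fun e => e % 2 = 1) hr' (by
          intro x y hx hy _ _ hxy; rw [bcls4 b]; split_ifs <;> omega)
          (fun m => ⟨2 * m + 2, by omega, by omega⟩)).elim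
      · have q1 : 3 ≤ b 1 ∧ (4 = 0 ∨ b 1 ≤ 4) := hj 0 (by norm_num)
        have q2 : 1 ≤ b 2 ∧ (0 = 0 ∨ b 2 ≤ 0) := hj 1 (by norm_num)
        have q3 : 3 ≤ b 3 ∧ (3 = 0 ∨ b 3 ≤ 3) := hj 2 (by norm_num)
        have q4 : 6 ≤ b 4 ∧ (7 = 0 ∨ b 4 ≤ 7) := hj 3 (by norm_num)
        exact (absurd_of_fam hM hb h (fun e => e % 2 = 1)
          (fun e => e % 4 ≠ 2)
          (fun e => if e % 2 = 1 then 3 else 7) hr' fam37
          (fun e _ => by split_ifs <;> omega)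
          (by intro x y hx hy _ _; rw [bcls4 b]; split_ifs <;> omega)
          (fun m => ⟨4 * m + 2, by omega, by omega⟩)).elim
      · have q1 : 3 ≤ b 1 ∧ (4 = 0 ∨ b 1 ≤ 4) := hj 0 (by norm_num)
        have q2 : 1 ≤ b 2 ∧ (0 = 0 ∨ b 2 ≤ 0) := hj 1 (by norm_num)
        have q3 : 4 ≤ b 3 ∧ (4 = 0 ∨ b 3 ≤ 4) := hj 2 (by norm_num)
        have q4 : 5 ≤ b 4 ∧ (5 = 0 ∨ b 4 ≤ 5) := hj 3 (by norm_num)
        exact (absurd_of_fam hM hb h (fun e => e % 2 = 1)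
          (fun e => e % 4 ≠ 2)
          (fun e => if e % 2 = 1 then 4 else 5) hr' fam45
          (fun e _ => by split_ifs <;> omega)
          (by intro x y hx hy _ _; rw [bcls4 b]; split_ifs <;> omega)
          (fun m => ⟨4 * m + 2, by omega, by omega⟩)).elim
      · have q1 : 6 ≤ b 1 ∧ (6 = 0 ∨ b 1 ≤ 6) := hj 0 (by norm_num)
        have q2 : 7 ≤ b 2 ∧ (7 = 0 ∨ b 2 ≤ 7) := hj 1 (by norm_num)
        have q3 : 6 ≤ b 3 ∧ (6 = 0 ∨ b 3 ≤ 6) := hj 2 (by norm_num)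
        have q4 : 7 ≤ b 4 ∧ (7 = 0 ∨ b 4 ≤ 7) := hj 3 (by norm_num)
        have e1 : b 1 = 6 := by omega
        have e2 : b 2 = 7 := by omega
        have e3 : b 3 = 6 := by omega
        have e4 : b 4 = 7 := by omega
        exact Or.inr (Or.inl ⟨hT, e1, e2, e3, e4, finite_unique hM hb h (fun n _ => suff13 R b hT e1 e2 e3 e4 n) hC
          (by simp)⟩)
    · have hr : ∀ e, (∃ a ∈ R, e ≡ a [MOD 4]) ↔ (fun e => e % 4 == 2 || e % 4 == 3) e = true := by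
        intro e; rw [mem_res, hT]; simp <;> omega
      have hr' : ∀ e, (∃ a ∈ R, e ≡ a [MOD 4]) ↔ (e % 4 = 2 ∨ e % 4 = 3) := by
        intro e; rw [mem_res, hT]; simp <;> omega
      obtain ⟨box, hbox, hj⟩ := searchN_root (ok := fun e => e ∉ C) (M := 4) hM
        (hb_cls hM hb) 47 (by norm_num) _ (hAt_of hM hb h _ hr 47 _ aRow4r23) box4r23 search4r23
      unfold box4r23 at hbox
      simp only [List.mem_cons, List.not_mem_nil, or_false] at hbox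
      rcases hbox with rfl | rfl | rfl
      · have q1 : 1 ≤ b 1 ∧ (0 = 0 ∨ b 1 ≤ 0) := hj 0 (by norm_num)
        have q2 : 1 ≤ b 2 ∧ (3 = 0 ∨ b 2 ≤ 3) := hj 1 (by norm_num)
        have q3 : 1 ≤ b 3 ∧ (1 = 0 ∨ b 3 ≤ 1) := hj 2 (by norm_num)
        have q4 : 1 ≤ b 4 ∧ (0 = 0 ∨ b 4 ≤ 0) := hj 3 (by norm_num)
        exact (absurd_of_deg hM hb h (fun e => e % 4 = 2 ∨ e % 4 = 3) hr' (by
          intro x y hx hy _ _ hxy; rw [bcls4 b]; split_ifs <;> omega)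
          (fun m => ⟨4 * m + 4, by omega, by omega⟩)).elim
      · have q1 : 7 ≤ b 1 ∧ (7 = 0 ∨ b 1 ≤ 7) := hj 0 (by norm_num)
        have q2 : 4 ≤ b 2 ∧ (4 = 0 ∨ b 2 ≤ 4) := hj 1 (by norm_num)
        have q3 : 2 ≤ b 3 ∧ (2 = 0 ∨ b 3 ≤ 2) := hj 2 (by norm_num)
        have q4 : 1 ≤ b 4 ∧ (0 = 0 ∨ b 4 ≤ 0) := hj 3 (by norm_num)
        exact (absurd_of_fam hM hb h (fun e => e % 4 = 2 ∨ e % 4 = 3)
          (fun e => e % 4 ≠ 0 ∧ e ≠ 1)
          (fun e => if e % 4 = 1 then 7 else if e % 4 = 2 then 4 else 2) hr' fam4_742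
          (fun e _ => by split_ifs <;> omega)
          (by intro x y hx hy _ _; rw [bcls4 b]; split_ifs <;> omega)
          (fun m => ⟨4 * m + 4, by omega, by omega⟩)).elim
      · have q1 : 5 ≤ b 1 ∧ (6 = 0 ∨ b 1 ≤ 6) := hj 0 (by norm_num)
        have q2 : 4 ≤ b 2 ∧ (4 = 0 ∨ b 2 ≤ 4) := hj 1 (by norm_num)
        have q3 : 3 ≤ b 3 ∧ (4 = 0 ∨ b 3 ≤ 4) := hj 2 (by norm_num)
        have q4 : 1 ≤ b 4 ∧ (0 = 0 ∨ b 4 ≤ 0) := hj 3 (by norm_num)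
        exact (absurd_of_fam hM hb h (fun e => e % 4 = 2 ∨ e % 4 = 3)
          (fun e => e % 4 ≠ 0 ∧ e ≠ 1)
          (fun e => if e % 4 = 1 then 6 else 4) hr' fam4_644
          (fun e _ => by split_ifs <;> omega)
          (by intro x y hx hy _ _; rw [bcls4 b]; split_ifs <;> omega)
          (fun m => ⟨4 * m + 4, by omega, by omega⟩)).elim
    · have hr : ∀ e, (∃ a ∈ R, e ≡ a [MOD 4]) ↔ (fun e => e % 4 != 0) e = true := by
        intro e; rw [mem_res, hT]; simp <;> omega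
      have hr' : ∀ e, (∃ a ∈ R, e ≡ a [MOD 4]) ↔ (e % 4 ≠ 0) := by
        intro e; rw [mem_res, hT]; simp <;> omega
      obtain ⟨box, hbox, hj⟩ := searchN_root (ok := fun e => e ∉ C) (M := 4) hM
        (hb_cls hM hb) 14 (by norm_num) _ (hAt_of hM hb h _ hr 14 _ aRow4r123) box4r123 search4r123
      unfold box4r123 at hbox
      simp only [List.mem_cons, List.not_mem_nil, or_false] at hbox
      rcases hbox with rfl
      · have q1 : 1 ≤ b 1 ∧ (2 = 0 ∨ b 1 ≤ 2) := hj 0 (by norm_num)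
        have q2 : 1 ≤ b 2 ∧ (1 = 0 ∨ b 2 ≤ 1) := hj 1 (by norm_num)
        have q3 : 1 ≤ b 3 ∧ (1 = 0 ∨ b 3 ≤ 1) := hj 2 (by norm_num)
        have q4 : 1 ≤ b 4 ∧ (0 = 0 ∨ b 4 ≤ 0) := hj 3 (by norm_num)
        exact (absurd_of_deg hM hb h (fun e => e % 4 ≠ 0) hr' (by
          intro x y hx hy _ _ hxy; rw [bcls4 b]; split_ifs <;> omega)
          (fun m => ⟨4 * m + 4, by omega, by omega⟩)).elim
    · have hr : ∀ e, (∃ a ∈ R, e ≡ a [MOD 4]) ↔ (fun e => e % 4 == 0 || e % 4 == 1) e = true := by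
        intro e; rw [mem_res, hT]; simp <;> omega
      have hr' : ∀ e, (∃ a ∈ R, e ≡ a [MOD 4]) ↔ (e % 4 = 0 ∨ e % 4 = 1) := by
        intro e; rw [mem_res, hT]; simp <;> omega
      obtain ⟨box, hbox, hj⟩ := searchN_root (ok := fun e => e ∉ C) (M := 4) hM
        (hb_cls hM hb) 9 (by norm_num) _ (hAt_of hM hb h _ hr 9 _ aRow4r14) box4r14 search4r14
      unfold box4r14 at hbox
      simp only [List.mem_cons, List.not_mem_nil, or_false] at hbox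
      rcases hbox with rfl
      · have q1 : 1 ≤ b 1 ∧ (1 = 0 ∨ b 1 ≤ 1) := hj 0 (by norm_num)
        have q2 : 1 ≤ b 2 ∧ (0 = 0 ∨ b 2 ≤ 0) := hj 1 (by norm_num)
        have q3 : 1 ≤ b 3 ∧ (0 = 0 ∨ b 3 ≤ 0) := hj 2 (by norm_num)
        have q4 : 1 ≤ b 4 ∧ (3 = 0 ∨ b 4 ≤ 3) := hj 3 (by norm_num)
        exact (absurd_of_deg hM hb h (fun e => e % 4 = 0 ∨ e % 4 = 1) hr' (by
          intro x y hx hy _ _ hxy; rw [bcls4 b]; split_ifs <;> omega)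
          (fun m => ⟨4 * m + 2, by omega, by omega⟩)).elim
    · have hr : ∀ e, (∃ a ∈ R, e ≡ a [MOD 4]) ↔ (fun e => e % 4 == 0 || e % 4 == 3) e = true := by
        intro e; rw [mem_res, hT]; simp <;> omega
      have hr' : ∀ e, (∃ a ∈ R, e ≡ a [MOD 4]) ↔ (e % 4 = 0 ∨ e % 4 = 3) := by
        intro e; rw [mem_res, hT]; simp <;> omega
      obtain ⟨box, hbox, hj⟩ := searchN_root (ok := fun e => e ∉ C) (M := 4) hM
        (hb_cls hM hb) 11 (by norm_num) _ (hAt_of hM hb h _ hr 11 _ aRow4r34) box4r34 search4r34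
      unfold box4r34 at hbox
      simp only [List.mem_cons, List.not_mem_nil, or_false] at hbox
      rcases hbox with rfl
      · have q1 : 1 ≤ b 1 ∧ (0 = 0 ∨ b 1 ≤ 0) := hj 0 (by norm_num)
        have q2 : 1 ≤ b 2 ∧ (0 = 0 ∨ b 2 ≤ 0) := hj 1 (by norm_num)
        have q3 : 1 ≤ b 3 ∧ (3 = 0 ∨ b 3 ≤ 3) := hj 2 (by norm_num)
        have q4 : 1 ≤ b 4 ∧ (1 = 0 ∨ b 4 ≤ 1) := hj 3 (by norm_num)
        exact (absurd_of_deg hM hb h (fun e => e % 4 = 0 ∨ e % 4 = 3) hr' (by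
          intro x y hx hy _ _ hxy; rw [bcls4 b]; split_ifs <;> omega)
          (fun m => ⟨4 * m + 2, by omega, by omega⟩)).elim
    · have hr : ∀ e, (∃ a ∈ R, e ≡ a [MOD 4]) ↔ (fun e => e % 4 != 3) e = true := by
        intro e; rw [mem_res, hT]; simp <;> omega
      have hr' : ∀ e, (∃ a ∈ R, e ≡ a [MOD 4]) ↔ (e % 4 ≠ 3) := by
        intro e; rw [mem_res, hT]; simp <;> omega
      obtain ⟨box, hbox, hj⟩ := searchN_root (ok := fun e => e ∉ C) (M := 4) hM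
        (hb_cls hM hb) 32 (by norm_num) _ (hAt_of hM hb h _ hr 32 _ aRow4r124) box4r124 search4r124
      unfold box4r124 at hbox
      simp only [List.mem_cons, List.not_mem_nil, or_false] at hbox
      rcases hbox with rfl | rfl | rfl
      · have q1 : 1 ≤ b 1 ∧ (1 = 0 ∨ b 1 ≤ 1) := hj 0 (by norm_num)
        have q2 : 1 ≤ b 2 ∧ (1 = 0 ∨ b 2 ≤ 1) := hj 1 (by norm_num)
        have q3 : 1 ≤ b 3 ∧ (0 = 0 ∨ b 3 ≤ 0) := hj 2 (by norm_num)
        have q4 : 1 ≤ b 4 ∧ (2 = 0 ∨ b 4 ≤ 2) := hj 3 (by norm_num)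
        exact (absurd_of_deg hM hb h (fun e => e % 4 ≠ 3) hr' (by
          intro x y hx hy _ _ hxy; rw [bcls4 b]; split_ifs <;> omega)
          (fun m => ⟨4 * m + 3, by omega, by omega⟩)).elim
      · have q1 : 4 ≤ b 1 ∧ (4 = 0 ∨ b 1 ≤ 4) := hj 0 (by norm_num)
        have q2 : 1 ≤ b 2 ∧ (1 = 0 ∨ b 2 ≤ 1) := hj 1 (by norm_num)
        have q3 : 4 ≤ b 3 ∧ (4 = 0 ∨ b 3 ≤ 4) := hj 2 (by norm_num)
        have q4 : 1 ≤ b 4 ∧ (1 = 0 ∨ b 4 ≤ 1) := hj 3 (by norm_num)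
        have e1 : b 1 = 4 := by omega
        have e2 : b 2 = 1 := by omega
        have e3 : b 3 = 4 := by omega
        have e4 : b 4 = 1 := by omega
        exact Or.inr (Or.inr (Or.inr (Or.inl ⟨hT, e1, e2, e3, e4, finite_unique hM hb h (fun n _ => suff012a R b hT e1 e2 e3 e4 n) hC
          (by simp)⟩)))
      · have q1 : 3 ≤ b 1 ∧ (3 = 0 ∨ b 1 ≤ 3) := hj 0 (by norm_num)
        have q2 : 2 ≤ b 2 ∧ (2 = 0 ∨ b 2 ≤ 2) := hj 1 (by norm_num)
        have q3 : 3 ≤ b 3 ∧ (3 = 0 ∨ b 3 ≤ 3) := hj 2 (by norm_num)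
        have q4 : 2 ≤ b 4 ∧ (2 = 0 ∨ b 4 ≤ 2) := hj 3 (by norm_num)
        have e1 : b 1 = 3 := by omega
        have e2 : b 2 = 2 := by omega
        have e3 : b 3 = 3 := by omega
        have e4 : b 4 = 2 := by omega
        exact Or.inr (Or.inr (Or.inl ⟨hT, e1, e2, e3, e4, finite_unique hM hb h (fun n _ => suff012b R b hT e1 e2 e3 e4 n) hC
          (by simp)⟩))
    · have hr : ∀ e, (∃ a ∈ R, e ≡ a [MOD 4]) ↔ (fun e => e % 4 != 2) e = true := by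
        intro e; rw [mem_res, hT]; simp <;> omega
      have hr' : ∀ e, (∃ a ∈ R, e ≡ a [MOD 4]) ↔ (e % 4 ≠ 2) := by
        intro e; rw [mem_res, hT]; simp <;> omega
      obtain ⟨box, hbox, hj⟩ := searchN_root (ok := fun e => e ∉ C) (M := 4) hM
        (hb_cls hM hb) 9 (by norm_num) _ (hAt_of hM hb h _ hr 9 _ aRow4r134) box4r134 search4r134
      unfold box4r134 at hbox
      simp only [List.mem_cons, List.not_mem_nil, or_false] at hbox
      rcases hbox with rfl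
      · have q1 : 1 ≤ b 1 ∧ (1 = 0 ∨ b 1 ≤ 1) := hj 0 (by norm_num)
        have q2 : 1 ≤ b 2 ∧ (0 = 0 ∨ b 2 ≤ 0) := hj 1 (by norm_num)
        have q3 : 1 ≤ b 3 ∧ (2 = 0 ∨ b 3 ≤ 2) := hj 2 (by norm_num)
        have q4 : 1 ≤ b 4 ∧ (1 = 0 ∨ b 4 ≤ 1) := hj 3 (by norm_num)
        exact (absurd_of_deg hM hb h (fun e => e % 4 ≠ 2) hr' (by
          intro x y hx hy _ _ hxy; rw [bcls4 b]; split_ifs <;> omega)
          (fun m => ⟨4 * m + 2, by omega, by omega⟩)).elim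
    · have hr : ∀ e, (∃ a ∈ R, e ≡ a [MOD 4]) ↔ (fun e => e % 4 != 1) e = true := by
        intro e; rw [mem_res, hT]; simp <;> omega
      have hr' : ∀ e, (∃ a ∈ R, e ≡ a [MOD 4]) ↔ (e % 4 ≠ 1) := by
        intro e; rw [mem_res, hT]; simp <;> omega
      obtain ⟨box, hbox, hj⟩ := searchN_root (ok := fun e => e ∉ C) (M := 4) hM
        (hb_cls hM hb) 22 (by norm_num) _ (hAt_of hM hb h _ hr 22 _ aRow4r234) box4r234 search4r234
      unfold box4r234 at hbox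
      simp only [List.mem_cons, List.not_mem_nil, or_false] at hbox
      rcases hbox with rfl | rfl | rfl
      · have q1 : 1 ≤ b 1 ∧ (0 = 0 ∨ b 1 ≤ 0) := hj 0 (by norm_num)
        have q2 : 1 ≤ b 2 ∧ (2 = 0 ∨ b 2 ≤ 2) := hj 1 (by norm_num)
        have q3 : 1 ≤ b 3 ∧ (1 = 0 ∨ b 3 ≤ 1) := hj 2 (by norm_num)
        have q4 : 1 ≤ b 4 ∧ (1 = 0 ∨ b 4 ≤ 1) := hj 3 (by norm_num)
        exact (absurd_of_deg hM hb h (fun e => e % 4 ≠ 1) hr' (by
          intro x y hx hy _ _ hxy; rw [bcls4 b]; split_ifs <;> omega)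
          (fun m => ⟨4 * m + 1, by omega, by omega⟩)).elim
      · have q1 : 4 ≤ b 1 ∧ (4 = 0 ∨ b 1 ≤ 4) := hj 0 (by norm_num)
        have q2 : 1 ≤ b 2 ∧ (1 = 0 ∨ b 2 ≤ 1) := hj 1 (by norm_num)
        have q3 : 4 ≤ b 3 ∧ (4 = 0 ∨ b 3 ≤ 4) := hj 2 (by norm_num)
        have q4 : 1 ≤ b 4 ∧ (1 = 0 ∨ b 4 ≤ 1) := hj 3 (by norm_num)
        have e1 : b 1 = 4 := by omega
        have e2 : b 2 = 1 := by omega
        have e3 : b 3 = 4 := by omega
        have e4 : b 4 = 1 := by omega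
        exact Or.inr (Or.inr (Or.inr (Or.inr (Or.inr ⟨hT, e1, e2, e3, e4, finite_unique hM hb h (fun n _ => suff023a R b hT e1 e2 e3 e4 n) hC
          (by simp)⟩))))
      · have q1 : 3 ≤ b 1 ∧ (3 = 0 ∨ b 1 ≤ 3) := hj 0 (by norm_num)
        have q2 : 2 ≤ b 2 ∧ (2 = 0 ∨ b 2 ≤ 2) := hj 1 (by norm_num)
        have q3 : 3 ≤ b 3 ∧ (3 = 0 ∨ b 3 ≤ 3) := hj 2 (by norm_num)
        have q4 : 2 ≤ b 4 ∧ (2 = 0 ∨ b 4 ≤ 2) := hj 3 (by norm_num)
        have e1 : b 1 = 3 := by omega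
        have e2 : b 2 = 2 := by omega
        have e3 : b 3 = 3 := by omega
        have e4 : b 4 = 2 := by omega
        exact Or.inr (Or.inr (Or.inr (Or.inr (Or.inl ⟨hT, e1, e2, e3, e4, finite_unique hM hb h (fun n _ => suff023b R b hT e1 e2 e3 e4 n) hC
          (by simp)⟩))))
    · have hr : ∀ e, (∃ a ∈ R, e ≡ a [MOD 4]) ↔ (fun _ : ℕ => true) e = true := by
        intro e; rw [mem_res, hT]; simp <;> omega
      have hr' : ∀ e, (∃ a ∈ R, e ≡ a [MOD 4]) ↔ (True) := by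
        intro e; rw [mem_res, hT]; simp <;> omega
      obtain ⟨box, hbox, hj⟩ := searchN_root (ok := fun e => e ∉ C) (M := 4) hM
        (hb_cls hM hb) 9 (by norm_num) _ (hAt_of hM hb h _ hr 9 _ aRow4all) box4all search4all
      unfold box4all at hbox
      simp only [List.mem_cons, List.not_mem_nil, or_false] at hbox
      rcases hbox with rfl
      · have q1 : 1 ≤ b 1 ∧ (1 = 0 ∨ b 1 ≤ 1) := hj 0 (by norm_num)
        have q2 : 1 ≤ b 2 ∧ (1 = 0 ∨ b 2 ≤ 1) := hj 1 (by norm_num)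
        have q3 : 1 ≤ b 3 ∧ (1 = 0 ∨ b 3 ≤ 1) := hj 2 (by norm_num)
        have q4 : 1 ≤ b 4 ∧ (1 = 0 ∨ b 4 ≤ 1) := hj 3 (by norm_num)
        have e1 : b 1 = 1 := by omega
        have e2 : b 2 = 1 := by omega
        have e3 : b 3 = 1 := by omega
        have e4 : b 4 = 1 := by omega
        exact Or.inl ⟨hT, e1, e2, e3, e4, finite_unique hM hb h (fun n _ => trivial_sol hM hr' (by intro j h1 h2; interval_cases j <;> assumption) n) hC
          (by simp)⟩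
  · rintro (⟨hT, h1, h2, h3, h4, rfl⟩ | ⟨hT, h1, h2, h3, h4, rfl⟩ | ⟨hT, h1, h2, h3, h4, rfl⟩ |
      ⟨hT, h1, h2, h3, h4, rfl⟩ | ⟨hT, h1, h2, h3, h4, rfl⟩ | ⟨hT, h1, h2, h3, h4, rfl⟩)
    · refine ⟨?_, by simp, fun n _ => trivial_sol hM ?_ ?_ n⟩
      · intro j hj1 hj2; interval_cases j <;> omega
      · intro e; rw [mem_res, hT]; simp <;> omega
      · intro j hj1 hj2; interval_cases j <;> assumption
    · exact ⟨by intro j hj1 hj2; interval_cases j <;> omega, by simp,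
        fun n _ => suff13 R b hT h1 h2 h3 h4 n⟩
    · exact ⟨by intro j hj1 hj2; interval_cases j <;> omega, by simp,
        fun n _ => suff012b R b hT h1 h2 h3 h4 n⟩
    · exact ⟨by intro j hj1 hj2; interval_cases j <;> omega, by simp,
        fun n _ => suff012a R b hT h1 h2 h3 h4 n⟩
    · exact ⟨by intro j hj1 hj2; interval_cases j <;> omega, by simp,
        fun n _ => suff023b R b hT h1 h2 h3 h4 n⟩
    · exact ⟨by intro j hj1 hj2; interval_cases j <;> omega, by simp,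
        fun n _ => suff023a R b hT h1 h2 h3 h4 n⟩

end PD687
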