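import Pool.Agent.TH687.PD.Families

namespace PD687

open Finset PowerSeries

/-! ### modulus 2, distinct odd parts, allowed parts `≢ 2 mod 4` -/

/-- gaps (4,5) -/
lemma fam45 (n : ℕ) : cnt (fun e => e % 4 ≠ 2) (fun e => if e % 2 = 1 then 4 else 5) n n =
    cnt (fun e => e % 2 = 1) (fun _ => 1) n n := by
  refine schur_bridge 1 3 4 (by norm_num) (fun e _ => by split_ifs <;> omega) Q_odd4 ?_ n
  intro i
  refine ⟨4 * i + 1, 6 * i + 1, by omega, by omega, ?_⟩
  have h := schur_a (X : PowerSeries ℤ) (X ^ 3) (X ^ 4)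
    (fun i => P (fun e => e % 4 ≠ 2) (fun e => if e % 2 = 1 then 4 else 5) (4 * i + 1))
    (fun i => P (fun e => e % 4 ≠ 2) (fun e => if e % 2 = 1 then 4 else 5) (4 * i + 3))
    (fun i => P (fun e => e % 4 ≠ 2) (fun e => if e % 2 = 1 then 4 else 5) (4 * i + 4))
    ?_ ?_ ?_ ?_ ?_ ?_ i
  · rw [pow_one]; exact h.1
  · show P _ _ (4 * 0 + 1) = _
    rw [P_step (4 * 0 + 1) 0 0 (by omega) (by split_ifs <;> omega) (by omega)
      (by intros; omega) (by omega) (by intro y h1 h2; split_ifs at h2 <;> omega), P_zero]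
    ring
  · show P _ _ (4 * 0 + 3) = P _ _ (4 * 0 + 1) + _
    rw [P_step (4 * 0 + 3) (4 * 0 + 1) 0 (by omega) (by split_ifs <;> omega) (by omega)
      (by intros; omega) (by omega) (by intro y h1 h2; split_ifs at h2 <;> omega), P_zero]
    ring
  · show P _ _ (4 * 0 + 4) = P _ _ (4 * 0 + 3) + _
    rw [P_step (4 * 0 + 4) (4 * 0 + 3) 0 (by omega) (by split_ifs <;> omega) (by omega)
      (by intros; omega) (by omega) (by intro y h1 h2; split_ifs at h2 <;> omega), P_zero]
    ring
  · intro i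
    show P _ _ (4 * (i + 1) + 1) = _
    rw [P_step (4 * (i + 1) + 1) (4 * i + 4) (4 * i + 1) (by omega) (by split_ifs <;> omega)
      (by omega) (by intros; omega) (by split_ifs <;> omega)
      (by intro y h1 h2; split_ifs at h2 <;> omega)]
    ring
  · intro i
    show P _ _ (4 * (i + 1) + 3) = _
    rw [P_step (4 * (i + 1) + 3) (4 * (i + 1) + 1) (4 * i + 3) (by omega) (by split_ifs <;> omega)
      (by omega) (by intros; omega) (by split_ifs <;> omega)
      (by intro y h1 h2; split_ifs at h2 <;> omega)]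
    ring
  · intro i
    show P _ _ (4 * (i + 1) + 4) = _
    rw [P_step (4 * (i + 1) + 4) (4 * (i + 1) + 3) (4 * i + 3) (by omega) (by split_ifs <;> omega)
      (by omega) (by intros; omega) (by split_ifs <;> omega)
      (by intro y h1 h2; split_ifs at h2 <;> omega)]
    ring

/-- gaps (3,7) -/
lemma fam37 (n : ℕ) : cnt (fun e => e % 4 ≠ 2) (fun e => if e % 2 = 1 then 3 else 7) n n =
    cnt (fun e => e % 2 = 1) (fun _ => 1) n n := by
  refine schur_bridge 1 3 4 (by norm_num) (fun e _ => by split_ifs <;> omega) Q_odd4 ?_ n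
  intro i
  refine ⟨4 * i + 1, 6 * i + 1, by omega, by omega, ?_⟩
  have h := schur_b (X : PowerSeries ℤ) (X ^ 3) (X ^ 4)
    (fun i => P (fun e => e % 4 ≠ 2) (fun e => if e % 2 = 1 then 3 else 7) (4 * i + 1))
    (fun i => P (fun e => e % 4 ≠ 2) (fun e => if e % 2 = 1 then 3 else 7) (4 * i + 4))
    ?_ ?_ ?_ ?_ i
  · rw [pow_one]; exact h.1
  · show P _ _ (4 * 0 + 1) = _
    rw [P_step (4 * 0 + 1) 0 0 (by omega) (by split_ifs <;> omega) (by omega)
      (by intros; omega) (by omega) (by intro y h1 h2; split_ifs at h2 <;> omega), P_zero]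
    ring
  · have e1 := P_step (ok := fun e => e % 4 ≠ 2) (d := fun e => if e % 2 = 1 then 3 else 7)
      4 3 0 (by norm_num) (by norm_num) (by norm_num) (by intros; omega) (by norm_num)
      (by norm_num; intros; omega)
    have e2 := P_step (ok := fun e => e % 4 ≠ 2) (d := fun e => if e % 2 = 1 then 3 else 7)
      3 1 0 (by norm_num) (by norm_num) (by norm_num) (by intros; omega) (by norm_num)
      (by norm_num; intros; omega)
    show P _ _ 4 = P _ _ 1 + _ + _
    rw [e1, e2, P_zero]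
    ring
  · intro i
    show P _ _ (4 * (i + 1) + 1) = _
    rw [P_step (4 * (i + 1) + 1) (4 * i + 4) (4 * i + 1) (by omega) (by split_ifs <;> omega)
      (by omega) (by intros; omega) (by split_ifs <;> omega)
      (by intro y h1 h2; split_ifs at h2 <;> omega)]
    ring
  · intro i
    show P _ _ (4 * (i + 1) + 4) = _
    rw [P_step (4 * (i + 1) + 4) (4 * (i + 1) + 3) (4 * i + 1) (by omega) (by split_ifs <;> omega)
      (by omega) (by intros; omega) (by split_ifs <;> omega)
      (by intro y h1 h2; split_ifs at h2 <;> omega),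
      P_step (4 * (i + 1) + 3) (4 * (i + 1) + 1) (4 * i + 4) (by omega) (by split_ifs <;> omega)
      (by omega) (by intros; omega) (by split_ifs <;> omega)
      (by intro y h1 h2; split_ifs at h2 <;> omega)]
    ring

/-! ### modulus 3, parts `≡ 1 mod 3` -/

/-- gaps (6,7) -/
lemma fam3_67 (n : ℕ) : cnt (fun e => e % 6 = 1 ∨ e % 6 = 4 ∨ e % 6 = 5)
    (fun e => if e % 3 = 1 then 6 else 7) n n = cnt (fun e => e % 3 = 1) (fun _ => 1) n n := by
  refine schur_bridge 1 4 6 (by norm_num) (fun e _ => by split_ifs <;> omega) Q_136 ?_ n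
  intro i
  refine ⟨6 * i + 1, 6 * i + 1, by omega, by omega, ?_⟩
  have h := schur_a (X : PowerSeries ℤ) (X ^ 4) (X ^ 6)
    (fun i => P (fun e => e % 6 = 1 ∨ e % 6 = 4 ∨ e % 6 = 5)
      (fun e => if e % 3 = 1 then 6 else 7) (6 * i + 1))
    (fun i => P (fun e => e % 6 = 1 ∨ e % 6 = 4 ∨ e % 6 = 5)
      (fun e => if e % 3 = 1 then 6 else 7) (6 * i + 4))
    (fun i => P (fun e => e % 6 = 1 ∨ e % 6 = 4 ∨ e % 6 = 5)
      (fun e => if e % 3 = 1 then 6 else 7) (6 * i + 5))
    ?_ ?_ ?_ ?_ ?_ ?_ i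
  · rw [pow_one]; exact h.1
  · show P _ _ (6 * 0 + 1) = _
    rw [P_step (6 * 0 + 1) 0 0 (by omega) (by split_ifs <;> omega) (by omega)
      (by intros; omega) (by omega) (by intro y h1 h2; split_ifs at h2 <;> omega), P_zero]
    ring
  · show P _ _ (6 * 0 + 4) = P _ _ (6 * 0 + 1) + _
    rw [P_step (6 * 0 + 4) (6 * 0 + 1) 0 (by omega) (by split_ifs <;> omega) (by omega)
      (by intros; omega) (by omega) (by intro y h1 h2; split_ifs at h2 <;> omega), P_zero]
    ring
  · show P _ _ (6 * 0 + 5) = P _ _ (6 * 0 + 4) + _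
    rw [P_step (6 * 0 + 5) (6 * 0 + 4) 0 (by omega) (by split_ifs <;> omega) (by omega)
      (by intros; omega) (by omega) (by intro y h1 h2; split_ifs at h2 <;> omega), P_zero]
    ring
  · intro i
    show P _ _ (6 * (i + 1) + 1) = _
    rw [P_step (6 * (i + 1) + 1) (6 * i + 5) (6 * i + 1) (by omega) (by split_ifs <;> omega)
      (by omega) (by intros; omega) (by split_ifs <;> omega)
      (by intro y h1 h2; split_ifs at h2 <;> omega)]
    ring
  · intro i
    show P _ _ (6 * (i + 1) + 4) = _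
    rw [P_step (6 * (i + 1) + 4) (6 * (i + 1) + 1) (6 * i + 4) (by omega) (by split_ifs <;> omega)
      (by omega) (by intros; omega) (by split_ifs <;> omega)
      (by intro y h1 h2; split_ifs at h2 <;> omega)]
    ring
  · intro i
    show P _ _ (6 * (i + 1) + 5) = _
    rw [P_step (6 * (i + 1) + 5) (6 * (i + 1) + 4) (6 * i + 4) (by omega) (by split_ifs <;> omega)
      (by omega) (by intros; omega) (by split_ifs <;> omega)
      (by intro y h1 h2; split_ifs at h2 <;> omega)]
    ring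

/-- gaps (4,10) -/
lemma fam3_410 (n : ℕ) : cnt (fun e => e % 6 = 1 ∨ e % 6 = 4 ∨ e % 6 = 5)
    (fun e => if e % 3 = 1 then 4 else 10) n n = cnt (fun e => e % 3 = 1) (fun _ => 1) n n := by
  refine schur_bridge 1 4 6 (by norm_num) (fun e _ => by split_ifs <;> omega) Q_136 ?_ n
  intro i
  refine ⟨6 * i + 1, 6 * i + 1, by omega, by omega, ?_⟩
  have h := schur_b (X : PowerSeries ℤ) (X ^ 4) (X ^ 6)
    (fun i => P (fun e => e % 6 = 1 ∨ e % 6 = 4 ∨ e % 6 = 5)
      (fun e => if e % 3 = 1 then 4 else 10) (6 * i + 1))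
    (fun i => P (fun e => e % 6 = 1 ∨ e % 6 = 4 ∨ e % 6 = 5)
      (fun e => if e % 3 = 1 then 4 else 10) (6 * i + 5))
    ?_ ?_ ?_ ?_ i
  · rw [pow_one]; exact h.1
  · show P _ _ (6 * 0 + 1) = _
    rw [P_step (6 * 0 + 1) 0 0 (by omega) (by split_ifs <;> omega) (by omega)
      (by intros; omega) (by omega) (by intro y h1 h2; split_ifs at h2 <;> omega), P_zero]
    ring
  · show P _ _ (6 * 0 + 5) = P _ _ (6 * 0 + 1) + _ + _
    rw [P_step (6 * 0 + 5) (6 * 0 + 4) 0 (by omega) (by split_ifs <;> omega) (by omega)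
      (by intros; omega) (by omega) (by intro y h1 h2; split_ifs at h2 <;> omega),
      P_step (6 * 0 + 4) (6 * 0 + 1) 0 (by omega) (by split_ifs <;> omega) (by omega)
      (by intros; omega) (by omega) (by intro y h1 h2; split_ifs at h2 <;> omega), P_zero]
    ring
  · intro i
    show P _ _ (6 * (i + 1) + 1) = _
    rw [P_step (6 * (i + 1) + 1) (6 * i + 5) (6 * i + 1) (by omega) (by split_ifs <;> omega)
      (by omega) (by intros; omega) (by split_ifs <;> omega)
      (by intro y h1 h2; split_ifs at h2 <;> omega)]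
    ring
  · intro i
    show P _ _ (6 * (i + 1) + 5) = _
    rw [P_step (6 * (i + 1) + 5) (6 * (i + 1) + 4) (6 * i + 1) (by omega) (by split_ifs <;> omega)
      (by omega) (by intros; omega) (by split_ifs <;> omega)
      (by intro y h1 h2; split_ifs at h2 <;> omega),
      P_step (6 * (i + 1) + 4) (6 * (i + 1) + 1) (6 * i + 5) (by omega) (by split_ifs <;> omega)
      (by omega) (by intros; omega) (by split_ifs <;> omega)
      (by intro y h1 h2; split_ifs at h2 <;> omega)]
    ring

/-! ### modulus 3, parts `≡ 2 mod 3` -/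

/-- gaps (7,6) -/
lemma fam3_76 (n : ℕ) : cnt (fun e => (e % 6 = 1 ∨ e % 6 = 2 ∨ e % 6 = 5) ∧ e ≠ 1)
    (fun e => if e % 3 = 1 then 7 else 6) n n = cnt (fun e => e % 3 = 2) (fun _ => 1) n n := by
  refine schur_bridge 2 5 6 (by norm_num) (fun e _ => by split_ifs <;> omega) Q_236 ?_ n
  intro i
  refine ⟨6 * i + 2, 6 * i + 1, by omega, by omega, ?_⟩
  have h := schur_a (X ^ 2 : PowerSeries ℤ) (X ^ 5) (X ^ 6)
    (fun i => P (fun e => (e % 6 = 1 ∨ e % 6 = 2 ∨ e % 6 = 5) ∧ e ≠ 1)
      (fun e => if e % 3 = 1 then 7 else 6) (6 * i + 2))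
    (fun i => P (fun e => (e % 6 = 1 ∨ e % 6 = 2 ∨ e % 6 = 5) ∧ e ≠ 1)
      (fun e => if e % 3 = 1 then 7 else 6) (6 * i + 5))
    (fun i => P (fun e => (e % 6 = 1 ∨ e % 6 = 2 ∨ e % 6 = 5) ∧ e ≠ 1)
      (fun e => if e % 3 = 1 then 7 else 6) (6 * i + 7))
    ?_ ?_ ?_ ?_ ?_ ?_ i
  · exact h.1
  · show P _ _ (6 * 0 + 2) = _
    rw [P_step (6 * 0 + 2) 0 0 (by omega) (by split_ifs <;> omega) (by omega)
      (by intros; omega) (by omega) (by intro y h1 h2; split_ifs at h2 <;> omega), P_zero]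
    ring
  · show P _ _ (6 * 0 + 5) = P _ _ (6 * 0 + 2) + _
    rw [P_step (6 * 0 + 5) (6 * 0 + 2) 0 (by omega) (by split_ifs <;> omega) (by omega)
      (by intros; omega) (by omega) (by intro y h1 h2; split_ifs at h2 <;> omega), P_zero]
    ring
  · show P _ _ (6 * 0 + 7) = P _ _ (6 * 0 + 5) + _
    rw [P_step (6 * 0 + 7) (6 * 0 + 5) 0 (by omega) (by split_ifs <;> omega) (by omega)
      (by intros; omega) (by omega) (by intro y h1 h2; split_ifs at h2 <;> omega), P_zero]
    ring
  · intro i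
    show P _ _ (6 * (i + 1) + 2) = _
    rw [P_step (6 * (i + 1) + 2) (6 * i + 7) (6 * i + 2) (by omega) (by split_ifs <;> omega)
      (by omega) (by intros; omega) (by split_ifs <;> omega)
      (by intro y h1 h2; split_ifs at h2 <;> omega)]
    ring
  · intro i
    show P _ _ (6 * (i + 1) + 5) = _
    rw [P_step (6 * (i + 1) + 5) (6 * (i + 1) + 2) (6 * i + 5) (by omega) (by split_ifs <;> omega)
      (by omega) (by intros; omega) (by split_ifs <;> omega)
      (by intro y h1 h2; split_ifs at h2 <;> omega)]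
    ring
  · intro i
    show P _ _ (6 * (i + 1) + 7) = _
    rw [P_step (6 * (i + 1) + 7) (6 * (i + 1) + 5) (6 * i + 5) (by omega) (by split_ifs <;> omega)
      (by omega) (by intros; omega) (by split_ifs <;> omega)
      (by intro y h1 h2; split_ifs at h2 <;> omega)]
    ring

/-- gaps (11,4) -/
lemma fam3_114 (n : ℕ) : cnt (fun e => (e % 6 = 1 ∨ e % 6 = 2 ∨ e % 6 = 5) ∧ e ≠ 1)
    (fun e => if e % 3 = 1 then 11 else 4) n n = cnt (fun e => e % 3 = 2) (fun _ => 1) n n := by
  refine schur_bridge 2 5 6 (by norm_num) (fun e _ => by split_ifs <;> omega) Q_236 ?_ n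
  intro i
  refine ⟨6 * i + 2, 6 * i + 1, by omega, by omega, ?_⟩
  have h := schur_b (X ^ 2 : PowerSeries ℤ) (X ^ 5) (X ^ 6)
    (fun i => P (fun e => (e % 6 = 1 ∨ e % 6 = 2 ∨ e % 6 = 5) ∧ e ≠ 1)
      (fun e => if e % 3 = 1 then 11 else 4) (6 * i + 2))
    (fun i => P (fun e => (e % 6 = 1 ∨ e % 6 = 2 ∨ e % 6 = 5) ∧ e ≠ 1)
      (fun e => if e % 3 = 1 then 11 else 4) (6 * i + 7))
    ?_ ?_ ?_ ?_ i
  · exact h.1
  · show P _ _ (6 * 0 + 2) = _
    rw [P_step (6 * 0 + 2) 0 0 (by omega) (by split_ifs <;> omega) (by omega)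
      (by intros; omega) (by omega) (by intro y h1 h2; split_ifs at h2 <;> omega), P_zero]
    ring
  · show P _ _ (6 * 0 + 7) = P _ _ (6 * 0 + 2) + _ + _
    rw [P_step (6 * 0 + 7) (6 * 0 + 5) 0 (by omega) (by split_ifs <;> omega) (by omega)
      (by intros; omega) (by omega) (by intro y h1 h2; split_ifs at h2 <;> omega),
      P_step (6 * 0 + 5) (6 * 0 + 2) 0 (by omega) (by split_ifs <;> omega) (by omega)
      (by intros; omega) (by omega) (by intro y h1 h2; split_ifs at h2 <;> omega), P_zero]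
    ring
  · intro i
    show P _ _ (6 * (i + 1) + 2) = _
    rw [P_step (6 * (i + 1) + 2) (6 * i + 7) (6 * i + 2) (by omega) (by split_ifs <;> omega)
      (by omega) (by intros; omega) (by split_ifs <;> omega)
      (by intro y h1 h2; split_ifs at h2 <;> omega)]
    ring
  · intro i
    show P _ _ (6 * (i + 1) + 7) = _
    rw [P_step (6 * (i + 1) + 7) (6 * (i + 1) + 5) (6 * i + 2) (by omega) (by split_ifs <;> omega)
      (by omega) (by intros; omega) (by split_ifs <;> omega)
      (by intro y h1 h2; split_ifs at h2 <;> omega),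
      P_step (6 * (i + 1) + 5) (6 * (i + 1) + 2) (6 * i + 7) (by omega) (by split_ifs <;> omega)
      (by omega) (by intros; omega) (by split_ifs <;> omega)
      (by intro y h1 h2; split_ifs at h2 <;> omega)]
    ring

/-! ### modulus 3, Schur's theorem: gaps (3,3,4) -/

lemma fam3_schur (n : ℕ) : cnt (fun _ => True)
    (fun e => if e % 3 = 0 then 4 else 3) n n = cnt (fun e => e % 3 ≠ 0) (fun _ => 1) n n := by
  refine schur_bridge 1 2 3 (by norm_num) (fun e _ => by split_ifs <;> omega) Q_123 ?_ n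
  intro i
  refine ⟨3 * i + 1, 6 * i + 1, by omega, by omega, ?_⟩
  have h := schur_a (X : PowerSeries ℤ) (X ^ 2) (X ^ 3)
    (fun i => P (fun _ => True) (fun e => if e % 3 = 0 then 4 else 3) (3 * i + 1))
    (fun i => P (fun _ => True) (fun e => if e % 3 = 0 then 4 else 3) (3 * i + 2))
    (fun i => P (fun _ => True) (fun e => if e % 3 = 0 then 4 else 3) (3 * i + 3))
    ?_ ?_ ?_ ?_ ?_ ?_ i
  · rw [pow_one]; exact h.1
  · show P _ _ (3 * 0 + 1) = _
    rw [P_step (3 * 0 + 1) 0 0 trivial (by split_ifs <;> omega) (by omega)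
      (by intros; omega) (by omega) (by intro y h1 h2; split_ifs at h2 <;> omega), P_zero]
    ring
  · show P _ _ (3 * 0 + 2) = P _ _ (3 * 0 + 1) + _
    rw [P_step (3 * 0 + 2) (3 * 0 + 1) 0 trivial (by split_ifs <;> omega) (by omega)
      (by intros; omega) (by omega) (by intro y h1 h2; split_ifs at h2 <;> omega), P_zero]
    ring
  · show P _ _ (3 * 0 + 3) = P _ _ (3 * 0 + 2) + _
    rw [P_step (3 * 0 + 3) (3 * 0 + 2) 0 trivial (by split_ifs <;> omega) (by omega)
      (by intros; omega) (by omega) (by intro y h1 h2; split_ifs at h2 <;> omega), P_zero]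
    ring
  · intro i
    show P _ _ (3 * (i + 1) + 1) = _
    rw [P_step (3 * (i + 1) + 1) (3 * i + 3) (3 * i + 1) trivial (by split_ifs <;> omega)
      (by omega) (by intros; omega) (by split_ifs <;> omega)
      (by intro y h1 h2; split_ifs at h2 <;> omega)]
    ring
  · intro i
    show P _ _ (3 * (i + 1) + 2) = _
    rw [P_step (3 * (i + 1) + 2) (3 * (i + 1) + 1) (3 * i + 2) trivial (by split_ifs <;> omega)
      (by omega) (by intros; omega) (by split_ifs <;> omega)
      (by intro y h1 h2; split_ifs at h2 <;> omega)]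
    ring
  · intro i
    show P _ _ (3 * (i + 1) + 3) = _
    rw [P_step (3 * (i + 1) + 3) (3 * (i + 1) + 2) (3 * i + 2) trivial (by split_ifs <;> omega)
      (by omega) (by intros; omega) (by split_ifs <;> omega)
      (by intro y h1 h2; split_ifs at h2 <;> omega)]
    ring

end PD687
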