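import Pool.Agent.TH687.PD.Fam

namespace PD687

open Finset PowerSeries

section
variable {S : Type*} [CommRing S]

lemma wtp_odd (x : S) (a s j : ℕ) :
    wt (x ^ a) (x ^ (a + s)) (x ^ (a + 2 * s)) (x ^ (3 * s)) (2 * j + 1) = x ^ (s * j + a) := by
  obtain ⟨i, hi⟩ : ∃ i, i = j / 3 := ⟨_, rfl⟩
  have h : j % 3 = 0 ∨ j % 3 = 1 ∨ j % 3 = 2 := by omega
  unfold wt
  rcases h with h | h | h
  · obtain rfl : j = 3 * i := by omega
    rw [if_pos (by omega), show (2 * (3 * i) + 1 - 1) / 6 = i by omega, ← pow_mul, ← pow_add]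
    congr 1; ring
  · obtain rfl : j = 3 * i + 1 := by omega
    rw [if_neg (by omega), if_neg (by omega), if_pos (by omega),
      show (2 * (3 * i + 1) + 1 - 1) / 6 = i by omega, ← pow_mul, ← pow_add]
    congr 1; ring
  · obtain rfl : j = 3 * i + 2 := by omega
    rw [if_neg (by omega), if_neg (by omega), if_neg (by omega), if_neg (by omega),
      if_pos (by omega),
      show (2 * (3 * i + 2) + 1 - 1) / 6 = i by omega, ← pow_mul, ← pow_add]
    congr 1; ring

lemma wtp_even (x : S) (a s j : ℕ) :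
    wt (x ^ a) (x ^ (a + s)) (x ^ (a + 2 * s)) (x ^ (3 * s)) (2 * j + 2) =
      if j = 0 then 0 else x ^ (s * j + 2 * a) := by
  obtain ⟨i, hi⟩ : ∃ i, i = j / 3 := ⟨_, rfl⟩
  have h : j % 3 = 0 ∨ j % 3 = 1 ∨ j % 3 = 2 := by omega
  unfold wt
  rcases h with h | h | h
  · obtain rfl : j = 3 * i := by omega
    rw [if_neg (by omega), if_pos (by omega)]
    by_cases h0 : 3 * i = 0
    · rw [if_pos (by omega), if_pos h0]
    · rw [if_neg (by omega), if_neg h0]
      obtain ⟨t, rfl⟩ : ∃ t, i = t + 1 := ⟨i - 1, by omega⟩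
      rw [show (2 * (3 * (t + 1)) + 2 - 1) / 6 - 1 = t by omega, ← pow_mul, ← pow_add, ← pow_add]
      congr 1; ring
  · obtain rfl : j = 3 * i + 1 := by omega
    rw [if_neg (by omega), if_neg (by omega), if_neg (by omega), if_pos (by omega),
      if_neg (by omega),
      show (2 * (3 * i + 1) + 2 - 1) / 6 = i by omega, ← pow_mul, ← pow_add, ← pow_add]
    congr 1; ring
  · obtain rfl : j = 3 * i + 2 := by omega
    rw [if_neg (by omega), if_neg (by omega), if_neg (by omega), if_neg (by omega),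
      if_neg (by omega), if_neg (by omega),
      show (2 * (3 * i + 2) + 2 - 1) / 6 = i by omega, ← pow_mul, ← pow_add, ← pow_add]
    congr 1; ring

lemma Gp_odd (x : S) (a s j : ℕ) :
    G (x ^ a) (x ^ (a + s)) (x ^ (a + 2 * s)) (x ^ (3 * s)) (2 * j + 1) =
    G (x ^ a) (x ^ (a + s)) (x ^ (a + 2 * s)) (x ^ (3 * s)) (2 * j) +
    x ^ (s * j + a) * G (x ^ a) (x ^ (a + s)) (x ^ (a + 2 * s)) (x ^ (3 * s)) (2 * j - 5) := by
  rw [G_succ, wtp_odd, if_pos (by omega)]

lemma Gp_even (x : S) (a s j : ℕ) :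
    G (x ^ a) (x ^ (a + s)) (x ^ (a + 2 * s)) (x ^ (3 * s)) (2 * j + 2) =
    G (x ^ a) (x ^ (a + s)) (x ^ (a + 2 * s)) (x ^ (3 * s)) (2 * j + 1) +
    (if j = 0 then 0 else x ^ (s * j + 2 * a)) *
      G (x ^ a) (x ^ (a + s)) (x ^ (a + 2 * s)) (x ^ (3 * s)) (2 * j - 5) := by
  rw [G_succ, wtp_even, show (if (2 * j + 1) % 2 = 0 then 5 else 6) = 6 from if_neg (by omega),
    show 2 * j + 1 - 6 = 2 * j - 5 by omega]

end

/-- `G` for the parts `≡ 1 mod 3` -/
noncomputable def g1 (k : ℕ) : PowerSeries ℤ := G (X ^ 1) (X ^ (1 + 3)) (X ^ (1 + 2 * 3)) (X ^ (3 * 3)) k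

lemma g1_zero : g1 0 = 1 := G_zero _ _ _ _
lemma g1_odd (j : ℕ) : g1 (2 * j + 1) = g1 (2 * j) + X ^ (3 * j + 1) * g1 (2 * j - 5) :=
  Gp_odd X 1 3 j
lemma g1_even (j : ℕ) : g1 (2 * j + 2) = g1 (2 * j + 1) +
    (if j = 0 then 0 else X ^ (3 * j + 2 * 1)) * g1 (2 * j - 5) := Gp_even X 1 3 j

/-- `G` for the parts `≡ 2 mod 3` -/
noncomputable def g2 (k : ℕ) : PowerSeries ℤ := G (X ^ 2) (X ^ (2 + 3)) (X ^ (2 + 2 * 3)) (X ^ (3 * 3)) k

lemma g2_zero : g2 0 = 1 := G_zero _ _ _ _
lemma g2_odd (j : ℕ) : g2 (2 * j + 1) = g2 (2 * j) + X ^ (3 * j + 2) * g2 (2 * j - 5) :=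
  Gp_odd X 2 3 j
lemma g2_even (j : ℕ) : g2 (2 * j + 2) = g2 (2 * j + 1) +
    (if j = 0 then 0 else X ^ (3 * j + 2 * 2)) * g2 (2 * j - 5) := Gp_even X 2 3 j

/-- gaps (9,10) -/
lemma P910 (j : ℕ) :
    P (fun e => e % 3 ≠ 0 ∧ e ≠ 2) (fun e => if e % 3 = 1 then 9 else 10) (3 * j + 1) =
      g1 (2 * j + 1) ∧
    P (fun e => e % 3 ≠ 0 ∧ e ≠ 2) (fun e => if e % 3 = 1 then 9 else 10) (3 * j + 2) =
      g1 (2 * j + 2) := by
  induction j using Nat.strong_induction_on with
  | _ j ih =>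
    match j with
    | 0 =>
      have e1 := P_step (ok := fun e => e % 3 ≠ 0 ∧ e ≠ 2)
        (d := fun e => if e % 3 = 1 then 9 else 10) 1 0 0 (by norm_num) (by norm_num)
        (by norm_num) (by intros; omega) (by norm_num) (by norm_num; intros; omega)
      have e2 : P (fun e => e % 3 ≠ 0 ∧ e ≠ 2) (fun e => if e % 3 = 1 then 9 else 10) 2 =
          P (fun e => e % 3 ≠ 0 ∧ e ≠ 2) (fun e => if e % 3 = 1 then 9 else 10) 1 :=
        P_const' (by norm_num) (by intros; omega)
      have o := g1_odd 0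
      have ev := g1_even 0
      simp only [Nat.mul_zero, Nat.zero_sub, Nat.zero_add, g1_zero, if_true, zero_mul,
        add_zero] at o ev ⊢
      rw [e2, e1, ev, o, P_zero]
      exact ⟨rfl, rfl⟩
    | j + 1 =>
      have t : P (fun e => e % 3 ≠ 0 ∧ e ≠ 2) (fun e => if e % 3 = 1 then 9 else 10)
          (3 * j - 5) = g1 (2 * (j + 1) - 5) := by
        by_cases hj : 2 ≤ j
        · have := (ih (j - 2) (by omega)).1
          rw [show 3 * (j - 2) + 1 = 3 * j - 5 by omega,
            show 2 * (j - 2) + 1 = 2 * (j + 1) - 5 by omega] at this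
          exact this
        · rw [show 3 * j - 5 = 0 by omega, show 2 * (j + 1) - 5 = 0 by omega, P_zero, g1_zero]
      have ihj := (ih j (by omega)).2
      have e1 := P_step (ok := fun e => e % 3 ≠ 0 ∧ e ≠ 2)
        (d := fun e => if e % 3 = 1 then 9 else 10) (3 * (j + 1) + 1) (3 * j + 2) (3 * j - 5)
        (by omega) (by split_ifs <;> omega) (by omega) (by intros; omega)
        (by split_ifs <;> omega) (by intro y h1 h2; split_ifs at h2 <;> omega)
      have e2 := P_step (ok := fun e => e % 3 ≠ 0 ∧ e ≠ 2)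
        (d := fun e => if e % 3 = 1 then 9 else 10) (3 * (j + 1) + 2) (3 * (j + 1) + 1) (3 * j - 5)
        (by omega) (by split_ifs <;> omega) (by omega) (by intros; omega)
        (by split_ifs <;> omega) (by intro y h1 h2; split_ifs at h2 <;> omega)
      have o := g1_odd (j + 1)
      have ev := g1_even (j + 1)
      rw [if_neg (by omega)] at ev
      rw [e2, e1, ihj, t, ev, o, show 2 * (j + 1) = 2 * j + 2 by ring]
      exact ⟨rfl, rfl⟩

lemma fam3_910 (n : ℕ) : cnt (fun e => e % 3 ≠ 0 ∧ e ≠ 2)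
    (fun e => if e % 3 = 1 then 9 else 10) n n = cnt (fun e => e % 3 = 1) (fun _ => 1) n n := by
  refine goll_bridge 1 4 7 9 (by norm_num) (fun e _ => by split_ifs <;> omega) Q_139 ?_ n
  intro i
  refine ⟨9 * i + 1, 6 * i + 1, by omega, by omega, ?_⟩
  have := (P910 (3 * i)).1
  rw [show 3 * (3 * i) + 1 = 9 * i + 1 by ring, show 2 * (3 * i) + 1 = 6 * i + 1 by ring] at this
  exact this

/-- gaps (7,11,12), allowed parts `≢ 0 mod 3`, not 2, and the part 12 -/
lemma P711 (j : ℕ) :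
    P (fun e => (e % 3 ≠ 0 ∧ e ≠ 2) ∨ e = 12)
      (fun e => if e % 3 = 1 then 7 else if e % 3 = 2 then 11 else 12) (3 * j) = g1 (2 * j) := by
  induction j using Nat.strong_induction_on with
  | _ j ih =>
    match j with
    | 0 => simp only [Nat.mul_zero]; rw [P_zero, g1_zero]
    | 1 =>
      have e1 := P_step (ok := fun e => (e % 3 ≠ 0 ∧ e ≠ 2) ∨ e = 12)
        (d := fun e => if e % 3 = 1 then 7 else if e % 3 = 2 then 11 else 12) 1 0 0
        (by norm_num) (by norm_num)
        (by norm_num) (by intros; omega) (by norm_num) (by norm_num; intros; omega)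
      have e2 : P (fun e => (e % 3 ≠ 0 ∧ e ≠ 2) ∨ e = 12)
          (fun e => if e % 3 = 1 then 7 else if e % 3 = 2 then 11 else 12) 3 =
          P (fun e => (e % 3 ≠ 0 ∧ e ≠ 2) ∨ e = 12)
          (fun e => if e % 3 = 1 then 7 else if e % 3 = 2 then 11 else 12) 1 :=
        P_const' (by norm_num) (by intros; omega)
      have o := g1_odd 0
      have ev := g1_even 0
      simp only [Nat.mul_zero, Nat.zero_sub, Nat.zero_add, g1_zero, if_true, zero_mul,
        add_zero, Nat.mul_one] at o ev ⊢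
      rw [e2, e1, ev, o, P_zero]
    | j + 2 =>
      have i0 := ih (j + 1) (by omega)
      have i1 := ih (j + 1 - 2) (by omega)
      have i2 := ih (j + 1 - 3) (by omega)
      have e1 := P_step (ok := fun e => (e % 3 ≠ 0 ∧ e ≠ 2) ∨ e = 12)
        (d := fun e => if e % 3 = 1 then 7 else if e % 3 = 2 then 11 else 12)
        (3 * (j + 1) + 1) (3 * (j + 1)) (3 * (j + 1 - 2))
        (by omega) (by split_ifs <;> omega) (by omega) (by intros; omega)
        (by split_ifs <;> omega) (by intro y h1 h2; split_ifs at h2 <;> omega)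
      have e2 := P_step (ok := fun e => (e % 3 ≠ 0 ∧ e ≠ 2) ∨ e = 12)
        (d := fun e => if e % 3 = 1 then 7 else if e % 3 = 2 then 11 else 12)
        (3 * (j + 1) + 2) (3 * (j + 1) + 1) (3 * (j + 1 - 3))
        (by omega) (by split_ifs <;> omega) (by omega) (by intros; omega)
        (by split_ifs <;> omega) (by intro y h1 h2; split_ifs at h2 <;> omega)
      have o := g1_odd (j + 1)
      have ev := g1_even (j + 1)
      rw [if_neg (by omega)] at ev
      by_cases hj : j = 2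
      · subst hj
        have e3 := P_step (ok := fun e => (e % 3 ≠ 0 ∧ e ≠ 2) ∨ e = 12)
          (d := fun e => if e % 3 = 1 then 7 else if e % 3 = 2 then 11 else 12)
          12 11 0 (by norm_num) (by norm_num)
          (by norm_num) (by intros; omega) (by norm_num) (by norm_num; intros; omega)
        have o0 := g1_odd 0
        have ev0 := g1_even 0
        norm_num at e1 e2 e3 o ev i0 i1 i2 o0 ev0 ⊢
        rw [e3, e2, e1, i0, i1, i2, ev, o, ev0, o0, g1_zero]
        ring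
      · have e3 : P (fun e => (e % 3 ≠ 0 ∧ e ≠ 2) ∨ e = 12)
            (fun e => if e % 3 = 1 then 7 else if e % 3 = 2 then 11 else 12) (3 * (j + 2)) =
            P (fun e => (e % 3 ≠ 0 ∧ e ≠ 2) ∨ e = 12)
            (fun e => if e % 3 = 1 then 7 else if e % 3 = 2 then 11 else 12) (3 * (j + 1) + 2) :=
          P_const' (by omega) (by intros; omega)
        rw [e3, e2, e1, i0, i1, i2, show 2 * (j + 2) = 2 * (j + 1) + 2 by ring, ev, o]
        by_cases hj3 : j ≤ 1
        · rw [show 2 * (j + 1 - 2) = 0 by omega, show 2 * (j + 1 - 3) = 0 by omega,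
            show 2 * (j + 1) - 5 = 0 by omega]
        · obtain ⟨w, rfl⟩ : ∃ w, j = w + 3 := ⟨j - 3, by omega⟩
          rw [show w + 3 + 1 - 2 = w + 2 by omega, show w + 3 + 1 - 3 = w + 1 by omega,
            show 2 * (w + 3 + 1) - 5 = 2 * (w + 1) + 1 by omega,
            show 2 * (w + 2) = 2 * (w + 1) + 2 by ring]
          have o' := g1_odd (w + 1)
          have ev' := g1_even (w + 1)
          rw [if_neg (by omega)] at ev'
          rw [ev', o']
          ring

lemma fam3_711 (n : ℕ) : cnt (fun e => (e % 3 ≠ 0 ∧ e ≠ 2) ∨ e = 12)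
    (fun e => if e % 3 = 1 then 7 else if e % 3 = 2 then 11 else 12) n n =
    cnt (fun e => e % 3 = 1) (fun _ => 1) n n := by
  refine goll_bridge 1 4 7 9 (by norm_num) (fun e _ => by split_ifs <;> omega) Q_139 ?_ n
  intro i
  refine ⟨9 * i, 6 * i, by omega, by omega, ?_⟩
  have := P711 (3 * i)
  rw [show 3 * (3 * i) = 9 * i by ring, show 2 * (3 * i) = 6 * i by ring] at this
  exact this

/-- gaps (11,9), parts `≡ 2 mod 3` -/
lemma P119 (j : ℕ) :
    P (fun e => e % 3 ≠ 0 ∧ e ≠ 1 ∧ e ≠ 4) (fun e => if e % 3 = 1 then 11 else 9) (3 * j + 2) =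
      g2 (2 * j + 1) ∧
    P (fun e => e % 3 ≠ 0 ∧ e ≠ 1 ∧ e ≠ 4) (fun e => if e % 3 = 1 then 11 else 9) (3 * j + 4) =
      g2 (2 * j + 2) := by
  induction j using Nat.strong_induction_on with
  | _ j ih =>
    match j with
    | 0 =>
      have e1 := P_step (ok := fun e => e % 3 ≠ 0 ∧ e ≠ 1 ∧ e ≠ 4)
        (d := fun e => if e % 3 = 1 then 11 else 9) 2 0 0 (by norm_num) (by norm_num)
        (by norm_num) (by intros; omega) (by norm_num) (by norm_num; intros; omega)
      have e2 : P (fun e => e % 3 ≠ 0 ∧ e ≠ 1 ∧ e ≠ 4) (fun e => if e % 3 = 1 then 11 else 9) 4 =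
          P (fun e => e % 3 ≠ 0 ∧ e ≠ 1 ∧ e ≠ 4) (fun e => if e % 3 = 1 then 11 else 9) 2 :=
        P_const' (by norm_num) (by intros; omega)
      have o := g2_odd 0
      have ev := g2_even 0
      simp only [Nat.mul_zero, Nat.zero_sub, Nat.zero_add, g2_zero, if_true, zero_mul,
        add_zero] at o ev ⊢
      rw [e2, e1, ev, o, P_zero]
      exact ⟨rfl, rfl⟩
    | j + 1 =>
      have t : P (fun e => e % 3 ≠ 0 ∧ e ≠ 1 ∧ e ≠ 4) (fun e => if e % 3 = 1 then 11 else 9)
          (3 * j - 4) = g2 (2 * (j + 1) - 5) := by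
        by_cases hj : 2 ≤ j
        · have := (ih (j - 2) (by omega)).1
          rw [show 3 * (j - 2) + 2 = 3 * j - 4 by omega,
            show 2 * (j - 2) + 1 = 2 * (j + 1) - 5 by omega] at this
          exact this
        · rw [show 3 * j - 4 = 0 by omega, show 2 * (j + 1) - 5 = 0 by omega, P_zero, g2_zero]
      have ihj := (ih j (by omega)).2
      have e1 := P_step (ok := fun e => e % 3 ≠ 0 ∧ e ≠ 1 ∧ e ≠ 4)
        (d := fun e => if e % 3 = 1 then 11 else 9) (3 * (j + 1) + 2) (3 * j + 4) (3 * j - 4)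
        (by omega) (by split_ifs <;> omega) (by omega) (by intros; omega)
        (by split_ifs <;> omega) (by intro y h1 h2; split_ifs at h2 <;> omega)
      have e2 := P_step (ok := fun e => e % 3 ≠ 0 ∧ e ≠ 1 ∧ e ≠ 4)
        (d := fun e => if e % 3 = 1 then 11 else 9) (3 * (j + 1) + 4) (3 * (j + 1) + 2) (3 * j - 4)
        (by omega) (by split_ifs <;> omega) (by omega) (by intros; omega)
        (by split_ifs <;> omega) (by intro y h1 h2; split_ifs at h2 <;> omega)
      have o := g2_odd (j + 1)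
      have ev := g2_even (j + 1)
      rw [if_neg (by omega)] at ev
      rw [e2, e1, ihj, t, ev, o, show 2 * (j + 1) = 2 * j + 2 by ring]
      exact ⟨rfl, rfl⟩

lemma fam3_119 (n : ℕ) : cnt (fun e => e % 3 ≠ 0 ∧ e ≠ 1 ∧ e ≠ 4)
    (fun e => if e % 3 = 1 then 11 else 9) n n = cnt (fun e => e % 3 = 2) (fun _ => 1) n n := by
  refine goll_bridge 2 5 8 9 (by norm_num) (fun e _ => by split_ifs <;> omega) Q_239 ?_ n
  intro i
  refine ⟨9 * i + 2, 6 * i + 1, by omega, by omega, ?_⟩
  have := (P119 (3 * i)).1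
  rw [show 3 * (3 * i) + 2 = 9 * i + 2 by ring, show 2 * (3 * i) + 1 = 6 * i + 1 by ring] at this
  exact this

end PD687
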