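import Pool.Agent.TH687.PD.Tools

namespace PD687

open Finset PowerSeries

section steps
variable {ok : ℕ → Prop} [DecidablePred ok] {d : ℕ → ℕ}

lemma P_const (k' j : ℕ) (h : ∀ y, k' < y → y ≤ k' + j → ¬ ok y) :
    P ok d (k' + j) = P ok d k' := by
  induction j with
  | zero => rfl
  | succ j ih =>
    rw [← add_assoc, P_succ, if_neg (h _ (by omega) (by omega)), add_zero]
    exact ih (fun y h1 h2 => h y h1 (by omega))

lemma P_const' {k' k : ℕ} (hk : k' ≤ k) (h : ∀ y, k' < y → y ≤ k → ¬ ok y) :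
    P ok d k = P ok d k' := by
  obtain ⟨j, rfl⟩ := Nat.exists_eq_add_of_le hk
  exact P_const k' j h

lemma P_step (e p t : ℕ) (he : ok e) (hde : 1 ≤ d e) (hp : p < e)
    (h2 : ∀ y, p < y → y < e → ¬ ok y) (ht : t ≤ e - d e)
    (h3 : ∀ y, t < y → y ≤ e - d e → ¬ ok y) : P ok d e = P ok d p + X ^ e * P ok d t := by
  obtain ⟨e', rfl⟩ : ∃ e', e = e' + 1 := ⟨e - 1, by omega⟩
  rw [P_succ, if_pos he, P_const' (k' := p) (k := e') (by omega) (fun y h h' => h2 y h (by omega)),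
    show e' - (d (e' + 1) - 1) = e' + 1 - d (e' + 1) by omega, P_const' ht h3]

end steps

section schur
variable {S : Type*} [CommRing S]

lemma Gs_rel (α β q : S) (i : ℕ) :
    G α β 0 q (6 * i + 2) = G α β 0 q (6 * i + 1) ∧
    G α β 0 q (6 * i + 5) = G α β 0 q (6 * i + 4) ∧
    G α β 0 q (6 * i + 6) = G α β 0 q (6 * i + 4) := by
  have g5 := G5 α β 0 q i
  have g6 := G6 α β 0 q i
  refine ⟨?_, ?_, ?_⟩
  · cases i with
    | zero => exact G2' α β 0 q
    | succ i => rw [G2 α β 0 q i]; ring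
  · rw [g5]; ring
  · rw [g6, g5]; ring

lemma schur_a (α β q : S) (p1 p3 p4 : ℕ → S) (h10 : p1 0 = 1 + α) (h30 : p3 0 = p1 0 + β)
    (h40 : p4 0 = p3 0 + α * β) (h1 : ∀ i, p1 (i + 1) = p4 i + α * q ^ (i + 1) * p1 i)
    (h3 : ∀ i, p3 (i + 1) = p1 (i + 1) + β * q ^ (i + 1) * p3 i)
    (h4 : ∀ i, p4 (i + 1) = p3 (i + 1) + α * β * q ^ (i + 1) * p3 i) (i : ℕ) :
    p1 i = G α β 0 q (6 * i + 1) ∧ p3 i = G α β 0 q (6 * i + 3) ∧
      p4 i = G α β 0 q (6 * i + 4) := by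
  induction i with
  | zero =>
    have u1 := G1 α β 0 q 0
    have u3 := G3 α β 0 q 0
    have u4 := G4 α β 0 q 0
    have r := (Gs_rel α β q 0).1
    simp only [Nat.mul_zero, Nat.zero_sub, Nat.zero_add, G_zero, pow_zero, mul_one] at *
    refine ⟨?_, ?_, ?_⟩
    · rw [h10, u1]
    · rw [h30, h10, u3, r, u1]
    · rw [h40, h30, h10, u4, u3, r, u1]
  | succ i ih =>
    obtain ⟨a1, a3, a4⟩ := ih
    have u1 := G1 α β 0 q (i + 1)
    have u3 := G3 α β 0 q (i + 1)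
    have u4 := G4 α β 0 q (i + 1)
    have r1 := (Gs_rel α β q (i + 1)).1
    have r2 := (Gs_rel α β q i).2.2
    rw [show 6 * (i + 1) - 5 = 6 * i + 1 by omega, show 6 * (i + 1) = 6 * i + 6 by ring, r2] at u1
    rw [show 6 * (i + 1) - 3 = 6 * i + 3 by omega] at u3 u4
    rw [show 6 * (i + 1) = 6 * i + 6 by ring] at u3 u4 r1 ⊢
    refine ⟨?_, ?_, ?_⟩
    · rw [h1, a4, a1, u1]
    · rw [h3, h1, a4, a3, a1, u3, r1, u1]
    · rw [h4, h3, h1, a4, a3, a1, u4, u3, r1, u1]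

lemma schur_b (α β q : S) (q1 q4 : ℕ → S) (h10 : q1 0 = 1 + α)
    (h40 : q4 0 = q1 0 + β + α * β) (h1 : ∀ i, q1 (i + 1) = q4 i + α * q ^ (i + 1) * q1 i)
    (h4 : ∀ i, q4 (i + 1) = q1 (i + 1) + β * q ^ (i + 1) * q4 i + α * β * q ^ (i + 1) * q1 i)
    (i : ℕ) :
    q1 i = G α β 0 q (6 * i + 1) ∧ q4 i = G α β 0 q (6 * i + 4) := by
  induction i with
  | zero =>
    have u1 := G1 α β 0 q 0
    have u3 := G3 α β 0 q 0
    have u4 := G4 α β 0 q 0
    have r := (Gs_rel α β q 0).1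
    simp only [Nat.mul_zero, Nat.zero_sub, Nat.zero_add, G_zero, pow_zero, mul_one] at *
    refine ⟨?_, ?_⟩
    · rw [h10, u1]
    · rw [h40, h10, u4, u3, r, u1]
  | succ i ih =>
    obtain ⟨a1, a4⟩ := ih
    have u1 := G1 α β 0 q (i + 1)
    have u3 := G3 α β 0 q (i + 1)
    have u4 := G4 α β 0 q (i + 1)
    have v3 := G3 α β 0 q i
    have v4 := G4 α β 0 q i
    have r1 := (Gs_rel α β q (i + 1)).1
    have r0 := (Gs_rel α β q i).1
    have r2 := (Gs_rel α β q i).2.2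
    rw [show 6 * (i + 1) - 5 = 6 * i + 1 by omega, show 6 * (i + 1) = 6 * i + 6 by ring, r2] at u1
    rw [show 6 * (i + 1) - 3 = 6 * i + 3 by omega] at u3 u4
    rw [show 6 * (i + 1) = 6 * i + 6 by ring] at u3 u4 r1 ⊢
    refine ⟨?_, ?_⟩
    · rw [h1, a4, a1, u1]
    · rw [h4, h1, a4, a1, u4, u3, r1, u1]
      have key : G α β 0 q (6 * i + 4) + α * G α β 0 q (6 * i + 1) =
          (1 + α) * G α β 0 q (6 * i + 3) := by
        rw [v4, v3, r0]; ring
      linear_combination β * q ^ (i + 1) * key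

end schur

section limits
variable {S : Type*} [CommRing S] {x : S} {K : ℕ}

lemma schur_lim (hx : x ^ K = 0) (a c m : ℕ) (hm : 1 ≤ m) (N k : ℕ) (hN : K ≤ N)
    (hk : 6 * K + 12 ≤ k) : G (x ^ a) (x ^ c) 0 (x ^ m) k =
      ∏ i ∈ range N, (1 + x ^ (a + m * i)) * (1 + x ^ (c + m * i)) := by
  have h := Glim_eq hx a c K m hm k hk
  rw [Glim_prod hx a c K m hm N hN, hx] at h
  rw [h]
  apply Finset.prod_congr rfl
  intro i _
  rw [pow_zero_of hx (e := K + m * i) (by omega)]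
  ring

lemma goll_lim (hx : x ^ K = 0) (a c d m : ℕ) (hm : 1 ≤ m) (N k : ℕ) (hN : K ≤ N)
    (hk : 6 * K + 12 ≤ k) : G (x ^ a) (x ^ c) (x ^ d) (x ^ m) k =
      ∏ i ∈ range N, (1 + x ^ (a + m * i)) * (1 + x ^ (c + m * i)) * (1 + x ^ (d + m * i)) := by
  rw [Glim_eq hx a c d m hm k hk, Glim_prod hx a c d m hm N hN]

end limits

section bridge
variable {ok r : ℕ → Prop} [DecidablePred ok] [DecidablePred r] {d : ℕ → ℕ}

lemma A_eq_cnt {R : Finset ℕ} {M : ℕ} (hr : ∀ e, (∃ a ∈ R, e ≡ a [MOD M]) ↔ r e) (n : ℕ) :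
    A R M n = cnt r (fun _ => 1) n n := by
  have h1 := coeff_Q_A R M n n le_rfl
  rw [Q_eq_P, P_congr (ok' := r) (d' := fun _ => 1) hr (fun _ _ => rfl),
    coeff_P (fun _ _ => le_rfl)] at h1
  unfold cnt
  exact_mod_cast h1.symm

lemma cnt_eq_of (hd : ∀ e, 1 ≤ e → 1 ≤ d e)
    (h : ∀ K, 1 ≤ K → ∃ k k', K ≤ k ∧ K ≤ k' ∧
      Ideal.Quotient.mk (Ideal.span {(X : PowerSeries ℤ) ^ K}) (P ok d k) =
      Ideal.Quotient.mk (Ideal.span {(X : PowerSeries ℤ) ^ K}) (Q r k')) (n : ℕ) :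
    cnt ok d n n = cnt r (fun _ => 1) n n := by
  obtain ⟨k, k', hk, hk', hkk⟩ := h (n + 1) (by omega)
  have h1 := coeff_eq_of_mk (n := n) (by omega) hkk
  rw [Q_eq_P, coeff_P hd, coeff_P (fun _ _ => le_rfl)] at h1
  rw [← cnt_stable hd n k (by omega), ← cnt_stable (ok := r) (d := fun _ => 1)
    (fun _ _ => le_rfl) n k' (by omega)]
  unfold cnt
  exact_mod_cast h1

lemma schur_bridge (a c m : ℕ) (hm : 1 ≤ m) (hd : ∀ e, 1 ≤ e → 1 ≤ d e)
    (hQ : ∀ N, Q r (m * N) = ∏ i ∈ range N, (1 + (X : PowerSeries ℤ) ^ (a + m * i)) *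
      (1 + X ^ (c + m * i)))
    (hP : ∀ i, ∃ k k', i ≤ k ∧ 6 * i ≤ k' ∧ P ok d k = G (X ^ a) (X ^ c) 0 (X ^ m) k') (n : ℕ) :
    cnt ok d n n = cnt r (fun _ => 1) n n := by
  apply cnt_eq_of hd
  intro K hK
  obtain ⟨k, k', h1, h2, h3⟩ := hP (K + 2)
  refine ⟨k, m * K, by omega, by nlinarith, ?_⟩
  rw [h3, hQ, G_map]
  have hx := mk_pow_zero K
  set x := Ideal.Quotient.mk (Ideal.span {(X : PowerSeries ℤ) ^ K}) X with hxdef
  simp only [map_mul, map_prod, map_add, map_pow, map_one, map_zero, ← hxdef]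
  exact schur_lim hx a c m hm K k' le_rfl (by omega)

lemma goll_bridge (a c g m : ℕ) (hm : 1 ≤ m) (hd : ∀ e, 1 ≤ e → 1 ≤ d e)
    (hQ : ∀ N, Q r (m * N) = ∏ i ∈ range N, (1 + (X : PowerSeries ℤ) ^ (a + m * i)) *
      (1 + X ^ (c + m * i)) * (1 + X ^ (g + m * i)))
    (hP : ∀ i, ∃ k k', i ≤ k ∧ 6 * i ≤ k' ∧
      P ok d k = G (X ^ a) (X ^ c) (X ^ g) (X ^ m) k') (n : ℕ) :
    cnt ok d n n = cnt r (fun _ => 1) n n := by
  apply cnt_eq_of hd
  intro K hK
  obtain ⟨k, k', h1, h2, h3⟩ := hP (K + 2)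
  refine ⟨k, m * K, by omega, by nlinarith, ?_⟩
  rw [h3, hQ, G_map]
  have hx := mk_pow_zero K
  set x := Ideal.Quotient.mk (Ideal.span {(X : PowerSeries ℤ) ^ K}) X with hxdef
  simp only [map_mul, map_prod, map_add, map_pow, map_one, ← hxdef]
  exact goll_lim hx a c g m hm K k' le_rfl (by omega)

end bridge

/-! ### product sides -/

lemma Q_odd4 (N : ℕ) : Q (fun e => e % 2 = 1) (4 * N) =
    ∏ i ∈ range N, (1 + (X : PowerSeries ℤ) ^ (1 + 4 * i)) * (1 + X ^ (3 + 4 * i)) := by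
  induction N with
  | zero => simp [Q]
  | succ N ih =>
    have hf : (Finset.Icc 1 4).filter (fun j => (4 * N + j) % 2 = 1) = {1, 3} := by
      ext j; simp only [Finset.mem_filter, Finset.mem_Icc, Finset.mem_insert,
        Finset.mem_singleton]; omega
    rw [show 4 * (N + 1) = 4 * N + 4 by ring, Q_add, ih, hf, prod_range_succ,
      Finset.prod_insert (by simp), Finset.prod_singleton]
    ring

lemma Q_136 (N : ℕ) : Q (fun e => e % 3 = 1) (6 * N) =
    ∏ i ∈ range N, (1 + (X : PowerSeries ℤ) ^ (1 + 6 * i)) * (1 + X ^ (4 + 6 * i)) := by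
  induction N with
  | zero => simp [Q]
  | succ N ih =>
    have hf : (Finset.Icc 1 6).filter (fun j => (6 * N + j) % 3 = 1) = {1, 4} := by
      ext j; simp only [Finset.mem_filter, Finset.mem_Icc, Finset.mem_insert,
        Finset.mem_singleton]; omega
    rw [show 6 * (N + 1) = 6 * N + 6 by ring, Q_add, ih, hf, prod_range_succ,
      Finset.prod_insert (by simp), Finset.prod_singleton]
    ring

lemma Q_236 (N : ℕ) : Q (fun e => e % 3 = 2) (6 * N) =
    ∏ i ∈ range N, (1 + (X : PowerSeries ℤ) ^ (2 + 6 * i)) * (1 + X ^ (5 + 6 * i)) := by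
  induction N with
  | zero => simp [Q]
  | succ N ih =>
    have hf : (Finset.Icc 1 6).filter (fun j => (6 * N + j) % 3 = 2) = {2, 5} := by
      ext j; simp only [Finset.mem_filter, Finset.mem_Icc, Finset.mem_insert,
        Finset.mem_singleton]; omega
    rw [show 6 * (N + 1) = 6 * N + 6 by ring, Q_add, ih, hf, prod_range_succ,
      Finset.prod_insert (by simp), Finset.prod_singleton]
    ring

lemma Q_123 (N : ℕ) : Q (fun e => e % 3 ≠ 0) (3 * N) =
    ∏ i ∈ range N, (1 + (X : PowerSeries ℤ) ^ (1 + 3 * i)) * (1 + X ^ (2 + 3 * i)) := by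
  induction N with
  | zero => simp [Q]
  | succ N ih =>
    have hf : (Finset.Icc 1 3).filter (fun j => (3 * N + j) % 3 ≠ 0) = {1, 2} := by
      ext j; simp only [Finset.mem_filter, Finset.mem_Icc, Finset.mem_insert,
        Finset.mem_singleton]; omega
    rw [show 3 * (N + 1) = 3 * N + 3 by ring, Q_add, ih, hf, prod_range_succ,
      Finset.prod_insert (by simp), Finset.prod_singleton]
    ring

lemma Q_139 (N : ℕ) : Q (fun e => e % 3 = 1) (9 * N) =
    ∏ i ∈ range N, (1 + (X : PowerSeries ℤ) ^ (1 + 9 * i)) * (1 + X ^ (4 + 9 * i)) *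
      (1 + X ^ (7 + 9 * i)) := by
  induction N with
  | zero => simp [Q]
  | succ N ih =>
    have hf : (Finset.Icc 1 9).filter (fun j => (9 * N + j) % 3 = 1) = {1, 4, 7} := by
      ext j; simp only [Finset.mem_filter, Finset.mem_Icc, Finset.mem_insert,
        Finset.mem_singleton]; omega
    rw [show 9 * (N + 1) = 9 * N + 9 by ring, Q_add, ih, hf, prod_range_succ,
      Finset.prod_insert (by simp), Finset.prod_insert (by simp), Finset.prod_singleton]
    ring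

lemma Q_239 (N : ℕ) : Q (fun e => e % 3 = 2) (9 * N) =
    ∏ i ∈ range N, (1 + (X : PowerSeries ℤ) ^ (2 + 9 * i)) * (1 + X ^ (5 + 9 * i)) *
      (1 + X ^ (8 + 9 * i)) := by
  induction N with
  | zero => simp [Q]
  | succ N ih =>
    have hf : (Finset.Icc 1 9).filter (fun j => (9 * N + j) % 3 = 2) = {2, 5, 8} := by
      ext j; simp only [Finset.mem_filter, Finset.mem_Icc, Finset.mem_insert,
        Finset.mem_singleton]; omega
    rw [show 9 * (N + 1) = 9 * N + 9 by ring, Q_add, ih, hf, prod_range_succ,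
      Finset.prod_insert (by simp), Finset.prod_insert (by simp), Finset.prod_singleton]
    ring

end PD687
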