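import Pool.Agent.TH687.PD.Switch

namespace PD687

open Finset PowerSeries

section G
variable {S : Type*} [CommRing S]

/-- weights of the six colours `α, βγ, β, αβ, γ, αγ` -/
def wt (α β γ q : S) (k : ℕ) : S :=
  if k % 6 = 1 then α * q ^ ((k - 1) / 6)
  else if k % 6 = 2 then (if k = 2 then 0 else β * γ * q ^ ((k - 1) / 6 - 1))
  else if k % 6 = 3 then β * q ^ ((k - 1) / 6)
  else if k % 6 = 4 then α * β * q ^ ((k - 1) / 6)
  else if k % 6 = 5 then γ * q ^ ((k - 1) / 6)
  else α * γ * q ^ ((k - 1) / 6)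

/-- generating functions of coloured partitions with the gaps of Göllnitz' theorem -/
def G (α β γ q : S) : ℕ → S
  | 0 => 1
  | k + 1 => G α β γ q k + wt α β γ q (k + 1) *
      G α β γ q (k - (if k % 2 = 0 then 5 else 6))
termination_by k => k
decreasing_by all_goals omega

lemma G_zero (α β γ q : S) : G α β γ q 0 = 1 := by rw [G]

lemma G_succ (α β γ q : S) (k : ℕ) : G α β γ q (k + 1) = G α β γ q k + wt α β γ q (k + 1) *
      G α β γ q (k - (if k % 2 = 0 then 5 else 6)) := by rw [G]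

variable (α β γ q : S) (i : ℕ)

lemma G1 : G α β γ q (6 * i + 1) = G α β γ q (6 * i) + α * q ^ i * G α β γ q (6 * i - 5) := by
  rw [G_succ, if_pos (by omega)]
  unfold wt
  rw [if_pos (by omega), show (6 * i + 1 - 1) / 6 = i by omega]

lemma G2 : G α β γ q (6 * (i + 1) + 2) = G α β γ q (6 * (i + 1) + 1) +
    β * γ * q ^ i * G α β γ q (6 * i + 1) := by
  rw [G_succ, if_neg (by omega)]
  unfold wt
  rw [if_neg (by omega), if_pos (by omega), if_neg (by omega),
    show (6 * (i + 1) + 1 + 1 - 1) / 6 - 1 = i by omega,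
    show 6 * (i + 1) + 1 - 6 = 6 * i + 1 by omega]

lemma G2' : G α β γ q 2 = G α β γ q 1 := by
  rw [G_succ α β γ q 1]
  unfold wt
  simp

lemma G3 : G α β γ q (6 * i + 3) = G α β γ q (6 * i + 2) +
    β * q ^ i * G α β γ q (6 * i - 3) := by
  rw [G_succ, if_pos (by omega)]
  unfold wt
  rw [if_neg (by omega), if_neg (by omega), if_pos (by omega),
    show (6 * i + 2 + 1 - 1) / 6 = i by omega, show 6 * i + 2 - 5 = 6 * i - 3 by omega]

lemma G4 : G α β γ q (6 * i + 4) = G α β γ q (6 * i + 3) +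
    α * β * q ^ i * G α β γ q (6 * i - 3) := by
  rw [G_succ, if_neg (by omega)]
  unfold wt
  rw [if_neg (by omega), if_neg (by omega), if_neg (by omega), if_pos (by omega),
    show (6 * i + 3 + 1 - 1) / 6 = i by omega, show 6 * i + 3 - 6 = 6 * i - 3 by omega]

lemma G5 : G α β γ q (6 * i + 5) = G α β γ q (6 * i + 4) +
    γ * q ^ i * G α β γ q (6 * i - 1) := by
  rw [G_succ, if_pos (by omega)]
  unfold wt
  rw [if_neg (by omega), if_neg (by omega), if_neg (by omega), if_neg (by omega),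
    if_pos (by omega),
    show (6 * i + 4 + 1 - 1) / 6 = i by omega, show 6 * i + 4 - 5 = 6 * i - 1 by omega]

lemma G6 : G α β γ q (6 * i + 6) = G α β γ q (6 * i + 5) +
    α * γ * q ^ i * G α β γ q (6 * i - 1) := by
  rw [G_succ, if_neg (by omega)]
  unfold wt
  rw [if_neg (by omega), if_neg (by omega), if_neg (by omega), if_neg (by omega),
    if_neg (by omega),
    show (6 * i + 5 + 1 - 1) / 6 = i by omega, show 6 * i + 5 - 6 = 6 * i - 1 by omega]

/-- The six relations between the parameters `(α,β,γ)` and `(β,γ,αq)`. -/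
lemma G_rel (i : ℕ) :
    ((α * q + β * γ) * G α β γ q (6 * i + 1) = (1 + α) * (α * q * G β γ (α * q) q (6 * i - 1) +
      β * γ * G β γ (α * q) q (6 * i - 3))) ∧
    (G α β γ q (6 * i + 2) = (1 + α) * G β γ (α * q) q (6 * i - 1)) ∧
    (G α β γ q (6 * i + 3) = G β γ (α * q) q (6 * i + 1) + α * G β γ (α * q) q (6 * i - 1)) ∧
    (G α β γ q (6 * i + 4) = (1 + α) * G β γ (α * q) q (6 * i + 1)) ∧
    (G α β γ q (6 * i + 5) = G β γ (α * q) q (6 * i + 3) + α * G β γ (α * q) q (6 * i + 1)) ∧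
    (G α β γ q (6 * i + 6) = (1 + α) * G β γ (α * q) q (6 * i + 3)) := by
  induction i with
  | zero =>
    have u1 := G1 α β γ q 0
    have u2 := G2' α β γ q
    have u3 := G3 α β γ q 0
    have u4 := G4 α β γ q 0
    have u5 := G5 α β γ q 0
    have u6 := G6 α β γ q 0
    have v1 := G1 β γ (α * q) q 0
    have v2 := G2' β γ (α * q) q
    have v3 := G3 β γ (α * q) q 0
    simp only [Nat.mul_zero, Nat.zero_sub, Nat.zero_add, G_zero, pow_zero, mul_one] at *
    refine ⟨?_, ?_, ?_, ?_, ?_, ?_⟩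
    · rw [u1]; ring
    · rw [u2, u1]
    · rw [u3, u2, u1, v1]; ring
    · rw [u4, u3, u2, u1, v1]; ring
    · rw [u5, u4, u3, u2, u1, v3, v2, v1]; ring
    · rw [u6, u5, u4, u3, u2, u1, v3, v2, v1]; ring
  | succ i ih =>
    obtain ⟨r1, r2, r3, r4, r5, r6⟩ := ih
    have u1 := G1 α β γ q (i + 1)
    have u2 := G2 α β γ q i
    have u3 := G3 α β γ q (i + 1)
    have u4 := G4 α β γ q (i + 1)
    have u5 := G5 α β γ q (i + 1)
    have u6 := G6 α β γ q (i + 1)
    have v4 := G4 β γ (α * q) q i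
    have v5 := G5 β γ (α * q) q i
    have v6 := G6 β γ (α * q) q i
    have v7 := G1 β γ (α * q) q (i + 1)
    have v8 := G2 β γ (α * q) q i
    have v9 := G3 β γ (α * q) q (i + 1)
    rw [show 6 * (i + 1) - 5 = 6 * i + 1 by omega] at u1 v7
    rw [show 6 * (i + 1) - 3 = 6 * i + 3 by omega] at u3 u4 v9
    rw [show 6 * (i + 1) - 1 = 6 * i + 5 by omega] at u5 u6
    rw [show 6 * (i + 1) - 1 = 6 * i + 5 by omega, show 6 * (i + 1) - 3 = 6 * i + 3 by omega]
    rw [show 6 * i + 6 = 6 * (i + 1) by ring] at r6 v6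
    -- abbreviations
    have s2 : G α β γ q (6 * (i + 1) + 2) = (1 + α) * G β γ (α * q) q (6 * i + 5) := by
      linear_combination u2 + u1 + r6 + q ^ i * r1 - (1 + α) * v5 - (1 + α) * v4
    have s3 : G α β γ q (6 * (i + 1) + 3) = G β γ (α * q) q (6 * (i + 1) + 1) +
        α * G β γ (α * q) q (6 * i + 5) := by
      linear_combination u3 + s2 + β * q ^ (i + 1) * r3 - v7 - v6
    have s4 : G α β γ q (6 * (i + 1) + 4) = (1 + α) * G β γ (α * q) q (6 * (i + 1) + 1) := by
      linear_combination u4 + u3 + s2 + (1 + α) * β * q ^ (i + 1) * r3 - (1 + α) * v7 -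
        (1 + α) * v6
    have s5 : G α β γ q (6 * (i + 1) + 5) = G β γ (α * q) q (6 * (i + 1) + 3) +
        α * G β γ (α * q) q (6 * (i + 1) + 1) := by
      linear_combination u5 + s4 + γ * q ^ (i + 1) * r5 - v9 - v8
    have s6 : G α β γ q (6 * (i + 1) + 6) = (1 + α) * G β γ (α * q) q (6 * (i + 1) + 3) := by
      linear_combination u6 + u5 + s4 + (1 + α) * γ * q ^ (i + 1) * r5 - (1 + α) * v9 -
        (1 + α) * v8
    refine ⟨?_, s2, s3, s4, s5, s6⟩
    linear_combination (α * q + β * γ) * u1 + (α * q + β * γ) * r6 + α * q ^ (i + 1) * r1 -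
      (1 + α) * α * q * v5 - (1 + α) * α * q * v4

end G

section limit
variable {S : Type*} [CommRing S] {x : S} {K : ℕ}

lemma wt_zero (hx : x ^ K = 0) (a c d m : ℕ) (hm : 1 ≤ m) (k : ℕ) (hk : 6 * K + 12 ≤ k) :
    wt (x ^ a) (x ^ c) (x ^ d) (x ^ m) k = 0 := by
  have h1 : (x ^ m) ^ ((k - 1) / 6) = 0 := by
    rw [← pow_mul]; apply pow_zero_of hx
    have : K ≤ (k - 1) / 6 := by omega
    nlinarith
  have h2 : (x ^ m) ^ ((k - 1) / 6 - 1) = 0 := by
    rw [← pow_mul]; apply pow_zero_of hx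
    have : K ≤ (k - 1) / 6 - 1 := by omega
    nlinarith
  unfold wt
  rw [h1, h2]
  simp

lemma G_stable (hx : x ^ K = 0) (a c d m : ℕ) (hm : 1 ≤ m) (j : ℕ) :
    G (x ^ a) (x ^ c) (x ^ d) (x ^ m) (6 * K + 12 + j) =
      G (x ^ a) (x ^ c) (x ^ d) (x ^ m) (6 * K + 12) := by
  induction j with
  | zero => rfl
  | succ j ih =>
    rw [← add_assoc, G_succ, wt_zero hx a c d m hm _ (by omega), ih]
    ring

/-- the limit -/
def Glim (x : S) (K a c d m : ℕ) : S := G (x ^ a) (x ^ c) (x ^ d) (x ^ m) (6 * K + 12)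

lemma Glim_eq (hx : x ^ K = 0) (a c d m : ℕ) (hm : 1 ≤ m) (k : ℕ) (hk : 6 * K + 12 ≤ k) :
    G (x ^ a) (x ^ c) (x ^ d) (x ^ m) k = Glim x K a c d m := by
  obtain ⟨j, rfl⟩ := Nat.exists_eq_add_of_le hk
  exact G_stable hx a c d m hm j

lemma Glim_funct (hx : x ^ K = 0) (a c d m : ℕ) (hm : 1 ≤ m) :
    Glim x K a c d m = (1 + x ^ a) * Glim x K c d (a + m) m := by
  have h := (G_rel (x ^ a) (x ^ c) (x ^ d) (x ^ m) (K + 3)).2.1
  rw [← pow_add] at h
  rw [Glim_eq hx a c d m hm _ (by omega), Glim_eq hx c d (a + m) m hm _ (by omega)] at h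
  exact h

lemma Glim_three (hx : x ^ K = 0) (a c d m : ℕ) (hm : 1 ≤ m) :
    Glim x K a c d m = (1 + x ^ a) * (1 + x ^ c) * (1 + x ^ d) *
      Glim x K (a + m) (c + m) (d + m) m := by
  rw [Glim_funct hx a c d m hm, Glim_funct hx c d (a + m) m hm, Glim_funct hx d (a + m) (c + m) m hm]
  ring

lemma Glim_iter (hx : x ^ K = 0) (a c d m : ℕ) (hm : 1 ≤ m) (N : ℕ) :
    Glim x K a c d m = (∏ i ∈ range N, (1 + x ^ (a + m * i)) * (1 + x ^ (c + m * i)) *
      (1 + x ^ (d + m * i))) * Glim x K (a + m * N) (c + m * N) (d + m * N) m := by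
  induction N with
  | zero => simp
  | succ N ih =>
    rw [ih, prod_range_succ, Glim_three hx (a + m * N) (c + m * N) (d + m * N) m hm,
      show a + m * N + m = a + m * (N + 1) by ring, show c + m * N + m = c + m * (N + 1) by ring,
      show d + m * N + m = d + m * (N + 1) by ring]
    ring

lemma G_one (hx : x ^ K = 0) (a c d m : ℕ) (ha : K ≤ a) (hc : K ≤ c) (hd : K ≤ d) (k : ℕ) :
    G (x ^ a) (x ^ c) (x ^ d) (x ^ m) k = 1 := by
  rw [pow_zero_of hx ha, pow_zero_of hx hc, pow_zero_of hx hd]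
  induction k with
  | zero => rw [G_zero]
  | succ k ih =>
    rw [G_succ, ih]
    have : wt (0 : S) 0 0 (x ^ m) (k + 1) = 0 := by unfold wt; simp
    rw [this]; ring

theorem Glim_prod (hx : x ^ K = 0) (a c d m : ℕ) (hm : 1 ≤ m) (N : ℕ) (hN : K ≤ N) :
    Glim x K a c d m = ∏ i ∈ range N, (1 + x ^ (a + m * i)) * (1 + x ^ (c + m * i)) *
      (1 + x ^ (d + m * i)) := by
  have h1 : K ≤ a + m * N := by nlinarith
  have h2 : K ≤ c + m * N := by nlinarith
  have h3 : K ≤ d + m * N := by nlinarith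
  rw [Glim_iter hx a c d m hm N]
  unfold Glim
  rw [G_one hx _ _ _ m h1 h2 h3, mul_one]

end limit

lemma wt_map {S S' : Type*} [CommRing S] [CommRing S'] (f : S →+* S') (α β γ q : S) (k : ℕ) :
    f (wt α β γ q k) = wt (f α) (f β) (f γ) (f q) k := by
  unfold wt
  split_ifs <;> simp

lemma G_map {S S' : Type*} [CommRing S] [CommRing S'] (f : S →+* S') (α β γ q : S) (k : ℕ) :
    f (G α β γ q k) = G (f α) (f β) (f γ) (f q) k := by
  induction k using Nat.strong_induction_on with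
  | _ k ih =>
    match k with
    | 0 => rw [G_zero, G_zero, map_one]
    | k + 1 =>
      rw [G_succ, G_succ, map_add, map_mul, wt_map, ih k (by omega), ih _ (by split_ifs <;> omega)]

end PD687
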