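import Pool.Agent.TH687.PD.Basic

namespace PD687

open Finset PowerSeries

section tilings
variable {S : Type*} [CommRing S]

/-- weighted tilings of the `m` sites `s, …, s+m-1` by empty sites, filled sites (weight
`x^(2j)` at site `j`) and dominoes `{j-1,j}` (weight `x^(2j+α)`). -/
def W (x : S) (α s : ℕ) : ℕ → S
  | 0 => 1
  | 1 => 1 + x ^ (2 * s)
  | m + 2 => (1 + x ^ (2 * (s + m + 1))) * W x α s (m + 1) + x ^ (2 * (s + m + 1) + α) * W x α s m

lemma W_left (x : S) (α : ℕ) : ∀ m s, W x α s (m + 2) =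
    (1 + x ^ (2 * s)) * W x α (s + 1) (m + 1) + x ^ (2 * (s + 1) + α) * W x α (s + 2) m
  | 0, s => by simp only [W]; ring
  | 1, s => by simp only [W]; ring
  | m + 2, s => by
    have h1 := W_left x α (m + 1) s
    have h2 := W_left x α m s
    have e1 : W x α s (m + 2 + 2) = (1 + x ^ (2 * (s + (m + 2) + 1))) * W x α s (m + 2 + 1) +
      x ^ (2 * (s + (m + 2) + 1) + α) * W x α s (m + 2) := by rw [W]
    have e2 : W x α (s + 1) (m + 2 + 1) = (1 + x ^ (2 * ((s + 1) + (m + 1) + 1))) *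
      W x α (s + 1) (m + 1 + 1) + x ^ (2 * ((s + 1) + (m + 1) + 1) + α) * W x α (s + 1) (m + 1) := by
      rw [W]
    have e3 : W x α (s + 2) (m + 2) = (1 + x ^ (2 * ((s + 2) + m + 1))) *
      W x α (s + 2) (m + 1) + x ^ (2 * ((s + 2) + m + 1) + α) * W x α (s + 2) m := by rw [W]
    rw [e1, e2, e3]
    have e4 : m + 2 + 1 = m + 1 + 2 := by ring
    have e5 : m + 1 + 1 = m + 2 := by ring
    rw [e4, h1, h2]
    simp only [e5]
    rw [show s + (m + 2) + 1 = s + m + 3 by ring, show (s + 1) + (m + 1) + 1 = s + m + 3 by ring,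
      show s + 2 + m + 1 = s + m + 3 by ring]
    ring

variable {x : S} {K : ℕ}

lemma pow_zero_of (hx : x ^ K = 0) {e : ℕ} (he : K ≤ e) : x ^ e = 0 := by
  obtain ⟨t, rfl⟩ := Nat.exists_eq_add_of_le he
  rw [pow_add, hx, zero_mul]

lemma W_stable (hx : x ^ K = 0) (hK : 1 ≤ K) (α s m : ℕ) (hm : K ≤ m) :
    W x α s (m + 1) = W x α s m := by
  obtain ⟨t, rfl⟩ : ∃ t, m = t + 1 := ⟨m - 1, by omega⟩
  rw [W, pow_zero_of hx (e := 2 * (s + t + 1)) (by omega),
    pow_zero_of hx (e := 2 * (s + t + 1) + α) (by omega)]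
  ring

lemma W_one (hx : x ^ K = 0) (α s : ℕ) (hs : K ≤ s) : ∀ m, W x α s m = 1
  | 0 => rfl
  | 1 => by rw [W, pow_zero_of hx (e := 2 * s) (by omega)]; ring
  | m + 2 => by
    rw [W, pow_zero_of hx (e := 2 * (s + m + 1)) (by omega),
      pow_zero_of hx (e := 2 * (s + m + 1) + α) (by omega), W_one hx α s hs (m + 1)]
    ring

/-- all the sites from `s` on -/
def T (x : S) (K : ℕ) (s α : ℕ) : S := W x α s K

lemma T_rec (hx : x ^ K = 0) (hK : 1 ≤ K) (s α : ℕ) : T x K s α =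
    (1 + x ^ (2 * s)) * T x K (s + 1) α + x ^ (2 * (s + 1) + α) * T x K (s + 2) α := by
  unfold T
  have h1 := W_left x α K s
  rw [show K + 2 = K + 1 + 1 by ring, W_stable hx hK α s (K + 1) (by omega),
    W_stable hx hK α s K le_rfl, W_stable hx hK α (s + 1) K le_rfl] at h1
  exact h1

lemma T_top (hx : x ^ K = 0) (s α : ℕ) (hs : K ≤ s) : T x K s α = 1 := W_one hx α s hs K

lemma D_aux (hx : x ^ K = 0) (hK : 1 ≤ K) (α : ℕ) : ∀ j s, K ≤ s + j →
    T x K s α - T x K s (α + 2) = x ^ (α + 2 * (s + 1)) * T x K (s + 1) (α + 2)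
  | 0, s, h => by
    rw [T_top hx s α (by omega), T_top hx s (α + 2) (by omega),
      pow_zero_of hx (e := α + 2 * (s + 1)) (by omega)]
    ring
  | 1, s, h => by
    have d1 := D_aux hx hK α 0 (s + 1) (by omega)
    have d2 := D_aux hx hK α 0 (s + 2) (by omega)
    have r1 := T_rec hx hK s α
    have r2 := T_rec hx hK s (α + 2)
    have r3 := T_rec hx hK (s + 1) (α + 2)
    linear_combination r1 - r2 + (1 + x ^ (2 * s)) * d1 + x ^ (α + 2 * (s + 1)) * d2 -
      x ^ (α + 2 * (s + 1)) * r3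
  | j + 2, s, h => by
    have d1 := D_aux hx hK α (j + 1) (s + 1) (by omega)
    have d2 := D_aux hx hK α j (s + 2) (by omega)
    have r1 := T_rec hx hK s α
    have r2 := T_rec hx hK s (α + 2)
    have r3 := T_rec hx hK (s + 1) (α + 2)
    linear_combination r1 - r2 + (1 + x ^ (2 * s)) * d1 + x ^ (α + 2 * (s + 1)) * d2 -
      x ^ (α + 2 * (s + 1)) * r3

lemma D_rel (hx : x ^ K = 0) (hK : 1 ≤ K) (s α : ℕ) :
    T x K s α - T x K s (α + 2) = x ^ (α + 2 * (s + 1)) * T x K (s + 1) (α + 2) :=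
  D_aux hx hK α K s (by omega)

lemma E_rel (hx : x ^ K = 0) (hK : 1 ≤ K) (s α : ℕ) :
    T x K s α + x ^ (α + 2) * T x K (s + 1) α = (1 + x ^ (α + 2)) * T x K s (α + 2) := by
  have d1 := D_rel hx hK s α
  have d2 := D_rel hx hK (s + 1) α
  have r := T_rec hx hK s (α + 2)
  linear_combination d1 + x ^ (α + 2) * d2 - x ^ (α + 2) * r

lemma T_funct (hx : x ^ K = 0) (hK : 1 ≤ K) (α : ℕ) :
    T x K 1 α = (1 + x ^ (α + 4)) * T x K 1 (α + 4) := by
  have d1 := D_rel hx hK 1 α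
  have e1 := E_rel hx hK 1 (α + 2)
  have h : T x K (1 + 1) (α + 2) = T x K 2 (α + 2) := rfl
  rw [show α + 2 + 2 = α + 4 by ring] at e1
  linear_combination d1 + e1

lemma T_iter (hx : x ^ K = 0) (hK : 1 ≤ K) (α N : ℕ) :
    T x K 1 α = (∏ i ∈ range N, (1 + x ^ (α + 4 * (i + 1)))) * T x K 1 (α + 4 * N) := by
  induction N with
  | zero => simp
  | succ N ih =>
    rw [ih, prod_range_succ, T_funct hx hK (α + 4 * N),
      show α + 4 * N + 4 = α + 4 * (N + 1) by ring]
    ring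

lemma T_big (hx : x ^ K = 0) (hK : 1 ≤ K) (β N : ℕ) (hβ : K ≤ β) :
    T x K 1 β = (∏ j ∈ range N, (1 + x ^ (2 * (j + 1)))) * T x K (N + 1) β := by
  induction N with
  | zero => simp
  | succ N ih =>
    rw [ih, prod_range_succ, T_rec hx hK (N + 1) β,
      pow_zero_of hx (e := 2 * (N + 1 + 1) + β) (by omega)]
    ring

lemma T_prod (hx : x ^ K = 0) (hK : 1 ≤ K) (α N N' : ℕ) (hN : K ≤ N) (hN' : K ≤ N') :
    T x K 1 α = (∏ i ∈ range N', (1 + x ^ (α + 4 * (i + 1)))) *
      ∏ j ∈ range N, (1 + x ^ (2 * (j + 1))) := by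
  rw [T_iter hx hK α N', T_big hx hK (α + 4 * N') N (by omega), T_top hx (N + 1) _ (by omega)]
  ring

end tilings

lemma W_map {S S' : Type*} [CommRing S] [CommRing S'] (f : S →+* S') (x : S) (α s : ℕ) :
    ∀ m, f (W x α s m) = W (f x) α s m
  | 0 => by simp [W]
  | 1 => by simp [W]
  | m + 2 => by simp only [W, map_add, map_mul, map_pow, map_one, W_map f x α s (m + 1),
      W_map f x α s m]

/-- the gap sequence `b_1, …, b_M` given as a list -/
def gaps (L : List ℕ) (j : ℕ) : ℕ := L.getD (j - 1) 1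

lemma gaps4 (u v e : ℕ) : gaps [u, v, u, v] (cls 4 e) = if e % 2 = 1 then u else v := by
  unfold cls
  have h : e % 4 = 0 ∨ e % 4 = 1 ∨ e % 4 = 2 ∨ e % 4 = 3 := by omega
  rcases h with h | h | h | h
  · have : e % 2 = 0 := by omega
    simp [h, this, gaps]
  · have : e % 2 = 1 := by omega
    simp [h, this, gaps]
  · have : e % 2 = 0 := by omega
    simp [h, this, gaps]
  · have : e % 2 = 1 := by omega
    simp [h, this, gaps]

lemma P_congr {ok ok' : ℕ → Prop} [DecidablePred ok] [DecidablePred ok'] {d d' : ℕ → ℕ}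
    (h : ∀ e, ok e ↔ ok' e) (h' : ∀ e, 1 ≤ e → d e = d' e) (k : ℕ) :
    P ok d k = P ok' d' k := by
  induction k using Nat.strong_induction_on with
  | _ k ih =>
    match k with
    | 0 => rw [P, P]
    | k + 1 =>
      rw [P, P, ih k (by omega), h' (k + 1) (by omega), ih _ (by omega)]
      simp only [h (k + 1)]

lemma Q_succ (r : ℕ → Prop) [DecidablePred r] (k : ℕ) :
    Q r (k + 1) = Q r k * (if r (k + 1) then (1 + X ^ (k + 1)) else 1) := by
  unfold Q
  rw [← Finset.insert_Icc_right_eq_Icc_add_one (by omega), Finset.filter_insert]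
  split_ifs with h
  · rw [Finset.prod_insert (by simp), mul_comm]
  · rw [mul_one]

/-- Equality of coefficients from equality modulo `X^K`. -/
lemma coeff_eq_of_mk {f g : PowerSeries ℤ} {K n : ℕ} (hn : n < K)
    (h : Ideal.Quotient.mk (Ideal.span {(X : PowerSeries ℤ) ^ K}) f =
      Ideal.Quotient.mk (Ideal.span {(X : PowerSeries ℤ) ^ K}) g) : coeff n f = coeff n g := by
  rw [Ideal.Quotient.eq, Ideal.mem_span_singleton, X_pow_dvd_iff] at h
  have := h n hn
  rw [map_sub] at this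
  linarith

end PD687
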