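import Pool.Agent.TH687.PD.ModFour

namespace PD687

open Finset PowerSeries

lemma P_zero (ok : ℕ → Prop) [DecidablePred ok] (d : ℕ → ℕ) : P ok d 0 = 1 := by rw [P]

lemma P_succ (ok : ℕ → Prop) [DecidablePred ok] (d : ℕ → ℕ) (k : ℕ) : P ok d (k + 1) =
    P ok d k + (if ok (k + 1) then X ^ (k + 1) * P ok d (k - (d (k + 1) - 1)) else 0) := by
  rw [P]

/-- gap function of the system `(4,1,4,1)` -/
def d41 (e : ℕ) : ℕ := if e % 2 = 1 then 4 else 1

/-- the even step, for `2k+4` and the odd step, for `2k+5` -/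
lemma P41_step (ok : ℕ → Prop) [DecidablePred ok] (h : ∀ e, 4 ≤ e → ok e) (k : ℕ) :
    P ok d41 (2 * k + 5) = (1 + X ^ (2 * k + 4)) * P ok d41 (2 * k + 3) +
      X ^ (2 * k + 5) * P ok d41 (2 * k + 1) := by
  rw [P_succ ok d41 (2 * k + 4), P_succ ok d41 (2 * k + 3), if_pos (h _ (by omega)),
    if_pos (h _ (by omega))]
  have h1 : d41 (2 * k + 4 + 1) = 4 := by unfold d41; rw [if_pos (by omega)]
  have h2 : d41 (2 * k + 3 + 1) = 1 := by unfold d41; rw [if_neg (by omega)]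
  rw [h1, h2, show 2 * k + 4 - (4 - 1) = 2 * k + 1 by omega,
    show 2 * k + 3 - (1 - 1) = 2 * k + 3 by omega]
  ring

/-- the system with `C = {3}` -/
lemma P_sys1 : ∀ k, P (fun e => e ≠ 3) d41 (2 * k + 1) = (1 + X) * W (X : PowerSeries ℤ) 1 1 k
  | 0 => by
    rw [show 2 * 0 + 1 = 0 + 1 by ring, P_succ, P_zero]
    simp [W, P_zero]
  | 1 => by
    rw [show 2 * 1 + 1 = 2 + 1 by ring, P_succ, if_neg (by simp), P_succ _ _ 1, if_pos (by simp),
      P_succ _ _ 0, if_pos (by simp), P_zero]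
    have h2 : d41 (1 + 1) = 1 := by unfold d41; rw [if_neg (by omega)]
    have h1 : d41 (0 + 1) = 4 := by unfold d41; rw [if_pos (by omega)]
    rw [h2, h1, show 1 - (1 - 1) = 0 + 1 by rfl, P_succ _ _ 0, if_pos (by simp), P_zero, h1,
      show 0 - (4 - 1) = 0 by rfl, P_zero]
    simp only [W]
    ring
  | k + 2 => by
    rw [show 2 * (k + 2) + 1 = 2 * k + 5 by ring, P41_step _ (by intro e he; omega) k,
      show 2 * k + 3 = 2 * (k + 1) + 1 by ring, P_sys1 (k + 1), P_sys1 k, W,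
      show 2 * (1 + k + 1) + 1 = 2 * k + 5 by ring, show 2 * (1 + k + 1) = 2 * k + 4 by ring]
    ring

/-- the system with `C = {1}` -/
lemma P_sys2 : ∀ k, P (fun e => e ≠ 1) d41 (2 * (k + 1) + 1) =
    W (X : PowerSeries ℤ) 1 1 (k + 1) + X ^ 3 * W (X : PowerSeries ℤ) 1 2 k
  | 0 => by
    have h3 : d41 (2 + 1) = 4 := by unfold d41; rw [if_pos (by omega)]
    have h2 : d41 (1 + 1) = 1 := by unfold d41; rw [if_neg (by omega)]
    rw [show 2 * (0 + 1) + 1 = 2 + 1 by ring, P_succ, if_pos (by simp), P_succ _ _ 1,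
      if_pos (by simp), h2, h3, show 1 - (1 - 1) = 0 + 1 by rfl, show 2 - (4 - 1) = 0 by rfl,
      show (1 : ℕ) = 0 + 1 by rfl, P_succ _ _ 0, if_neg (by simp), P_zero]
    simp only [W]
    ring
  | 1 => by
    have h3 : d41 (2 + 1) = 4 := by unfold d41; rw [if_pos (by omega)]
    have h2 : d41 (1 + 1) = 1 := by unfold d41; rw [if_neg (by omega)]
    rw [show 2 * (1 + 1) + 1 = 2 * 0 + 5 by ring, P41_step _ (by intro e he; omega) 0,
      show 2 * 0 + 3 = 2 + 1 by ring, P_succ _ _ 2, if_pos (by simp), P_succ _ _ 1,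
      if_pos (by simp), h2, h3, show 1 - (1 - 1) = 0 + 1 by rfl, show 2 - (4 - 1) = 0 by rfl,
      show 2 * 0 + 1 = 0 + 1 by ring, show (1 : ℕ) = 0 + 1 by rfl, P_succ _ _ 0,
      if_neg (by simp), P_zero]
    simp only [W]
    ring
  | k + 2 => by
    rw [show 2 * (k + 2 + 1) + 1 = 2 * (k + 1) + 5 by ring,
      P41_step _ (by intro e he; omega) (k + 1),
      show 2 * (k + 1) + 3 = 2 * (k + 1 + 1) + 1 by ring, P_sys2 (k + 1), P_sys2 k]
    have e1 : W (X : PowerSeries ℤ) 1 1 (k + 2 + 1) = (1 + X ^ (2 * (1 + (k + 1) + 1))) *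
        W X 1 1 (k + 1 + 1) + X ^ (2 * (1 + (k + 1) + 1) + 1) * W X 1 1 (k + 1) := by
      rw [show k + 2 + 1 = k + 1 + 2 by ring, W]
    have e2 : W (X : PowerSeries ℤ) 1 2 (k + 2) = (1 + X ^ (2 * (2 + k + 1))) *
        W X 1 2 (k + 1) + X ^ (2 * (2 + k + 1) + 1) * W X 1 2 k := by
      rw [W]
    rw [e1, e2]
    ring

/-- the product side for `R = {1,2,4}` -/
lemma Q124 (K : ℕ) : Q (fun e => ∃ a ∈ ({1, 2, 4} : Finset ℕ), e ≡ a [MOD 4]) (4 * K) =
    (∏ i ∈ range K, (1 + (X : PowerSeries ℤ) ^ (4 * i + 1))) *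
      ∏ j ∈ range (2 * K), (1 + X ^ (2 * (j + 1))) := by
  induction K with
  | zero => simp [Q]
  | succ K ih =>
    rw [show 4 * (K + 1) = 4 * K + 3 + 1 by ring, Q_succ, show 4 * K + 3 = 4 * K + 2 + 1 by ring,
      Q_succ, show 4 * K + 2 = 4 * K + 1 + 1 by ring, Q_succ, Q_succ, ih,
      show 2 * (K + 1) = 2 * K + 1 + 1 by ring, prod_range_succ _ (2 * K + 1),
      prod_range_succ _ (2 * K), prod_range_succ _ K]
    have e1 : (∃ a ∈ ({1, 2, 4} : Finset ℕ), 4 * K + 1 ≡ a [MOD 4]) :=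
      ⟨1, by simp, by unfold Nat.ModEq; omega⟩
    have e2 : (∃ a ∈ ({1, 2, 4} : Finset ℕ), 4 * K + 1 + 1 ≡ a [MOD 4]) :=
      ⟨2, by simp, by unfold Nat.ModEq; omega⟩
    have e3 : ¬ (∃ a ∈ ({1, 2, 4} : Finset ℕ), 4 * K + 1 + 1 + 1 ≡ a [MOD 4]) := by
      unfold Nat.ModEq
      simp only [Finset.mem_insert, Finset.mem_singleton]
      rintro ⟨a, ha, h⟩
      rcases ha with rfl | rfl | rfl <;> omega
    have e4 : (∃ a ∈ ({1, 2, 4} : Finset ℕ), 4 * K + 1 + 1 + 1 + 1 ≡ a [MOD 4]) :=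
      ⟨4, by simp, by unfold Nat.ModEq; omega⟩
    rw [if_pos e1, if_pos e2, if_neg e3, if_pos e4]
    ring

/-- the product side for `R = {2,3,4}` -/
lemma Q234 (K : ℕ) : Q (fun e => ∃ a ∈ ({2, 3, 4} : Finset ℕ), e ≡ a [MOD 4]) (4 * K) =
    (∏ i ∈ range K, (1 + (X : PowerSeries ℤ) ^ (4 * i + 3))) *
      ∏ j ∈ range (2 * K), (1 + X ^ (2 * (j + 1))) := by
  induction K with
  | zero => simp [Q]
  | succ K ih =>
    rw [show 4 * (K + 1) = 4 * K + 3 + 1 by ring, Q_succ, show 4 * K + 3 = 4 * K + 2 + 1 by ring,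
      Q_succ, show 4 * K + 2 = 4 * K + 1 + 1 by ring, Q_succ, Q_succ, ih,
      show 2 * (K + 1) = 2 * K + 1 + 1 by ring, prod_range_succ _ (2 * K + 1),
      prod_range_succ _ (2 * K), prod_range_succ _ K]
    have e3 : (∃ a ∈ ({2, 3, 4} : Finset ℕ), 4 * K + 1 + 1 + 1 ≡ a [MOD 4]) :=
      ⟨3, by simp, by unfold Nat.ModEq; omega⟩
    have e2 : (∃ a ∈ ({2, 3, 4} : Finset ℕ), 4 * K + 1 + 1 ≡ a [MOD 4]) :=
      ⟨2, by simp, by unfold Nat.ModEq; omega⟩
    have e1 : ¬ (∃ a ∈ ({2, 3, 4} : Finset ℕ), 4 * K + 1 ≡ a [MOD 4]) := by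
      unfold Nat.ModEq
      simp only [Finset.mem_insert, Finset.mem_singleton]
      rintro ⟨a, ha, h⟩
      rcases ha with rfl | rfl | rfl <;> omega
    have e4 : (∃ a ∈ ({2, 3, 4} : Finset ℕ), 4 * K + 1 + 1 + 1 + 1 ≡ a [MOD 4]) :=
      ⟨4, by simp, by unfold Nat.ModEq; omega⟩
    rw [if_neg e1, if_pos e2, if_pos e3, if_pos e4]
    ring

lemma mk_pow_zero (K : ℕ) : (Ideal.Quotient.mk (Ideal.span {(X : PowerSeries ℤ) ^ K}) X) ^ K
    = 0 := by
  rw [← map_pow, Ideal.Quotient.eq_zero_iff_mem, Ideal.mem_span_singleton]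

theorem modFour_one (n : ℕ) :
    A {1, 2, 4} 4 n = B0 (gaps [4, 1, 4, 1]) 4 {3} n := by
  set K := n + 1 with hK
  have hx := mk_pow_zero K
  set x := Ideal.Quotient.mk (Ideal.span {(X : PowerSeries ℤ) ^ K}) X with hxdef
  have hb : ∀ j, 1 ≤ j → j ≤ 4 → 1 ≤ gaps [4, 1, 4, 1] j := by
    intro j h1 h2
    interval_cases j <;> simp [gaps]
  have key : coeff n (Q (fun e => ∃ a ∈ ({1, 2, 4} : Finset ℕ), e ≡ a [MOD 4]) (4 * (K + 1))) =
      coeff n (P (fun e => e ≠ 3) d41 (2 * K + 1)) := by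
    apply coeff_eq_of_mk (K := K) (by omega)
    rw [Q124, P_sys1]
    simp only [map_mul, map_prod, map_add, map_pow, map_one, W_map, ← hxdef]
    have := T_prod hx (by omega) 1 (2 * (K + 1)) K (by omega) le_rfl
    unfold T at this
    rw [this, prod_range_succ']
    rw [show 4 * 0 + 1 = 1 by ring, pow_one]
    have h2 : ∀ i, 1 + 4 * (i + 1) = 4 * (i + 1) + 1 := fun i => by ring
    simp only [h2]
    ring
  rw [coeff_Q_A _ _ n _ (by omega)] at key
  have h3 : coeff n (P (fun e => e ∉ ({3} : Finset ℕ)) (fun e => gaps [4, 1, 4, 1] (cls 4 e))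
      (2 * K + 1)) = (B0 (gaps [4, 1, 4, 1]) 4 {3} n : ℤ) :=
    coeff_P_B0 _ 4 (by norm_num) hb {3} n _ (by omega)
  rw [P_congr (ok' := fun e => e ≠ 3) (d' := d41) (by simp)
    (by intro e _; rw [gaps4]; rfl)] at h3
  rw [h3] at key
  exact_mod_cast key

theorem modFour_two (n : ℕ) :
    A {2, 3, 4} 4 n = B0 (gaps [4, 1, 4, 1]) 4 {1} n := by
  set K := n + 1 with hK
  have hx := mk_pow_zero K
  set x := Ideal.Quotient.mk (Ideal.span {(X : PowerSeries ℤ) ^ K}) X with hxdef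
  have hb : ∀ j, 1 ≤ j → j ≤ 4 → 1 ≤ gaps [4, 1, 4, 1] j := by
    intro j h1 h2
    interval_cases j <;> simp [gaps]
  have key : coeff n (Q (fun e => ∃ a ∈ ({2, 3, 4} : Finset ℕ), e ≡ a [MOD 4]) (4 * (K + 1))) =
      coeff n (P (fun e => e ≠ 1) d41 (2 * (K + 1) + 1)) := by
    apply coeff_eq_of_mk (K := K) (by omega)
    rw [Q234, P_sys2]
    simp only [map_mul, map_prod, map_add, map_pow, map_one, W_map, ← hxdef]
    rw [W_stable hx (by omega) 1 1 K le_rfl]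
    have h0 := E_rel hx (by omega) 1 1
    have h1 := T_prod hx (by omega) 3 (2 * (K + 1)) K (by omega) le_rfl
    unfold T at h0 h1
    norm_num at h0
    rw [h0, h1, prod_range_succ']
    have h2 : ∀ i, 3 + 4 * (i + 1) = 4 * (i + 1) + 3 := fun i => by ring
    simp only [h2]
    ring
  rw [coeff_Q_A _ _ n _ (by omega)] at key
  have h3 : coeff n (P (fun e => e ∉ ({1} : Finset ℕ)) (fun e => gaps [4, 1, 4, 1] (cls 4 e))
      (2 * (K + 1) + 1)) = (B0 (gaps [4, 1, 4, 1]) 4 {1} n : ℤ) :=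
    coeff_P_B0 _ 4 (by norm_num) hb {1} n _ (by omega)
  rw [P_congr (ok' := fun e => e ≠ 1) (d' := d41) (by simp)
    (by intro e _; rw [gaps4]; rfl)] at h3
  rw [h3] at key
  exact_mod_cast key

end PD687
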