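import Pool.Agent.TH687.PD.Gollnitz

namespace PD687

open Finset PowerSeries

lemma B0_congr {b b' : ℕ → ℕ} {M M' : ℕ} (h : ∀ e, b (cls M e) = b' (cls M' e)) (C : Finset ℕ)
    (n : ℕ) : B0 b M C n = B0 b' M' C n := by
  unfold B0
  simp only [h]

lemma A_congr {R R' : Finset ℕ} {M M' : ℕ}
    (h : ∀ e, (∃ a ∈ R, e ≡ a [MOD M]) ↔ (∃ a ∈ R', e ≡ a [MOD M'])) (n : ℕ) :
    A R M n = A R' M' n := by
  unfold A
  simp only [h]

lemma gaps2 (u v e : ℕ) : gaps [u, v] (cls 2 e) = if e % 2 = 1 then u else v := by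
  unfold cls
  have h : e % 2 = 0 ∨ e % 2 = 1 := by omega
  rcases h with h | h
  · simp [h, gaps]
  · simp [h, gaps]

lemma gaps6 (b1 b2 b3 b4 b5 b6 e : ℕ) : gaps [b1, b2, b3, b4, b5, b6] (cls 6 e) =
    if e % 6 = 1 then b1 else if e % 6 = 2 then b2 else if e % 6 = 3 then b3 else
    if e % 6 = 4 then b4 else if e % 6 = 5 then b5 else b6 := by
  unfold cls
  have h : e % 6 = 0 ∨ e % 6 = 1 ∨ e % 6 = 2 ∨ e % 6 = 3 ∨ e % 6 = 4 ∨ e % 6 = 5 := by omega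
  rcases h with h | h | h | h | h | h <;> simp [h, gaps]

lemma wt_odd (k : ℕ) (hk : 1 ≤ k) : wt (X : PowerSeries ℤ) (X ^ 3) (X ^ 5) (X ^ 6) k =
    if k ≠ 2 then X ^ k else 0 := by
  have h : k % 6 = 0 ∨ k % 6 = 1 ∨ k % 6 = 2 ∨ k % 6 = 3 ∨ k % 6 = 4 ∨ k % 6 = 5 := by omega
  obtain ⟨i, hi⟩ : ∃ i, i = (k - 1) / 6 := ⟨_, rfl⟩
  unfold wt
  rw [← hi]
  rcases h with h | h | h | h | h | h
  · have hk2 : k = 6 * i + 6 := by omega
    subst hk2
    simp only [h]; norm_num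
    rw [if_neg (by omega), ← pow_mul]; ring
  · have hk2 : k = 6 * i + 1 := by omega
    subst hk2
    simp only [h]; norm_num
    rw [if_neg (by omega), ← pow_mul]; ring
  · have hk2 : k = 6 * i + 2 := by omega
    simp only [h]; norm_num
    by_cases hi0 : k = 2
    · simp [hi0]
    · rw [if_neg hi0, if_neg hi0]
      obtain ⟨t, ht⟩ : ∃ t, i = t + 1 := ⟨i - 1, by omega⟩
      subst ht
      rw [hk2, show t + 1 - 1 = t by omega, ← pow_mul]; ring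
  · have hk2 : k = 6 * i + 3 := by omega
    subst hk2
    simp only [h]; norm_num
    rw [if_neg (by omega), ← pow_mul]; ring
  · have hk2 : k = 6 * i + 4 := by omega
    subst hk2
    simp only [h]; norm_num
    rw [if_neg (by omega), ← pow_mul]; ring
  · have hk2 : k = 6 * i + 5 := by omega
    subst hk2
    simp only [h]; norm_num
    rw [if_neg (by omega), ← pow_mul]; ring

/-- the gaps `(6,7)` modulo 2 -/
lemma P_sys67 (k : ℕ) : P (fun e => e ≠ 2) (fun e => if e % 2 = 1 then 6 else 7) k =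
    G (X : PowerSeries ℤ) (X ^ 3) (X ^ 5) (X ^ 6) k := by
  induction k using Nat.strong_induction_on with
  | _ k ih =>
    match k with
    | 0 => rw [P_zero, G_zero]
    | k + 1 =>
      rw [P_succ, G_succ, wt_odd (k + 1) (by omega), ih k (by omega)]
      have h : k - ((if (k + 1) % 2 = 1 then 6 else 7) - 1) = k - (if k % 2 = 0 then 5 else 6) := by
        split_ifs <;> omega
      rw [h, ih _ (by split_ifs <;> omega)]
      split_ifs <;> ring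

lemma Q135 (K : ℕ) : Q (fun e => ∃ a ∈ ({1} : Finset ℕ), e ≡ a [MOD 2]) (6 * K) =
    ∏ i ∈ range K, (1 + (X : PowerSeries ℤ) ^ (1 + 6 * i)) * (1 + X ^ (3 + 6 * i)) *
      (1 + X ^ (5 + 6 * i)) := by
  induction K with
  | zero => simp [Q]
  | succ K ih =>
    rw [show 6 * (K + 1) = 6 * K + 5 + 1 by ring, Q_succ, show 6 * K + 5 = 6 * K + 4 + 1 by ring,
      Q_succ, show 6 * K + 4 = 6 * K + 3 + 1 by ring, Q_succ,
      show 6 * K + 3 = 6 * K + 2 + 1 by ring, Q_succ, show 6 * K + 2 = 6 * K + 1 + 1 by ring,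
      Q_succ, Q_succ, ih, prod_range_succ _ K]
    have o1 : (∃ a ∈ ({1} : Finset ℕ), 6 * K + 1 ≡ a [MOD 2]) :=
      ⟨1, by simp, by unfold Nat.ModEq; omega⟩
    have o3 : (∃ a ∈ ({1} : Finset ℕ), 6 * K + 1 + 1 + 1 ≡ a [MOD 2]) :=
      ⟨1, by simp, by unfold Nat.ModEq; omega⟩
    have o5 : (∃ a ∈ ({1} : Finset ℕ), 6 * K + 1 + 1 + 1 + 1 + 1 ≡ a [MOD 2]) :=
      ⟨1, by simp, by unfold Nat.ModEq; omega⟩
    have o2 : ¬ (∃ a ∈ ({1} : Finset ℕ), 6 * K + 1 + 1 ≡ a [MOD 2]) := by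
      unfold Nat.ModEq
      simp only [Finset.mem_singleton]
      rintro ⟨a, rfl, h⟩
      omega
    have o4 : ¬ (∃ a ∈ ({1} : Finset ℕ), 6 * K + 1 + 1 + 1 + 1 ≡ a [MOD 2]) := by
      unfold Nat.ModEq
      simp only [Finset.mem_singleton]
      rintro ⟨a, rfl, h⟩
      omega
    have o6 : ¬ (∃ a ∈ ({1} : Finset ℕ), 6 * K + 1 + 1 + 1 + 1 + 1 + 1 ≡ a [MOD 2]) := by
      unfold Nat.ModEq
      simp only [Finset.mem_singleton]
      rintro ⟨a, rfl, h⟩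
      omega
    rw [if_pos o1, if_neg o2, if_pos o3, if_neg o4, if_pos o5, if_neg o6]
    ring

lemma Q245 (K : ℕ) : Q (fun e => ∃ a ∈ ({2, 4, 5} : Finset ℕ), e ≡ a [MOD 6]) (6 * K) =
    ∏ i ∈ range K, (1 + (X : PowerSeries ℤ) ^ (2 + 6 * i)) * (1 + X ^ (4 + 6 * i)) *
      (1 + X ^ (5 + 6 * i)) := by
  induction K with
  | zero => simp [Q]
  | succ K ih =>
    rw [show 6 * (K + 1) = 6 * K + 5 + 1 by ring, Q_succ, show 6 * K + 5 = 6 * K + 4 + 1 by ring,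
      Q_succ, show 6 * K + 4 = 6 * K + 3 + 1 by ring, Q_succ,
      show 6 * K + 3 = 6 * K + 2 + 1 by ring, Q_succ, show 6 * K + 2 = 6 * K + 1 + 1 by ring,
      Q_succ, Q_succ, ih, prod_range_succ _ K]
    have o1 : (∃ a ∈ ({2, 4, 5} : Finset ℕ), 6 * K + 1 + 1 ≡ a [MOD 6]) :=
      ⟨2, by simp, by unfold Nat.ModEq; omega⟩
    have o3 : (∃ a ∈ ({2, 4, 5} : Finset ℕ), 6 * K + 1 + 1 + 1 + 1 ≡ a [MOD 6]) :=
      ⟨4, by simp, by unfold Nat.ModEq; omega⟩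
    have o5 : (∃ a ∈ ({2, 4, 5} : Finset ℕ), 6 * K + 1 + 1 + 1 + 1 + 1 ≡ a [MOD 6]) :=
      ⟨5, by simp, by unfold Nat.ModEq; omega⟩
    have o2 : ¬ (∃ a ∈ ({2, 4, 5} : Finset ℕ), 6 * K + 1 ≡ a [MOD 6]) := by
      unfold Nat.ModEq
      simp only [Finset.mem_insert, Finset.mem_singleton]
      rintro ⟨a, rfl | rfl | rfl, h⟩ <;> omega
    have o4 : ¬ (∃ a ∈ ({2, 4, 5} : Finset ℕ), 6 * K + 1 + 1 + 1 ≡ a [MOD 6]) := by
      unfold Nat.ModEq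
      simp only [Finset.mem_insert, Finset.mem_singleton]
      rintro ⟨a, rfl | rfl | rfl, h⟩ <;> omega
    have o6 : ¬ (∃ a ∈ ({2, 4, 5} : Finset ℕ), 6 * K + 1 + 1 + 1 + 1 + 1 + 1 ≡ a [MOD 6]) := by
      unfold Nat.ModEq
      simp only [Finset.mem_insert, Finset.mem_singleton]
      rintro ⟨a, rfl | rfl | rfl, h⟩ <;> omega
    rw [if_neg o2, if_pos o1, if_neg o4, if_pos o3, if_pos o5, if_neg o6]
    ring

/-- Göllnitz' theorem in Alladi's form: distinct odd parts. -/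
theorem modTwo (n : ℕ) : A {1} 2 n = B0 (gaps [6, 7]) 2 {2} n := by
  set K := n + 1 with hK
  have hx := mk_pow_zero K
  set x := Ideal.Quotient.mk (Ideal.span {(X : PowerSeries ℤ) ^ K}) X with hxdef
  have hb : ∀ j, 1 ≤ j → j ≤ 2 → 1 ≤ gaps [6, 7] j := by
    intro j h1 h2
    interval_cases j <;> simp [gaps]
  have key : coeff n (Q (fun e => ∃ a ∈ ({1} : Finset ℕ), e ≡ a [MOD 2]) (6 * (K + 1))) =
      coeff n (P (fun e => e ≠ 2) (fun e => if e % 2 = 1 then 6 else 7) (6 * K + 12)) := by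
    apply coeff_eq_of_mk (K := K) (by omega)
    rw [Q135, P_sys67, G_map]
    simp only [map_mul, map_prod, map_add, map_pow, map_one, ← hxdef]
    have := Glim_prod hx 1 3 5 6 (by norm_num) (K + 1) (by omega)
    unfold Glim at this
    rw [pow_one] at this
    exact this.symm
  rw [coeff_Q_A _ _ n _ (by omega)] at key
  have h3 : coeff n (P (fun e => e ∉ ({2} : Finset ℕ)) (fun e => gaps [6, 7] (cls 2 e))
      (6 * K + 12)) = (B0 (gaps [6, 7]) 2 {2} n : ℤ) :=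
    coeff_P_B0 _ 2 (by norm_num) hb {2} n _ (by omega)
  rw [P_congr (ok' := fun e => e ≠ 2) (d' := fun e => if e % 2 = 1 then 6 else 7) (by simp)
    (by intro e _; rw [gaps2])] at h3
  rw [h3] at key
  exact_mod_cast key

/-- gap function of `(7,6,7,6,5,8)` modulo 6 -/
def d58 (e : ℕ) : ℕ := if e % 6 = 1 then 7 else if e % 6 = 2 then 6 else if e % 6 = 3 then 7 else
    if e % 6 = 4 then 6 else if e % 6 = 5 then 5 else 8

lemma P_sys58 (i : ℕ) :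
    (P (fun e => e ≠ 1 ∧ e ≠ 3) d58 (6 * i + 2) = G (X ^ 2 : PowerSeries ℤ) (X ^ 4) (X ^ 5) (X ^ 6) (6 * i + 1)) ∧
    (P (fun e => e ≠ 1 ∧ e ≠ 3) d58 (6 * i + 3) = G (X ^ 2 : PowerSeries ℤ) (X ^ 4) (X ^ 5) (X ^ 6) (6 * i + 2)) ∧
    (P (fun e => e ≠ 1 ∧ e ≠ 3) d58 (6 * i + 4) = G (X ^ 2 : PowerSeries ℤ) (X ^ 4) (X ^ 5) (X ^ 6) (6 * i + 3)) ∧
    (P (fun e => e ≠ 1 ∧ e ≠ 3) d58 (6 * i + 6) = G (X ^ 2 : PowerSeries ℤ) (X ^ 4) (X ^ 5) (X ^ 6) (6 * i + 5)) ∧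
    (P (fun e => e ≠ 1 ∧ e ≠ 3) d58 (6 * i + 7) = G (X ^ 2 : PowerSeries ℤ) (X ^ 4) (X ^ 5) (X ^ 6) (6 * i + 6)) := by
  induction i with
  | zero =>
    have g1 := G1 (X ^ 2 : PowerSeries ℤ) (X ^ 4) (X ^ 5) (X ^ 6) 0
    have g2 := G2' (X ^ 2 : PowerSeries ℤ) (X ^ 4) (X ^ 5) (X ^ 6)
    have g3 := G3 (X ^ 2 : PowerSeries ℤ) (X ^ 4) (X ^ 5) (X ^ 6) 0
    have g4 := G4 (X ^ 2 : PowerSeries ℤ) (X ^ 4) (X ^ 5) (X ^ 6) 0
    have g5 := G5 (X ^ 2 : PowerSeries ℤ) (X ^ 4) (X ^ 5) (X ^ 6) 0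
    have g6 := G6 (X ^ 2 : PowerSeries ℤ) (X ^ 4) (X ^ 5) (X ^ 6) 0
    have p1 := P_succ (fun e => e ≠ 1 ∧ e ≠ 3) d58 0
    have p2 := P_succ (fun e => e ≠ 1 ∧ e ≠ 3) d58 1
    have p3 := P_succ (fun e => e ≠ 1 ∧ e ≠ 3) d58 2
    have p4 := P_succ (fun e => e ≠ 1 ∧ e ≠ 3) d58 3
    have p5 := P_succ (fun e => e ≠ 1 ∧ e ≠ 3) d58 4
    have p6 := P_succ (fun e => e ≠ 1 ∧ e ≠ 3) d58 5
    have p7 := P_succ (fun e => e ≠ 1 ∧ e ≠ 3) d58 6
    norm_num [d58, P_zero] at p1 p2 p3 p4 p5 p6 p7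
    simp only [Nat.mul_zero, Nat.zero_sub, Nat.zero_add, G_zero, pow_zero, mul_one] at *
    refine ⟨?_, ?_, ?_, ?_, ?_⟩
    · rw [p2, p1, g1]
    · rw [p3, p2, p1, g2, g1]
    · rw [p4, p3, p2, p1, g3, g2, g1]
    · rw [p6, p5, p4, p3, p2, p1, g5, g4, g3, g2, g1]; ring
    · rw [p7, p6, p5, p4, p3, p2, p1, g6, g5, g4, g3, g2, g1]; ring
  | succ i ih =>
    obtain ⟨r2, r3, r4, r6, r7⟩ := ih
    have g1 := G1 (X ^ 2 : PowerSeries ℤ) (X ^ 4) (X ^ 5) (X ^ 6) (i + 1)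
    have g2 := G2 (X ^ 2 : PowerSeries ℤ) (X ^ 4) (X ^ 5) (X ^ 6) i
    have g3 := G3 (X ^ 2 : PowerSeries ℤ) (X ^ 4) (X ^ 5) (X ^ 6) (i + 1)
    have g4 := G4 (X ^ 2 : PowerSeries ℤ) (X ^ 4) (X ^ 5) (X ^ 6) (i + 1)
    have g5 := G5 (X ^ 2 : PowerSeries ℤ) (X ^ 4) (X ^ 5) (X ^ 6) (i + 1)
    have g6 := G6 (X ^ 2 : PowerSeries ℤ) (X ^ 4) (X ^ 5) (X ^ 6) (i + 1)
    rw [show 6 * (i + 1) - 5 = 6 * i + 1 by omega] at g1
    rw [show 6 * (i + 1) - 3 = 6 * i + 3 by omega] at g3 g4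
    rw [show 6 * (i + 1) - 1 = 6 * i + 5 by omega] at g5 g6
    have p2 := P_succ (fun e => e ≠ 1 ∧ e ≠ 3) d58 (6 * i + 7)
    have p3 := P_succ (fun e => e ≠ 1 ∧ e ≠ 3) d58 (6 * i + 8)
    have p4 := P_succ (fun e => e ≠ 1 ∧ e ≠ 3) d58 (6 * i + 9)
    have p5 := P_succ (fun e => e ≠ 1 ∧ e ≠ 3) d58 (6 * i + 10)
    have p6 := P_succ (fun e => e ≠ 1 ∧ e ≠ 3) d58 (6 * i + 11)
    have p7 := P_succ (fun e => e ≠ 1 ∧ e ≠ 3) d58 (6 * i + 12)
    have m2 : d58 (6 * i + 7 + 1) = 6 := by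
      unfold d58; rw [if_neg (by omega), if_pos (by omega)]
    have m3 : d58 (6 * i + 8 + 1) = 7 := by
      unfold d58; rw [if_neg (by omega), if_neg (by omega), if_pos (by omega)]
    have m4 : d58 (6 * i + 9 + 1) = 6 := by
      unfold d58; rw [if_neg (by omega), if_neg (by omega), if_neg (by omega), if_pos (by omega)]
    have m5 : d58 (6 * i + 10 + 1) = 5 := by
      unfold d58; rw [if_neg (by omega), if_neg (by omega), if_neg (by omega), if_neg (by omega),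
        if_pos (by omega)]
    have m6 : d58 (6 * i + 11 + 1) = 8 := by
      unfold d58; rw [if_neg (by omega), if_neg (by omega), if_neg (by omega), if_neg (by omega),
        if_neg (by omega)]
    have m7 : d58 (6 * i + 12 + 1) = 7 := by
      unfold d58; rw [if_pos (by omega)]
    rw [if_pos (by omega), m2, show 6 * i + 7 - (6 - 1) = 6 * i + 2 by omega] at p2
    rw [if_pos (by omega), m3, show 6 * i + 8 - (7 - 1) = 6 * i + 2 by omega] at p3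
    rw [if_pos (by omega), m4, show 6 * i + 9 - (6 - 1) = 6 * i + 4 by omega] at p4
    rw [if_pos (by omega), m5, show 6 * i + 10 - (5 - 1) = 6 * i + 6 by omega] at p5
    rw [if_pos (by omega), m6, show 6 * i + 11 - (8 - 1) = 6 * i + 4 by omega] at p6
    rw [if_pos (by omega), m7, show 6 * i + 12 - (7 - 1) = 6 * i + 6 by omega] at p7
    rw [show 6 * i + 6 = 6 * (i + 1) by ring] at r7
    have s2 : P (fun e => e ≠ 1 ∧ e ≠ 3) d58 (6 * i + 8) =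
        G (X ^ 2 : PowerSeries ℤ) (X ^ 4) (X ^ 5) (X ^ 6) (6 * (i + 1) + 1) := by
      rw [show 6 * i + 8 = 6 * i + 7 + 1 by ring, p2, r2, r7, g1]
      rw [← pow_mul]; ring
    have s3 : P (fun e => e ≠ 1 ∧ e ≠ 3) d58 (6 * i + 9) =
        G (X ^ 2 : PowerSeries ℤ) (X ^ 4) (X ^ 5) (X ^ 6) (6 * (i + 1) + 2) := by
      rw [show 6 * i + 9 = 6 * i + 8 + 1 by ring, p3, r2, s2, g2]
      rw [← pow_mul]; ring
    have s4 : P (fun e => e ≠ 1 ∧ e ≠ 3) d58 (6 * i + 10) =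
        G (X ^ 2 : PowerSeries ℤ) (X ^ 4) (X ^ 5) (X ^ 6) (6 * (i + 1) + 3) := by
      rw [show 6 * i + 10 = 6 * i + 9 + 1 by ring, p4, r4, s3, g3]
      rw [← pow_mul]; ring
    have s6 : P (fun e => e ≠ 1 ∧ e ≠ 3) d58 (6 * i + 12) =
        G (X ^ 2 : PowerSeries ℤ) (X ^ 4) (X ^ 5) (X ^ 6) (6 * (i + 1) + 5) := by
      rw [show 6 * i + 12 = 6 * i + 11 + 1 by ring, p6, show 6 * i + 11 = 6 * i + 10 + 1 by ring,
        p5, r6, r4, s4, g5, g4]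
      rw [← pow_mul]; ring
    have s7 : P (fun e => e ≠ 1 ∧ e ≠ 3) d58 (6 * i + 13) =
        G (X ^ 2 : PowerSeries ℤ) (X ^ 4) (X ^ 5) (X ^ 6) (6 * (i + 1) + 6) := by
      rw [show 6 * i + 13 = 6 * i + 12 + 1 by ring, p7, r6, s6, g6]
      rw [← pow_mul]; ring
    exact ⟨s2, s3, s4, s6, s7⟩

/-- A new solution with modulus 6. -/
theorem modSix_245 (n : ℕ) : A {2, 4, 5} 6 n = B0 (gaps [7, 6, 7, 6, 5, 8]) 6 {1, 3} n := by
  set K := n + 1 with hK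
  have hx := mk_pow_zero K
  set x := Ideal.Quotient.mk (Ideal.span {(X : PowerSeries ℤ) ^ K}) X with hxdef
  have hb : ∀ j, 1 ≤ j → j ≤ 6 → 1 ≤ gaps [7, 6, 7, 6, 5, 8] j := by
    intro j h1 h2
    interval_cases j <;> simp [gaps]
  have key : coeff n (Q (fun e => ∃ a ∈ ({2, 4, 5} : Finset ℕ), e ≡ a [MOD 6]) (6 * (K + 1))) =
      coeff n (P (fun e => e ≠ 1 ∧ e ≠ 3) d58 (6 * (K + 2) + 2)) := by
    apply coeff_eq_of_mk (K := K) (by omega)
    rw [Q245, (P_sys58 (K + 2)).1, G_map]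
    simp only [map_mul, map_prod, map_add, map_pow, map_one, ← hxdef]
    have := Glim_prod hx 2 4 5 6 (by norm_num) (K + 1) (by omega)
    rw [← Glim_eq hx 2 4 5 6 (by norm_num) (6 * (K + 2) + 1) (by omega)] at this
    exact this.symm
  rw [coeff_Q_A _ _ n _ (by omega)] at key
  have h3 : coeff n (P (fun e => e ∉ ({1, 3} : Finset ℕ)) (fun e => gaps [7, 6, 7, 6, 5, 8] (cls 6 e))
      (6 * (K + 2) + 2)) = (B0 (gaps [7, 6, 7, 6, 5, 8]) 6 {1, 3} n : ℤ) :=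
    coeff_P_B0 _ 6 (by norm_num) hb {1, 3} n _ (by omega)
  rw [P_congr (ok' := fun e => e ≠ 1 ∧ e ≠ 3) (d' := d58) (by simp)
    (by intro e _; rw [gaps6]; rfl)] at h3
  rw [h3] at key
  exact_mod_cast key

lemma A135 (n : ℕ) : A {1, 3, 5} 6 n = A {1} 2 n := by
  apply A_congr
  intro e
  unfold Nat.ModEq
  simp only [Finset.mem_insert, Finset.mem_singleton]
  constructor
  · rintro ⟨a, rfl | rfl | rfl, h⟩ <;> exact ⟨1, rfl, by omega⟩
  · rintro ⟨a, rfl, h⟩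
    have h' : e % 6 = 1 ∨ e % 6 = 3 ∨ e % 6 = 5 := by omega
    rcases h' with h' | h' | h'
    · exact ⟨1, by simp, by omega⟩
    · exact ⟨3, by simp, by omega⟩
    · exact ⟨5, by simp, by omega⟩

lemma B0_lift (n : ℕ) : B0 (gaps [6, 7]) 2 {2} n = B0 (gaps [6, 7, 6, 7, 6, 7]) 6 {2} n := by
  apply B0_congr
  intro e
  rw [gaps2, gaps6]
  have h : e % 6 = 0 ∨ e % 6 = 1 ∨ e % 6 = 2 ∨ e % 6 = 3 ∨ e % 6 = 4 ∨ e % 6 = 5 := by omega
  rcases h with h | h | h | h | h | h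
  · have : e % 2 = 0 := by omega
    simp [h, this]
  · have : e % 2 = 1 := by omega
    simp [h, this]
  · have : e % 2 = 0 := by omega
    simp [h, this]
  · have : e % 2 = 1 := by omega
    simp [h, this]
  · have : e % 2 = 0 := by omega
    simp [h, this]
  · have : e % 2 = 1 := by omega
    simp [h, this]

lemma cls6_mem (I : Finset ℕ) (e : ℕ) : (cls 6 e ∈ I) ↔
    ((e % 6 = 0 ∧ 6 ∈ I) ∨ (e % 6 = 1 ∧ 1 ∈ I) ∨ (e % 6 = 2 ∧ 2 ∈ I) ∨ (e % 6 = 3 ∧ 3 ∈ I) ∨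
      (e % 6 = 4 ∧ 4 ∈ I) ∨ (e % 6 = 5 ∧ 5 ∈ I)) := by
  unfold cls
  have h : e % 6 = 0 ∨ e % 6 = 1 ∨ e % 6 = 2 ∨ e % 6 = 3 ∨ e % 6 = 4 ∨ e % 6 = 5 := by omega
  rcases h with h | h | h | h | h | h <;> simp [h]

lemma B0_switch67 (I : Finset ℕ) (hI : I = {5} ∨ I = {3} ∨ I = {3, 5}) (n : ℕ) :
    B0 (gaps [6, 7, 6, 7, 6, 7]) 6 {2} n =
      B0 (sw 6 6 I (gaps [6, 7, 6, 7, 6, 7])) 6 (swC 6 6 I {2}) n := by
  have key : ∀ e, gaps [6, 7, 6, 7, 6, 7] (cls 6 e) = if e % 2 = 1 then 6 else 7 := by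
    intro e
    rw [gaps6]
    have h : e % 6 = 0 ∨ e % 6 = 1 ∨ e % 6 = 2 ∨ e % 6 = 3 ∨ e % 6 = 4 ∨ e % 6 = 5 := by omega
    rcases h with h | h | h | h | h | h
    · have : e % 2 = 0 := by omega
      simp [h, this]
    · have : e % 2 = 1 := by omega
      simp [h, this]
    · have : e % 2 = 0 := by omega
      simp [h, this]
    · have : e % 2 = 1 := by omega
      simp [h, this]
    · have : e % 2 = 0 := by omega
      simp [h, this]
    · have : e % 2 = 1 := by omega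
      simp [h, this]
  apply B0_switch (by norm_num) _ (by norm_num)
  · intro e h
    rw [cls6_mem] at h ⊢
    rcases hI with rfl | rfl | rfl <;> simp at h ⊢ <;> omega
  · intro e
    rw [cls6_mem, cls6_mem]
    rcases hI with rfl | rfl | rfl <;> simp <;> omega
  · intro e h
    rw [key, key]
    rw [cls6_mem] at h
    rcases hI with rfl | rfl | rfl <;> simp at h <;> constructor <;> split_ifs <;> omega
  · intro e h1 h2 h3 h4
    rw [key] at h4 ⊢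
    rw [cls6_mem] at h1 h2 ⊢
    rcases hI with rfl | rfl | rfl <;> simp at h1 h2 ⊢ <;> split_ifs at h4 ⊢ <;> omega
  · intro e h1 h2
    rw [cls6_mem] at h2
    simp only [Finset.mem_singleton]
    rcases hI with rfl | rfl | rfl <;> simp at h2 <;> omega
  · intro j hj1 hj2
    interval_cases j <;> simp [gaps]

theorem modSix_135 (n : ℕ) :
    A {1, 3, 5} 6 n = B0 (gaps [6, 7, 6, 7, 5, 8]) 6 {2} n ∧
    A {1, 3, 5} 6 n = B0 (gaps [6, 7, 5, 8, 6, 7]) 6 {2} n ∧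
    A {1, 3, 5} 6 n = B0 (gaps [6, 7, 5, 8, 5, 8]) 6 {2} n := by
  have h0 : A {1, 3, 5} 6 n = B0 (gaps [6, 7, 6, 7, 6, 7]) 6 {2} n := by
    rw [A135, modTwo, B0_lift]
  have hcls : ∀ e, 1 ≤ cls 6 e ∧ cls 6 e ≤ 6 := by
    intro e
    unfold cls
    split_ifs <;> omega
  refine ⟨?_, ?_, ?_⟩
  · rw [h0, B0_switch67 {5} (by simp), show swC 6 6 {5} {2} = {2} by decide]
    apply B0_congr
    intro e
    obtain ⟨h1, h2⟩ := hcls e
    generalize cls 6 e = j at h1 h2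
    interval_cases j <;> decide
  · rw [h0, B0_switch67 {3} (by simp), show swC 6 6 {3} {2} = {2} by decide]
    apply B0_congr
    intro e
    obtain ⟨h1, h2⟩ := hcls e
    generalize cls 6 e = j at h1 h2
    interval_cases j <;> decide
  · rw [h0, B0_switch67 {3, 5} (by simp), show swC 6 6 {3, 5} {2} = {2} by decide]
    apply B0_congr
    intro e
    obtain ⟨h1, h2⟩ := hcls e
    generalize cls 6 e = j at h1 h2
    interval_cases j <;> decide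

end PD687
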