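import Pool.Agent.TH687.PD.ModSix

/-!
A verified exhaustive search for the gaps `b_1,…,b_M` of a solution, from the values `A(n)`, `n ≤ N`.
-/

namespace PD687

open Finset PowerSeries

/-- the initial row `1,0,0,…,0` -/
def row0 (N : ℕ) : List ℕ := 1 :: List.replicate N 0

/-- `r + X^m s` -/
def addShift (r s : List ℕ) (m : ℕ) : List ℕ :=
  List.zipWith (· + ·) r (List.replicate m 0 ++ s)

/-- exhaustive search -/
def search (M N : ℕ) (At : List ℕ) (leaf : List (Bool × ℕ) → Bool) :
    ℕ → ℕ → List (List ℕ) → List (Bool × ℕ) → Bool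
  | 0, _, _, know => leaf know
  | fuel + 1, k, rows, know =>
    let r := rows.getD 0 (row0 N)
    let t := At.getD (k + 1) 0
    let m := r.getD (k + 1) 0
    if t = m then search M N At leaf fuel (k + 1) (r :: rows) know
    else if t = m + 1 then
      match know.getD (k % M) (false, 1) with
      | (true, v) => search M N At leaf fuel (k + 1)
          (addShift r (rows.getD (v - 1) (row0 N)) (k + 1) :: rows) know
      | (false, lo) =>
        (List.range (k + 1 - lo)).all (fun w => search M N At leaf fuel (k + 1)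
          (addShift r (rows.getD (lo + w - 1) (row0 N)) (k + 1) :: rows)
          (know.set (k % M) (true, lo + w))) &&
        search M N At leaf fuel (k + 1) (addShift r (row0 N) (k + 1) :: rows)
          (know.set (k % M) (false, max lo (k + 1)))
    else true

/-- the number of lists -/
def cnt (ok : ℕ → Prop) [DecidablePred ok] (d : ℕ → ℕ) (k n : ℕ) : ℕ := (lists ok d k n).card

/-- rows of the counts -/
def rowL (ok : ℕ → Prop) [DecidablePred ok] (d : ℕ → ℕ) (N k : ℕ) : List ℕ :=
  (List.range (N + 1)).map (cnt ok d k)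

section
variable {ok : ℕ → Prop} [DecidablePred ok] {d : ℕ → ℕ}

lemma cnt_zero (n : ℕ) : cnt ok d 0 n = if n = 0 then 1 else 0 := by
  unfold cnt; rw [lists]; split_ifs <;> simp

lemma cnt_at_zero (hd : ∀ e, 1 ≤ e → 1 ≤ d e) (k : ℕ) : cnt ok d k 0 = 1 := by
  induction k with
  | zero => rw [cnt_zero, if_pos rfl]
  | succ k ih =>
    unfold cnt at *
    rw [card_lists_succ hd, ih]
    simp

lemma cnt_succ (hd : ∀ e, 1 ≤ e → 1 ≤ d e) (k n : ℕ) : cnt ok d (k + 1) n = cnt ok d k n +
    (if ok (k + 1) ∧ k + 1 ≤ n then cnt ok d (k - (d (k + 1) - 1)) (n - (k + 1)) else 0) := by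
  unfold cnt; exact card_lists_succ hd k n

lemma rowL_zero (N : ℕ) : rowL ok d N 0 = row0 N := by
  unfold rowL row0
  apply List.ext_getElem
  · simp
  · intro i h1 h2
    simp only [List.getElem_map, List.getElem_range, cnt_zero]
    cases i with
    | zero => simp
    | succ i => simp

lemma rowL_getD (N k n : ℕ) (hn : n ≤ N) : (rowL ok d N k).getD n 0 = cnt ok d k n := by
  unfold rowL
  rw [List.getD_eq_getElem _ _ (by simp; omega)]
  simp

lemma rowL_skip (hd : ∀ e, 1 ≤ e → 1 ≤ d e) (N k : ℕ) (h : ¬ ok (k + 1)) :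
    rowL ok d N (k + 1) = rowL ok d N k := by
  unfold rowL
  apply List.map_congr_left
  intro n _
  rw [cnt_succ hd, if_neg (by tauto), add_zero]

lemma rowL_step (hd : ∀ e, 1 ≤ e → 1 ≤ d e) (N k : ℕ) (h : ok (k + 1)) :
    rowL ok d N (k + 1) = addShift (rowL ok d N k) (rowL ok d N (k - (d (k + 1) - 1))) (k + 1) := by
  unfold rowL addShift
  apply List.ext_getElem
  · simp
  · intro i h1 h2
    simp only [List.getElem_map, List.getElem_range, List.getElem_zipWith]
    rw [cnt_succ hd]
    congr 1
    rw [List.getElem_append]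
    simp only [List.length_replicate]
    split_ifs with h3 h4 h4
    · omega
    · simp
    · simp
    · exact absurd ⟨h, by omega⟩ h3

/-- consistency of the knowledge with the gaps -/
def Cons (M : ℕ) (b : ℕ → ℕ) (know : List (Bool × ℕ)) : Prop :=
  ∀ j, j < M → (∀ v, know.getD j (false, 1) = (true, v) → b (j + 1) = v) ∧
    (∀ v, know.getD j (false, 1) = (false, v) → v ≤ b (j + 1))

lemma getD_set_self {α : Type*} (l : List α) (j : ℕ) (a x : α) (hj : j < l.length) :
    (l.set j a).getD j x = a := by
  rw [List.getD_eq_getElem _ _ (by simpa using hj)]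
  simp

lemma getD_set_ne {α : Type*} (l : List α) (i j : ℕ) (a x : α) (hij : i ≠ j) :
    (l.set i a).getD j x = l.getD j x := by
  simp only [List.getD_eq_getElem?_getD]
  rw [List.getElem?_set_ne hij]

lemma cls_succ (M k : ℕ) (hM : 1 ≤ M) : cls M (k + 1) = k % M + 1 := by
  have h1 : k % M < M := Nat.mod_lt _ (by omega)
  have h2 : (k + 1) % M = (k % M + 1) % M := by
    conv_lhs => rw [← Nat.div_add_mod k M, add_assoc, Nat.mul_add_mod]
  unfold cls
  rw [h2]
  rcases Nat.lt_or_ge (k % M + 1) M with h | h
  · rw [Nat.mod_eq_of_lt h, if_neg (by omega)]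
  · have h3 : k % M + 1 = M := by omega
    rw [h3, Nat.mod_self, if_pos rfl]

theorem search_sound {M : ℕ} (hM : 1 ≤ M) {b : ℕ → ℕ} (hb : ∀ e, 1 ≤ e → 1 ≤ b (cls M e))
    (N : ℕ) (At : List ℕ)
    (hAt : ∀ n, 1 ≤ n → n ≤ N → cnt ok (fun e => b (cls M e)) n n = At.getD n 0)
    (leaf : List (Bool × ℕ) → Bool) :
    ∀ fuel k rows know, k + fuel = N →
      (∀ i, rows.getD i (row0 N) = rowL ok (fun e => b (cls M e)) N (k - i)) →
      know.length = M → Cons M b know → search M N At leaf fuel k rows know = true →
      ∃ know', know'.length = M ∧ Cons M b know' ∧ leaf know' = true := by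
  intro fuel
  induction fuel with
  | zero =>
    intro k rows know _ _ hl hc hs
    exact ⟨know, hl, hc, hs⟩
  | succ fuel ih =>
    intro k rows know hk hrows hl hc hs
    have hr0 : rows.getD 0 (row0 N) = rowL ok (fun e => b (cls M e)) N k := hrows 0
    have ht := hAt (k + 1) (by omega) (by omega)
    have hm : (rows.getD 0 (row0 N)).getD (k + 1) 0 = cnt ok (fun e => b (cls M e)) k (k + 1) := by
      rw [hr0, rowL_getD _ _ _ (by omega)]
    have hstep := cnt_succ (ok := ok) (d := fun e => b (cls M e)) hb k (k + 1)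
    have hj : k % M < M := Nat.mod_lt _ (by omega)
    have hbj : b (cls M (k + 1)) = b (k % M + 1) := by rw [cls_succ M k hM]
    rw [search] at hs
    rw [hm, ← ht] at hs
    have hcons : ∀ row, row = rowL ok (fun e => b (cls M e)) N (k + 1) →
        ∀ i, (row :: rows).getD i (row0 N) = rowL ok (fun e => b (cls M e)) N (k + 1 - i) := by
      intro row hrow i
      cases i with
      | zero => simpa using hrow
      | succ i =>
        rw [List.getD_cons_succ, hrows i, show k + 1 - (i + 1) = k - i by omega]
    by_cases hok : ok (k + 1)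
    · rw [if_pos ⟨hok, le_rfl⟩, Nat.sub_self, cnt_at_zero hb] at hstep
      rw [if_neg (by omega), if_pos (by omega)] at hs
      have hrow := rowL_step hb N k hok
      rw [← hr0] at hrow
      rcases hkn : know.getD (k % M) (false, 1) with ⟨bb, v⟩
      rw [hkn] at hs
      have hcj := hc (k % M) hj
      rcases bb with _ | _
      · -- lower bound only
        have hv := hcj.2 v hkn
        simp only [Bool.and_eq_true, List.all_eq_true, List.mem_range] at hs
        by_cases hle : b (k % M + 1) ≤ k
        · have h1 := hs.1 (b (k % M + 1) - v) (by omega)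
          rw [show v + (b (k % M + 1) - v) = b (k % M + 1) by omega] at h1
          refine ih (k + 1) _ _ (by omega) (hcons _ ?_) (by simpa using hl) ?_ h1
          · rw [hrow, hrows (b (k % M + 1) - 1), hbj]
          · intro i hi
            by_cases hij : k % M = i
            · subst hij
              rw [getD_set_self _ _ _ _ (by omega)]
              refine ⟨fun w hw => ?_, fun w hw => ?_⟩
              · simp only [Prod.mk.injEq, true_and] at hw; exact hw
              · simp at hw
            · rw [getD_set_ne _ _ _ _ _ hij]; exact hc i hi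
        · have h2 := hs.2
          refine ih (k + 1) _ _ (by omega) (hcons _ ?_) (by simpa using hl) ?_ h2
          · rw [hrow, hbj, show k - (b (k % M + 1) - 1) = 0 by omega, rowL_zero]
          · intro i hi
            by_cases hij : k % M = i
            · subst hij
              rw [getD_set_self _ _ _ _ (by omega)]
              refine ⟨fun w hw => ?_, fun w hw => ?_⟩
              · simp at hw
              · simp only [Prod.mk.injEq, true_and] at hw; omega
            · rw [getD_set_ne _ _ _ _ _ hij]; exact hc i hi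
      · have hv := hcj.1 v hkn
        simp only at hs
        refine ih (k + 1) _ _ (by omega) (hcons _ ?_) hl hc hs
        rw [hrow, hrows (v - 1), hbj, hv]
    · rw [if_neg (by tauto), add_zero] at hstep
      rw [if_pos (by omega)] at hs
      refine ih (k + 1) _ _ (by omega) (hcons _ ?_) hl hc hs
      rw [hr0, rowL_skip hb N k hok]

/-- the search started at the root -/
theorem search_root {M : ℕ} (hM : 1 ≤ M) {b : ℕ → ℕ} (hb : ∀ e, 1 ≤ e → 1 ≤ b (cls M e))
    (N : ℕ) (At : List ℕ)
    (hAt : ∀ n, 1 ≤ n → n ≤ N → cnt ok (fun e => b (cls M e)) n n = At.getD n 0)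
    (leaf : List (Bool × ℕ) → Bool)
    (hs : search M N At leaf N 0 [row0 N] (List.replicate M (false, 1)) = true) :
    ∃ know, know.length = M ∧ Cons M b know ∧ leaf know = true := by
  refine search_sound hM hb N At hAt leaf N 0 _ _ (by omega) ?_ (by simp) ?_ hs
  · intro i
    cases i with
    | zero => simp [rowL_zero]
    | succ i => simp [rowL_zero]
  · intro j hj
    have : (List.replicate M ((false, 1) : Bool × ℕ)).getD j (false, 1) = (false, 1) := by
      rw [List.getD_eq_getElem _ _ (by simpa using hj)]
      simp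
    rw [this]
    refine ⟨fun v hv => by simp at hv, fun v hv => ?_⟩
    simp only [Prod.mk.injEq, true_and] at hv
    rw [← hv]
    have := hb (j + 1) (by omega)
    rwa [cls_succ M j hM, Nat.mod_eq_of_lt hj] at this

end

/-! ### The values `A(n)` -/

/-- rows of the numbers of partitions into distinct parts from `r` -/
def aRow (r : ℕ → Bool) (N : ℕ) : ℕ → List ℕ
  | 0 => row0 N
  | k + 1 => let row := aRow r N k
    if r (k + 1) then addShift row row (k + 1) else row

lemma Q_eq_P (r : ℕ → Prop) [DecidablePred r] (k : ℕ) : Q r k = P r (fun _ => 1) k := by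
  induction k with
  | zero => rw [P_zero]; simp [Q]
  | succ k ih =>
    rw [Q_succ, P_succ, ih]
    simp only [Nat.sub_self, Nat.sub_zero]
    split_ifs <;> ring

lemma aRow_eq (r : ℕ → Bool) (N k : ℕ) :
    aRow r N k = rowL (fun e => r e = true) (fun _ => 1) N k := by
  induction k with
  | zero => rw [aRow, rowL_zero]
  | succ k ih =>
    rw [aRow]
    split_ifs with h
    · rw [rowL_step (ok := fun e => r e = true) (fun _ _ => le_rfl) N k h, ih]
      simp
    · rw [rowL_skip (ok := fun e => r e = true) (fun _ _ => le_rfl) N k h, ih]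

lemma A_eq_aRow (R : Finset ℕ) (M : ℕ) (r : ℕ → Bool)
    (hr : ∀ e, (∃ a ∈ R, e ≡ a [MOD M]) ↔ r e = true) (N n : ℕ) (hn : n ≤ N) :
    A R M n = (aRow r N N).getD n 0 := by
  rw [aRow_eq, rowL_getD _ _ _ hn]
  have h1 := coeff_Q_A R M n N hn
  rw [Q_eq_P, P_congr (ok' := fun e => r e = true) (d' := fun _ => 1) hr (fun _ _ => rfl),
    coeff_P (fun _ _ => le_rfl)] at h1
  unfold cnt
  exact_mod_cast h1.symm

lemma B0_eq_cnt {b : ℕ → ℕ} {M : ℕ} (hM : 1 ≤ M) (hb : ∀ j, 1 ≤ j → j ≤ M → 1 ≤ b j)
    (C : Finset ℕ) (n k : ℕ) (hk : n ≤ k) :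
    B0 b M C n = cnt (fun e => e ∉ C) (fun e => b (cls M e)) k n :=
  B0_eq_card b M hM hb C n k hk

end PD687
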