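import Pool.Agent.TH687.PD.Tools

/-!
A faster verified search: the knowledge about `b_j` is an interval `[lo, hi]` (`hi = 0` means no
upper bound).
-/

namespace PD687

open Finset PowerSeries

/-- membership in an interval, `0` as upper end meaning infinity -/
def InI (b : ℕ) (p : ℕ × ℕ) : Prop := p.1 ≤ b ∧ (p.2 = 0 ∨ b ≤ p.2)

/-- interval inclusion -/
def subI (p q : ℕ × ℕ) : Bool := decide (q.1 ≤ p.1) && (q.2 == 0 || (p.2 != 0 && decide (p.2 ≤ q.2)))

lemma InI_of_subI {b : ℕ} {p q : ℕ × ℕ} (h : subI p q = true) (hb : InI b p) : InI b q := by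
  unfold subI at h
  unfold InI at *
  simp only [Bool.and_eq_true, Bool.or_eq_true, decide_eq_true_eq, beq_iff_eq, bne_iff_ne] at h
  obtain ⟨h1, h2⟩ := h
  obtain ⟨h3, h4⟩ := hb
  refine ⟨by omega, ?_⟩
  rcases h2 with h2 | h2
  · exact Or.inl h2
  · right; omega

/-- groups of values of the gap giving the same row -/
def grpAux (oks : List Bool) (hi : ℕ) : ℕ → ℕ → ℕ → List (ℕ × ℕ)
  | 0, s, _ => [(s, hi)]
  | n + 1, s, v => if oks.getD (v - 1) false then (s, v) :: grpAux oks hi n (v + 1) (v + 1)
    else grpAux oks hi n s (v + 1)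

lemma chain_const {α : Type*} (f : ℕ → α) (s j : ℕ) (h : ∀ u, s ≤ u → u < s + j → f u = f (u + 1)) :
    f s = f (s + j) := by
  induction j with
  | zero => rfl
  | succ j ih =>
    rw [ih (fun u h1 h2 => h u h1 (by omega)), h (s + j) (by omega) (by omega)]
    rfl

lemma grp_sound {α : Type*} (f : ℕ → α) (oks : List Bool) (hi b : ℕ)
    (hf : ∀ u, 1 ≤ u → oks.getD (u - 1) false = false → f u = f (u + 1))
    (hbhi : hi = 0 ∨ b ≤ hi) : ∀ n s v, 1 ≤ s → s ≤ v → s ≤ b →
    (∀ u, s ≤ u → u < v → oks.getD (u - 1) false = false) →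
    (∀ u, v + n ≤ u → (hi = 0 ∨ u < hi) → oks.getD (u - 1) false = false) →
    ∃ p ∈ grpAux oks hi n s v, InI b p ∧ f p.1 = f b := by
  intro n
  induction n with
  | zero =>
    intro s v hs hsv hsb h1 h2
    refine ⟨(s, hi), by simp [grpAux], ⟨hsb, hbhi⟩, ?_⟩
    obtain ⟨j, rfl⟩ := Nat.exists_eq_add_of_le hsb
    refine chain_const f s j (fun u hu1 hu2 => hf u (by omega) ?_)
    by_cases huv : u < v
    · exact h1 u hu1 huv
    · exact h2 u (by omega) (by omega)
  | succ n ih =>
    intro s v hs hsv hsb h1 h2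
    rw [grpAux]
    by_cases hv : oks.getD (v - 1) false = true
    · rw [if_pos hv]
      by_cases hbv : b ≤ v
      · refine ⟨(s, v), by simp, ⟨hsb, Or.inr hbv⟩, ?_⟩
        obtain ⟨j, rfl⟩ := Nat.exists_eq_add_of_le hsb
        exact chain_const f s j (fun u hu1 hu2 => hf u (by omega) (h1 u hu1 (by omega)))
      · obtain ⟨p, hp, hp2⟩ := ih (v + 1) (v + 1) (by omega) le_rfl (by omega)
          (fun u hu1 hu2 => by omega) (fun u hu1 hu2 => h2 u (by omega) hu2)
        exact ⟨p, by simp [hp], hp2⟩
    · rw [if_neg hv]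
      refine ih s (v + 1) hs (by omega) hsb ?_ (fun u hu1 hu2 => h2 u (by omega) hu2)
      intro u hu1 hu2
      by_cases huv : u < v
      · exact h1 u hu1 huv
      · rw [show u = v by omega]
        simpa using hv

/-- number of steps of the grouping loop -/
def nstep (lo hi k1 : ℕ) : ℕ := (if hi = 0 then k1 else min hi k1) - lo

/-- exhaustive search with intervals -/
def searchI (M N : ℕ) (At : List ℕ) (leaf : List (ℕ × ℕ) → Bool) :
    ℕ → ℕ → List (List ℕ) → List Bool → List (ℕ × ℕ) → Bool
  | 0, _, _, _, know => leaf know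
  | fuel + 1, k, rows, oks, know =>
    let r := rows.getD 0 (row0 N)
    let t := At.getD (k + 1) 0
    let m := r.getD (k + 1) 0
    if t = m then searchI M N At leaf fuel (k + 1) (r :: rows) (false :: oks) know
    else if t = m + 1 then
      (grpAux oks (know.getD (k % M) (1, 0)).2
        (nstep (know.getD (k % M) (1, 0)).1 (know.getD (k % M) (1, 0)).2 (k + 1))
        (know.getD (k % M) (1, 0)).1 (know.getD (k % M) (1, 0)).1).all
        (fun p => searchI M N At leaf fuel (k + 1)
          (addShift r (rows.getD (p.1 - 1) (row0 N)) (k + 1) :: rows) (true :: oks)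
          (know.set (k % M) p))
    else true

/-- consistency of the knowledge with the gaps -/
def ConsI (M : ℕ) (b : ℕ → ℕ) (know : List (ℕ × ℕ)) : Prop :=
  ∀ j, j < M → InI (b (j + 1)) (know.getD j (1, 0)) ∧ 1 ≤ (know.getD j (1, 0)).1

lemma grpAux_ge (oks : List Bool) (hi : ℕ) : ∀ n s v, 1 ≤ s → s ≤ v →
    ∀ p ∈ grpAux oks hi n s v, 1 ≤ p.1 := by
  intro n
  induction n with
  | zero =>
    intro s v hs _ p hp
    simp only [grpAux, List.mem_singleton] at hp
    rw [hp]; exact hs
  | succ n ih =>
    intro s v hs hsv p hp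
    rw [grpAux] at hp
    split_ifs at hp with h
    · rw [List.mem_cons] at hp
      rcases hp with rfl | hp
      · exact hs
      · exact ih (v + 1) (v + 1) (by omega) le_rfl p hp
    · exact ih s (v + 1) hs (by omega) p hp

section
variable {ok : ℕ → Prop} [DecidablePred ok]

theorem searchI_sound {M : ℕ} (hM : 1 ≤ M) {b : ℕ → ℕ} (hb : ∀ e, 1 ≤ e → 1 ≤ b (cls M e))
    (N : ℕ) (At : List ℕ)
    (hAt : ∀ n, 1 ≤ n → n ≤ N → cnt ok (fun e => b (cls M e)) n n = At.getD n 0)
    (leaf : List (ℕ × ℕ) → Bool) :
    ∀ fuel k rows oks know, k + fuel = N →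
      (∀ i, rows.getD i (row0 N) = rowL ok (fun e => b (cls M e)) N (k - i)) →
      (∀ i, oks.getD i false = decide (i < k ∧ ok (k - i))) →
      know.length = M → ConsI M b know → searchI M N At leaf fuel k rows oks know = true →
      ∃ know', ConsI M b know' ∧ leaf know' = true := by
  intro fuel
  induction fuel with
  | zero =>
    intro k rows oks know _ _ _ hl hc hs
    exact ⟨know, hc, hs⟩
  | succ fuel ih =>
    intro k rows oks know hk hrows hoks hl hc hs
    have hr0 : rows.getD 0 (row0 N) = rowL ok (fun e => b (cls M e)) N k := hrows 0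
    have ht := hAt (k + 1) (by omega) (by omega)
    have hm : (rows.getD 0 (row0 N)).getD (k + 1) 0 = cnt ok (fun e => b (cls M e)) k (k + 1) := by
      rw [hr0, rowL_getD _ _ _ (by omega)]
    have hstep := cnt_succ (ok := ok) (d := fun e => b (cls M e)) hb k (k + 1)
    have hj : k % M < M := Nat.mod_lt _ (by omega)
    have hbj : b (cls M (k + 1)) = b (k % M + 1) := by rw [cls_succ M k hM]
    rw [searchI] at hs
    rw [hm, ← ht] at hs
    have hcons : ∀ row, row = rowL ok (fun e => b (cls M e)) N (k + 1) →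
        ∀ i, (row :: rows).getD i (row0 N) = rowL ok (fun e => b (cls M e)) N (k + 1 - i) := by
      intro row hrow i
      cases i with
      | zero => simpa using hrow
      | succ i =>
        rw [List.getD_cons_succ, hrows i, show k + 1 - (i + 1) = k - i by omega]
    have hcoks : ∀ o, o = decide (ok (k + 1)) →
        ∀ i, (o :: oks).getD i false = decide (i < k + 1 ∧ ok (k + 1 - i)) := by
      intro o ho i
      cases i with
      | zero => simp [ho]
      | succ i =>
        rw [List.getD_cons_succ, hoks i, show k + 1 - (i + 1) = k - i by omega]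
        congr 1
        simp
    by_cases hok : ok (k + 1)
    · rw [if_pos ⟨hok, le_rfl⟩, Nat.sub_self, cnt_at_zero hb] at hstep
      rw [if_neg (by omega), if_pos (by omega), List.all_eq_true] at hs
      have hrow := rowL_step hb N k hok
      rw [← hr0] at hrow
      have hcj := hc (k % M) hj
      set p0 := know.getD (k % M) (1, 0) with hp0
      obtain ⟨p, hp, hpI, hpf⟩ := grp_sound (fun v => rows.getD (v - 1) (row0 N)) oks p0.2
        (b (k % M + 1)) (by
          intro u hu1 hu2
          rw [hrows (u - 1), hrows (u + 1 - 1)]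
          rw [hoks (u - 1)] at hu2
          simp only [decide_eq_false_iff_not, not_and] at hu2
          by_cases huk : u - 1 < k
          · have h3 := hu2 huk
            rw [show k - (u - 1) = (k - (u + 1 - 1)) + 1 by omega] at h3 ⊢
            exact rowL_skip hb N _ h3
          · rw [show k - (u - 1) = k - (u + 1 - 1) by omega])
        hcj.1.2 (nstep p0.1 p0.2 (k + 1)) p0.1 p0.1 hcj.2 le_rfl hcj.1.1
        (fun u hu1 hu2 => by omega) (by
          intro u hu1 hu2
          rw [hoks (u - 1)]
          simp only [decide_eq_false_iff_not, not_and]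
          intro huk
          exfalso
          unfold nstep at hu1
          split_ifs at hu1 <;> omega)
      have h1 := hs p hp
      refine ih (k + 1) _ _ _ (by omega) (hcons _ ?_) (hcoks _ (by simp [hok]))
        (by simpa using hl) ?_ h1
      · rw [hrow, hpf, hrows (b (k % M + 1) - 1), hbj]
      · intro i hi
        by_cases hij : k % M = i
        · subst hij
          rw [getD_set_self _ _ _ _ (by omega)]
          exact ⟨hpI, grpAux_ge oks p0.2 _ _ _ hcj.2 le_rfl p hp⟩
        · rw [getD_set_ne _ _ _ _ _ hij]; exact hc i hi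
    · rw [if_neg (by tauto), add_zero] at hstep
      rw [if_pos (by omega)] at hs
      refine ih (k + 1) _ _ _ (by omega) (hcons _ ?_) (hcoks _ (by simp [hok])) hl hc hs
      rw [hr0, rowL_skip hb N k hok]

/-- the leaf test: the knowledge is contained in one of the boxes -/
def leafBox (M : ℕ) (boxes : List (List (ℕ × ℕ))) (know : List (ℕ × ℕ)) : Bool :=
  boxes.any (fun box => (List.range M).all
    (fun j => subI (know.getD j (1, 0)) (box.getD j (1, 0))))

/-- the search started at the root -/
theorem searchI_root {M : ℕ} (hM : 1 ≤ M) {b : ℕ → ℕ} (hb : ∀ e, 1 ≤ e → 1 ≤ b (cls M e))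
    (N : ℕ) (At : List ℕ)
    (hAt : ∀ n, 1 ≤ n → n ≤ N → cnt ok (fun e => b (cls M e)) n n = At.getD n 0)
    (boxes : List (List (ℕ × ℕ)))
    (hs : searchI M N At (leafBox M boxes) N 0 [row0 N] [] (List.replicate M (1, 0)) = true) :
    ∃ box ∈ boxes, ∀ j, j < M → InI (b (j + 1)) (box.getD j (1, 0)) := by
  obtain ⟨know, hc, hleaf⟩ := searchI_sound hM hb N At hAt (leafBox M boxes) N 0 [row0 N] []
    (List.replicate M (1, 0)) (by omega) (by
      intro i
      cases i with
      | zero => simp [rowL_zero]
      | succ i => simp [rowL_zero]) (by intro i; simp) (by simp) (by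
      intro j hj
      have h0 : (List.replicate M ((1, 0) : ℕ × ℕ)).getD j (1, 0) = (1, 0) := by
        rw [List.getD_eq_getElem _ _ (by simpa using hj)]
        simp
      rw [h0]
      have := hb (j + 1) (by omega)
      rw [cls_succ M j hM, Nat.mod_eq_of_lt hj] at this
      exact ⟨⟨this, Or.inl rfl⟩, le_rfl⟩) hs
  unfold leafBox at hleaf
  rw [List.any_eq_true] at hleaf
  obtain ⟨box, hbox, hall⟩ := hleaf
  rw [List.all_eq_true] at hall
  refine ⟨box, hbox, fun j hj => ?_⟩
  exact InI_of_subI (hall j (List.mem_range.2 hj)) (hc j hj).1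

end

end PD687
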