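import Pool.Agent.TH687.PD.SearchI

/-!
The interval search with rows packed into natural numbers (base `2^128`), for speed in the kernel.
-/

namespace PD687

open Finset PowerSeries

/-- the base -/
def BB : ℕ := 340282366920938463463374607431768211456

lemma BB_eq : BB = 2 ^ 128 := by norm_num [BB]

/-- exhaustive search with packed rows -/
def searchN (M Q : ℕ) (leaf : List (ℕ × ℕ) → Bool) :
    ℕ → List ℕ → ℕ → ℕ → List ℕ → List Bool → List (ℕ × ℕ) → Bool
  | 0, _, _, _, _, _, know => leaf know
  | fuel + 1, At, k, pw, rows, oks, know =>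
    let r := rows.headD 1
    let t := At.headD 0
    let m := (r / pw) % BB
    if t = m then searchN M Q leaf fuel At.tail (k + 1) (pw * BB) (r :: rows) (false :: oks) know
    else if t = m + 1 then
      (if (know.getD (k % M) (1, 0)).1 = (know.getD (k % M) (1, 0)).2 then
        searchN M Q leaf fuel At.tail (k + 1) (pw * BB)
          ((r + rows.getD ((know.getD (k % M) (1, 0)).1 - 1) 1 * pw) % Q :: rows) (true :: oks)
          know
      else
      (grpAux oks (know.getD (k % M) (1, 0)).2
        (nstep (know.getD (k % M) (1, 0)).1 (know.getD (k % M) (1, 0)).2 (k + 1))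
        (know.getD (k % M) (1, 0)).1 (know.getD (k % M) (1, 0)).1).all
        (fun p => searchN M Q leaf fuel At.tail (k + 1) (pw * BB)
          ((r + rows.getD (p.1 - 1) 1 * pw) % Q :: rows) (true :: oks)
          (know.set (k % M) p)))
    else true

/-- packed row -/
def pk (N : ℕ) (f : ℕ → ℕ) : ℕ := ∑ n ∈ range (N + 1), f n * BB ^ n

lemma sum_lt (f : ℕ → ℕ) (hf : ∀ n, f n < BB) (m : ℕ) : ∑ n ∈ range m, f n * BB ^ n < BB ^ m := by
  induction m with
  | zero => simp
  | succ m ih =>
    rw [sum_range_succ, pow_succ]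
    have h1 : f m + 1 ≤ BB := hf m
    have h2 := Nat.mul_le_mul_right (BB ^ m) h1
    rw [mul_comm BB (BB ^ m)] at h2
    nlinarith

lemma pk_digit (N : ℕ) (f : ℕ → ℕ) (hf : ∀ n, f n < BB) (m : ℕ) (hm : m ≤ N) :
    (pk N f / BB ^ m) % BB = f m := by
  obtain ⟨j, rfl⟩ := Nat.exists_eq_add_of_le hm
  have hpos : 0 < BB ^ m := pow_pos (by norm_num [BB]) m
  have hsplit : pk (m + j) f = (∑ n ∈ range m, f n * BB ^ n) +
      BB ^ m * (f m + BB * ∑ i ∈ range j, f (m + 1 + i) * BB ^ i) := by
    unfold pk
    rw [show m + j + 1 = (m + 1) + j by ring, sum_range_add, sum_range_succ, mul_add,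
      mul_sum, mul_sum, add_assoc]
    congr 1
    congr 1
    · ring
    · apply sum_congr rfl
      intro i _
      rw [pow_add, pow_add]; ring
  rw [hsplit, Nat.add_mul_div_left _ _ hpos, Nat.div_eq_of_lt (sum_lt f hf m), zero_add,
    Nat.add_mul_mod_self_left, Nat.mod_eq_of_lt (hf m)]

lemma pk_lt (N : ℕ) (f : ℕ → ℕ) (hf : ∀ n, f n < BB) : pk N f < BB ^ (N + 1) := sum_lt f hf (N + 1)

lemma pk_update (N k : ℕ) (hk : k + 1 ≤ N) (f g h : ℕ → ℕ) (hh : ∀ n, h n < BB)
    (hrel : ∀ n, h n = f n + if k + 1 ≤ n then g (n - (k + 1)) else 0) :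
    (pk N f + pk N g * BB ^ (k + 1)) % BB ^ (N + 1) = pk N h := by
  obtain ⟨j, rfl⟩ := Nat.exists_eq_add_of_le hk
  have h1 : pk (k + 1 + j) h = pk (k + 1 + j) f +
      BB ^ (k + 1) * ∑ i ∈ range (j + 1), g i * BB ^ i := by
    unfold pk
    have : ∀ n ∈ range (k + 1 + j + 1), h n * BB ^ n = f n * BB ^ n +
        (if k + 1 ≤ n then g (n - (k + 1)) else 0) * BB ^ n := by
      intro n _
      rw [hrel n]; ring
    rw [sum_congr rfl this, sum_add_distrib]
    congr 1
    rw [show k + 1 + j + 1 = (k + 1) + (j + 1) by ring, sum_range_add]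
    rw [sum_eq_zero (s := range (k + 1))]
    · rw [zero_add, mul_sum]
      apply sum_congr rfl
      intro i _
      rw [if_pos (by omega), show k + 1 + i - (k + 1) = i by omega, pow_add]; ring
    · intro n hn
      rw [mem_range] at hn
      rw [if_neg (by omega), zero_mul]
  have h2 : pk (k + 1 + j) g = (∑ i ∈ range (j + 1), g i * BB ^ i) +
      BB ^ (j + 1) * ∑ i ∈ range (k + 1), g (j + 1 + i) * BB ^ i := by
    unfold pk
    rw [show k + 1 + j + 1 = (j + 1) + (k + 1) by ring, sum_range_add, mul_sum]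
    congr 1
    apply sum_congr rfl
    intro i _
    rw [pow_add]; ring
  have h3 : pk (k + 1 + j) f + pk (k + 1 + j) g * BB ^ (k + 1) = pk (k + 1 + j) h +
      BB ^ (k + 1 + j + 1) * ∑ i ∈ range (k + 1), g (j + 1 + i) * BB ^ i := by
    rw [h1, h2, show k + 1 + j + 1 = (k + 1) + (j + 1) by ring, pow_add]; ring
  rw [h3, Nat.add_mul_mod_self_left, Nat.mod_eq_of_lt (pk_lt _ h hh)]

section
variable {ok : ℕ → Prop} [DecidablePred ok] {d : ℕ → ℕ}

lemma cnt_le_pow (hd : ∀ e, 1 ≤ e → 1 ≤ d e) (k : ℕ) : ∀ n, cnt ok d k n ≤ 2 ^ k := by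
  induction k using Nat.strong_induction_on with
  | _ k ih =>
    match k with
    | 0 => intro n; rw [cnt_zero]; split_ifs <;> simp
    | k + 1 =>
      intro n
      rw [cnt_succ hd, pow_succ]
      have h1 := ih k (by omega) n
      split_ifs with h
      · have h2 := ih (k - (d (k + 1) - 1)) (by omega) (n - (k + 1))
        have h3 : 2 ^ (k - (d (k + 1) - 1)) ≤ 2 ^ k := Nat.pow_le_pow_right (by norm_num) (by omega)
        omega
      · omega

lemma cnt_lt_BB (hd : ∀ e, 1 ≤ e → 1 ≤ d e) (k : ℕ) (hk : k ≤ 127) (n : ℕ) :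
    cnt ok d k n < BB := by
  have h1 := cnt_le_pow (ok := ok) hd k n
  have h2 : 2 ^ k < BB := by
    rw [BB_eq]; exact Nat.pow_lt_pow_right (by norm_num) (by omega)
  omega

theorem searchN_sound {M : ℕ} (hM : 1 ≤ M) {b : ℕ → ℕ} (hb : ∀ e, 1 ≤ e → 1 ≤ b (cls M e))
    (N : ℕ) (hN : N ≤ 127)
    (leaf : List (ℕ × ℕ) → Bool) :
    ∀ fuel At k rows oks know, k + fuel = N →
      (∀ n, n + k + 1 ≤ N → cnt ok (fun e => b (cls M e)) (n + k + 1) (n + k + 1) = At.getD n 0) →
      (∀ i, rows.getD i 1 = pk N (cnt ok (fun e => b (cls M e)) (k - i))) →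
      (∀ i, oks.getD i false = decide (i < k ∧ ok (k - i))) →
      know.length = M → ConsI M b know →
      searchN M (BB ^ (N + 1)) leaf fuel At k (BB ^ (k + 1)) rows oks know = true →
      ∃ know', ConsI M b know' ∧ leaf know' = true := by
  intro fuel
  induction fuel with
  | zero =>
    intro At k rows oks know _ _ _ _ hl hc hs
    exact ⟨know, hc, hs⟩
  | succ fuel ih =>
    intro At k rows oks know hk hAt hrows hoks hl hc hs
    have hhd : rows.headD 1 = rows.getD 0 1 := by cases rows <;> rfl
    have hhd' : At.headD 0 = At.getD 0 0 := by cases At <;> rfl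
    have htl : ∀ n, At.tail.getD n 0 = At.getD (n + 1) 0 := by
      intro n; cases At <;> simp
    have hAt' : ∀ n, n + (k + 1) + 1 ≤ N →
        cnt ok (fun e => b (cls M e)) (n + (k + 1) + 1) (n + (k + 1) + 1) = At.tail.getD n 0 := by
      intro n hn
      rw [htl, show n + (k + 1) + 1 = (n + 1) + k + 1 by ring]
      exact hAt (n + 1) (by omega)
    have hr0 : rows.getD 0 1 = pk N (cnt ok (fun e => b (cls M e)) k) := hrows 0
    have ht := hAt 0 (by omega)
    rw [zero_add] at ht
    have hm : (rows.getD 0 1 / BB ^ (k + 1)) % BB = cnt ok (fun e => b (cls M e)) k (k + 1) := by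
      rw [hr0]
      exact pk_digit N _ (cnt_lt_BB hb k (by omega)) (k + 1) (by omega)
    have hstep := cnt_succ (ok := ok) (d := fun e => b (cls M e)) hb k (k + 1)
    have hj : k % M < M := Nat.mod_lt _ (by omega)
    have hbj : b (cls M (k + 1)) = b (k % M + 1) := by rw [cls_succ M k hM]
    rw [searchN] at hs
    rw [hhd, hhd', hm, ← ht] at hs
    have hpw : BB ^ (k + 1) * BB = BB ^ (k + 1 + 1) := by rw [← pow_succ]
    rw [hpw] at hs
    have hcons : ∀ row, row = pk N (cnt ok (fun e => b (cls M e)) (k + 1)) →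
        ∀ i, (row :: rows).getD i 1 = pk N (cnt ok (fun e => b (cls M e)) (k + 1 - i)) := by
      intro row hrow i
      cases i with
      | zero => simpa using hrow
      | succ i =>
        rw [List.getD_cons_succ, hrows i, show k + 1 - (i + 1) = k - i by omega]
    have hcoks : ∀ o, o = decide (ok (k + 1)) →
        ∀ i, (o :: oks).getD i false = decide (i < k + 1 ∧ ok (k + 1 - i)) := by
      intro o ho i
      cases i with
      | zero => simp [ho]
      | succ i =>
        rw [List.getD_cons_succ, hoks i, show k + 1 - (i + 1) = k - i by omega]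
        congr 1
        simp
    have hskip : ∀ u, ¬ ok (u + 1) → pk N (cnt ok (fun e => b (cls M e)) (u + 1)) =
        pk N (cnt ok (fun e => b (cls M e)) u) := by
      intro u hu
      unfold pk
      apply sum_congr rfl
      intro n _
      rw [cnt_succ hb, if_neg (by tauto), add_zero]
    by_cases hok : ok (k + 1)
    · rw [if_pos ⟨hok, le_rfl⟩, Nat.sub_self, cnt_at_zero hb] at hstep
      rw [if_neg (by omega), if_pos (by omega)] at hs
      have hrow : (pk N (cnt ok (fun e => b (cls M e)) k) +
          pk N (cnt ok (fun e => b (cls M e)) (k - (b (cls M (k + 1)) - 1))) * BB ^ (k + 1)) %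
          BB ^ (N + 1) = pk N (cnt ok (fun e => b (cls M e)) (k + 1)) := by
        apply pk_update N k (by omega) _ _ _ (cnt_lt_BB hb (k + 1) (by omega))
        intro n
        rw [cnt_succ hb]
        by_cases hkn : k + 1 ≤ n
        · rw [if_pos ⟨hok, hkn⟩, if_pos hkn]
        · rw [if_neg (by tauto), if_neg hkn]
      have hcj := hc (k % M) hj
      set p0 := know.getD (k % M) (1, 0) with hp0
      by_cases hex : p0.1 = p0.2
      · rw [if_pos hex] at hs
        have hbex : b (k % M + 1) = p0.1 := by
          have h1 := hcj.1.1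
          have h2 := hcj.1.2
          have h3 := hcj.2
          omega
        refine ih _ (k + 1) _ _ _ (by omega) hAt' (hcons _ ?_) (hcoks _ (by simp [hok])) hl hc hs
        rw [← hrow, hr0, hrows (p0.1 - 1), hbj, hbex]
      rw [if_neg hex, List.all_eq_true] at hs
      obtain ⟨p, hp, hpI, hpf⟩ := grp_sound (fun v => rows.getD (v - 1) 1) oks p0.2
        (b (k % M + 1)) (by
          intro u hu1 hu2
          rw [hrows (u - 1), hrows (u + 1 - 1)]
          rw [hoks (u - 1)] at hu2
          simp only [decide_eq_false_iff_not, not_and] at hu2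
          by_cases huk : u - 1 < k
          · have h3 := hu2 huk
            rw [show k - (u - 1) = (k - (u + 1 - 1)) + 1 by omega] at h3 ⊢
            exact hskip _ h3
          · rw [show k - (u - 1) = k - (u + 1 - 1) by omega])
        hcj.1.2 (nstep p0.1 p0.2 (k + 1)) p0.1 p0.1 hcj.2 le_rfl hcj.1.1
        (fun u hu1 hu2 => by omega) (by
          intro u hu1 hu2
          rw [hoks (u - 1)]
          simp only [decide_eq_false_iff_not, not_and]
          intro huk
          exfalso
          unfold nstep at hu1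
          split_ifs at hu1 <;> omega)
      have h1 := hs p hp
      refine ih _ (k + 1) _ _ _ (by omega) hAt' (hcons _ ?_) (hcoks _ (by simp [hok]))
        (by simpa using hl) ?_ h1
      · rw [← hrow, hr0, hpf, hrows (b (k % M + 1) - 1), hbj]
      · intro i hi
        by_cases hij : k % M = i
        · subst hij
          rw [getD_set_self _ _ _ _ (by omega)]
          exact ⟨hpI, grpAux_ge oks p0.2 _ _ _ hcj.2 le_rfl p hp⟩
        · rw [getD_set_ne _ _ _ _ _ hij]; exact hc i hi
    · rw [if_neg (by tauto), add_zero] at hstep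
      rw [if_pos (by omega)] at hs
      refine ih _ (k + 1) _ _ _ (by omega) hAt' (hcons _ ?_) (hcoks _ (by simp [hok])) hl hc hs
      rw [hr0, hskip k hok]

/-- the search started at the root -/
theorem searchN_root {M : ℕ} (hM : 1 ≤ M) {b : ℕ → ℕ} (hb : ∀ e, 1 ≤ e → 1 ≤ b (cls M e))
    (N : ℕ) (hN : N ≤ 127) (At : List ℕ)
    (hAt : ∀ n, 1 ≤ n → n ≤ N → cnt ok (fun e => b (cls M e)) n n = At.getD n 0)
    (boxes : List (List (ℕ × ℕ)))
    (hs : searchN M (BB ^ (N + 1)) (leafBox M boxes) N At.tail 0 BB [1] []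
      (List.replicate M (1, 0)) = true) :
    ∃ box ∈ boxes, ∀ j, j < M → InI (b (j + 1)) (box.getD j (1, 0)) := by
  have h1 : pk N (cnt ok (fun e => b (cls M e)) 0) = 1 := by
    unfold pk
    rw [sum_range_succ', sum_eq_zero]
    · simp [cnt_zero]
    · intro n _
      rw [cnt_zero, if_neg (by omega), zero_mul]
  obtain ⟨know, hc, hleaf⟩ := searchN_sound hM hb N hN (leafBox M boxes) N At.tail 0 [1] []
    (List.replicate M (1, 0)) (by omega) (by
      intro n hn
      rw [show At.tail.getD n 0 = At.getD (n + 1) 0 by cases At <;> simp]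
      exact hAt (n + 1) (by omega) (by omega)) (by
      intro i
      cases i with
      | zero => simp [h1]
      | succ i => simp [h1]) (by intro i; simp) (by simp) (by
      intro j hj
      have h0 : (List.replicate M ((1, 0) : ℕ × ℕ)).getD j (1, 0) = (1, 0) := by
        rw [List.getD_eq_getElem _ _ (by simpa using hj)]
        simp
      rw [h0]
      have := hb (j + 1) (by omega)
      rw [cls_succ M j hM, Nat.mod_eq_of_lt hj] at this
      exact ⟨⟨this, Or.inl rfl⟩, le_rfl⟩) (by rw [zero_add, pow_one]; exact hs)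
  unfold leafBox at hleaf
  rw [List.any_eq_true] at hleaf
  obtain ⟨box, hbox, hall⟩ := hleaf
  rw [List.all_eq_true] at hall
  refine ⟨box, hbox, fun j hj => ?_⟩
  exact InI_of_subI (hall j (List.mem_range.2 hj)) (hc j hj).1

end

end PD687
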