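import Pool.Agent.TH687.PD.ModFourB

namespace PD687

open Finset PowerSeries

lemma cls_congr {M a c : ℕ} (h : a % M = c % M) : cls M a = cls M c := by
  unfold cls; rw [h]

lemma cls_mod (M : ℕ) (e : ℕ) : cls M e % M = e % M := by
  unfold cls
  split_ifs with h
  · rw [Nat.mod_self, h]
  · exact Nat.mod_mod _ _

/-- The switched gaps: the gap at a class of `I` is lowered to `g-1`, the gap at the next class
is raised to `g+2`. -/
def sw (M g : ℕ) (I : Finset ℕ) (b : ℕ → ℕ) (j : ℕ) : ℕ :=
  if j ∈ I then g - 1 else if cls M (j + M - 1) ∈ I then g + 2 else b j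

/-- The switched exceptional set. -/
def swC (M g : ℕ) (I C : Finset ℕ) : Finset ℕ := if M ∈ I ∧ 1 ∉ C then insert (g + 1) C else C

section
variable {M : ℕ} {g : ℕ} {I C : Finset ℕ} {b : ℕ → ℕ}

lemma sw_in {e : ℕ} (h : cls M e ∈ I) : sw M g I b (cls M e) = g - 1 := by
  unfold sw; rw [if_pos h]

lemma cls_pred (hM : 1 ≤ M) (e : ℕ) : cls M (cls M (e + 1) + M - 1) = cls M e := by
  apply cls_congr
  have h1 := cls_mod M (e + 1)
  have h2 : cls M (e + 1) + M - 1 + 1 = cls M (e + 1) + M := by omega
  have h3 : (cls M (e + 1) + M - 1 + 1) % M = (e + 1) % M := by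
    rw [h2, Nat.add_mod_right, h1]
  exact Nat.ModEq.add_right_cancel' 1 h3

lemma sw_next (hM : 1 ≤ M) {e : ℕ} (h : cls M e ∈ I) (h' : cls M (e + 1) ∉ I) :
    sw M g I b (cls M (e + 1)) = g + 2 := by
  unfold sw
  rw [if_neg h', cls_pred hM, if_pos h]

lemma sw_other (hM : 1 ≤ M) {e : ℕ} (h : cls M e ∉ I) (h' : cls M (e + 1) ∉ I) :
    sw M g I b (cls M (e + 1)) = b (cls M (e + 1)) := by
  unfold sw
  rw [if_neg h', cls_pred hM, if_neg h]

lemma mem_swC {e : ℕ} : e ∈ swC M g I C ↔ e ∈ C ∨ (e = g + 1 ∧ M ∈ I ∧ 1 ∉ C) := by
  unfold swC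
  split_ifs with h
  · rw [Finset.mem_insert]
    constructor
    · rintro (h1 | h1)
      · exact Or.inr ⟨h1, h⟩
      · exact Or.inl h1
    · rintro (h1 | h1)
      · exact Or.inr h1
      · exact Or.inl h1.1
  · constructor
    · exact Or.inl
    · rintro (h1 | h1)
      · exact h1
      · exact absurd h1.2 h

lemma cls_zero (M : ℕ) : cls M 0 = M := by unfold cls; simp

theorem P_switch (hM : 1 ≤ M) (hb : ∀ e, 1 ≤ b (cls M e)) (hg : 2 ≤ g)
    (h1 : ∀ e, cls M e ∈ I → cls M (e + 1) ∉ I)
    (h2 : ∀ e, cls M e ∈ I ↔ cls M (e + g) ∈ I)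
    (h3 : ∀ e, cls M e ∈ I → b (cls M e) = g ∧ b (cls M (e + 1)) = g + 1)
    (h4 : ∀ e, cls M (e + 1) ∉ I → cls M e ∉ I → e + 1 ∉ C → b (cls M (e + 1)) ≤ e →
      cls M (e + 1 - b (cls M (e + 1))) ∉ I)
    (h5 : ∀ e, 1 ≤ e → cls M e ∈ I → (e ∈ C ↔ e + 1 ∈ C)) (k : ℕ) (hk : cls M k ∉ I) :
    P (fun e => e ∉ swC M g I C) (fun e => sw M g I b (cls M e)) k =
      P (fun e => e ∉ C) (fun e => b (cls M e)) k := by
  induction k using Nat.strong_induction_on with
  | _ k ih =>
    match k with
    | 0 => rw [P_zero, P_zero]
    | e + 1 =>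
      by_cases hI : cls M e ∈ I
      · match e with
        | 0 =>
          have hk1 : (1 ∉ swC M g I C) ↔ (1 ∉ C) := by
            rw [mem_swC]; constructor
            · intro h h'; exact h (Or.inl h')
            · rintro h (h' | h')
              · exact h h'
              · omega
          rw [P_succ, P_succ, P_zero, P_zero]
          simp only [Nat.zero_sub, P_zero, zero_add]
          simp only [hk1]
        | v + 1 =>
          have hv : cls M v ∉ I := fun h => h1 v h hI
          have d1 := (h3 _ hI).1
          have d2 := (h3 _ hI).2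
          have d1' : sw M g I b (cls M (v + 1)) = g - 1 := sw_in hI
          have d2' : sw M g I b (cls M (v + 1 + 1)) = g + 2 := sw_next hM hI hk
          have h5v := h5 (v + 1) (by omega) hI
          rw [P_succ _ _ (v + 1), P_succ _ _ v, P_succ _ _ (v + 1), P_succ _ _ v,
            ih v (by omega) hv, d1, d2, d1', d2']
          rcases lt_trichotomy (v + 1) g with hlt | heq | hgt
          · -- all indices are zero
            have i1 : v - (g - 1 - 1) = 0 := by omega
            have i2 : v + 1 - (g + 2 - 1) = 0 := by omega
            have i3 : v - (g - 1) = 0 := by omega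
            have i4 : v + 1 - (g + 1 - 1) = 0 := by omega
            rw [i1, i2, i3, i4, P_zero, P_zero]
            have m1 : (v + 1 ∉ swC M g I C) ↔ (v + 1 ∉ C) := by
              rw [mem_swC]; constructor
              · intro h h'; exact h (Or.inl h')
              · rintro h (h' | h')
                · exact h h'
                · omega
            have m2 : (v + 1 + 1 ∉ swC M g I C) ↔ (v + 1 + 1 ∉ C) := by
              rw [mem_swC]; constructor
              · intro h h'; exact h (Or.inl h')
              · rintro h (h' | h')
                · exact h h'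
                · omega
            simp only [m1, m2]
          · have i1 : v - (g - 1 - 1) = 0 + 1 := by omega
            have i2 : v + 1 - (g + 2 - 1) = 0 := by omega
            have i3 : v - (g - 1) = 0 := by omega
            have i4 : v + 1 - (g + 1 - 1) = 0 := by omega
            have hI0 : cls M 0 ∈ I := by
              rw [h2 0, zero_add, ← heq]; exact hI
            have hMI : M ∈ I := by rw [cls_zero] at hI0; exact hI0
            have hnI1 : cls M (0 + 1) ∉ I := h1 0 hI0
            rw [i1, ih (0 + 1) (by omega) hnI1, i2, i3, i4, P_succ _ _ 0, P_zero, P_zero]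
            simp only [Nat.zero_sub, P_zero, zero_add]
            have m1 : (v + 1 ∉ swC M g I C) ↔ (v + 1 ∉ C) := by
              rw [mem_swC]; constructor
              · intro h h'; exact h (Or.inl h')
              · rintro h (h' | h')
                · exact h h'
                · omega
            have m2 : (v + 1 + 1 ∉ swC M g I C) ↔ (v + 1 + 1 ∉ C ∧ 1 ∈ C) := by
              rw [mem_swC]; constructor
              · intro h
                refine ⟨fun h' => h (Or.inl h'), ?_⟩
                by_contra h'
                exact h (Or.inr ⟨by omega, hMI, h'⟩)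
              · rintro ⟨ha, hb'⟩ (h' | h')
                · exact ha h'
                · exact h'.2.2 hb'
            simp only [m1, m2]
            by_cases hC : v + 1 ∈ C
            · have hC' := h5v.1 hC
              simp [hC, hC']
            · have hC' : v + 1 + 1 ∉ C := fun h => hC (h5v.2 h)
              by_cases h1C : 1 ∈ C
              · simp [hC, hC', h1C]
              · simp only [hC, hC', h1C, not_false_eq_true, if_true, and_false, if_false]
                ring
          · obtain ⟨w, hw⟩ : ∃ w, v = w + g := ⟨v - g, by omega⟩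
            subst hw
            have i1 : w + g - (g - 1 - 1) = w + 1 + 1 := by omega
            have i2 : w + g + 1 - (g + 2 - 1) = w := by omega
            have i3 : w + g - (g - 1) = w + 1 := by omega
            have i4 : w + g + 1 - (g + 1 - 1) = w + 1 := by omega
            have hIu : cls M (w + 1) ∈ I := by
              rw [h2 (w + 1), show w + 1 + g = w + g + 1 by ring]; exact hI
            have hIw : cls M w ∉ I := fun h => h1 w h hIu
            have hIw2 : cls M (w + 1 + 1) ∉ I := h1 _ hIu
            have m1 : (w + g + 1 ∉ swC M g I C) ↔ (w + g + 1 ∉ C) := by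
              rw [mem_swC]; constructor
              · intro h h'; exact h (Or.inl h')
              · rintro h (h' | h')
                · exact h h'
                · have hw0 : w = 0 := by omega
                  subst hw0
                  apply h1 0 _ hIu
                  rw [cls_zero]; exact h'.2.1
            have m2 : (w + g + 1 + 1 ∉ swC M g I C) ↔ (w + g + 1 + 1 ∉ C) := by
              rw [mem_swC]; constructor
              · intro h h'; exact h (Or.inl h')
              · rintro h (h' | h')
                · exact h h'
                · omega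
            rw [i1, i2, i3, i4, ih _ (by omega) hIw2, ih w (by omega) hIw]
            simp only [m1, m2]
            by_cases hC : w + g + 1 ∈ C
            · have hC' := h5v.1 hC
              simp [hC, hC']
            · have hC' : w + g + 1 + 1 ∉ C := fun h => hC (h5v.2 h)
              have h5w := h5 (w + 1) (by omega) hIu
              have e1 := (h3 _ hIu).1
              have e2 := (h3 _ hIu).2
              have hP1 := P_succ (fun e => e ∉ C) (fun e => b (cls M e)) w
              have hP2 := P_succ (fun e => e ∉ C) (fun e => b (cls M e)) (w + 1)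
              rw [e1] at hP1
              rw [e2, show w + 1 - (g + 1 - 1) = w - (g - 1) by omega] at hP2
              by_cases hCw : w + 1 ∈ C
              · have hCw' := h5w.1 hCw
                simp only [hCw, hCw', not_true_eq_false, if_false, add_zero] at hP1 hP2
                simp only [hC, hC', not_false_eq_true, if_true, hP2, hP1]
              · have hCw' : w + 1 + 1 ∉ C := fun h => hCw (h5w.2 h)
                simp only [hCw, hCw', not_false_eq_true, if_true] at hP1 hP2
                simp only [hC, hC', not_false_eq_true, if_true]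
                have hrel : P (fun e => e ∉ C) (fun e => b (cls M e)) (w + 1 + 1) +
                    X * P (fun e => e ∉ C) (fun e => b (cls M e)) w =
                    (1 + X) * P (fun e => e ∉ C) (fun e => b (cls M e)) (w + 1) := by
                  rw [hP2, hP1]; ring
                linear_combination X ^ (w + g + 1) * hrel
      · have d1' : sw M g I b (cls M (e + 1)) = b (cls M (e + 1)) := sw_other hM hI hk
        have m1 : (e + 1 ∉ swC M g I C) ↔ (e + 1 ∉ C) := by
          rw [mem_swC]; constructor
          · intro h h'; exact h (Or.inl h')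
          · rintro h (h' | h')
            · exact h h'
            · apply hI
              have heg : e = 0 + g := by omega
              rw [heg, ← h2 0, cls_zero]
              exact h'.2.1
        rw [P_succ, P_succ, ih e (by omega) hI, d1']
        simp only [m1]
        by_cases hC : e + 1 ∈ C
        · simp [hC]
        · have hbe := hb (e + 1)
          by_cases hle : b (cls M (e + 1)) ≤ e
          · have h4' := h4 e hk hI hC hle
            rw [show e + 1 - b (cls M (e + 1)) = e - (b (cls M (e + 1)) - 1) by omega] at h4'
            rw [ih _ (by omega) h4']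
          · rw [show e - (b (cls M (e + 1)) - 1) = 0 by omega, P_zero, P_zero]

/-- **Switch theorem.** -/
theorem B0_switch (hM : 1 ≤ M) (hb : ∀ j, 1 ≤ j → j ≤ M → 1 ≤ b j) (hg : 2 ≤ g)
    (h1 : ∀ e, cls M e ∈ I → cls M (e + 1) ∉ I)
    (h2 : ∀ e, cls M e ∈ I ↔ cls M (e + g) ∈ I)
    (h3 : ∀ e, cls M e ∈ I → b (cls M e) = g ∧ b (cls M (e + 1)) = g + 1)
    (h4 : ∀ e, cls M (e + 1) ∉ I → cls M e ∉ I → e + 1 ∉ C → b (cls M (e + 1)) ≤ e →
      cls M (e + 1 - b (cls M (e + 1))) ∉ I)
    (h5 : ∀ e, 1 ≤ e → cls M e ∈ I → (e ∈ C ↔ e + 1 ∈ C)) (n : ℕ) :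
    B0 b M C n = B0 (sw M g I b) M (swC M g I C) n := by
  have hcls : ∀ e, 1 ≤ cls M e ∧ cls M e ≤ M := by
    intro e
    unfold cls
    split_ifs
    · exact ⟨hM, le_rfl⟩
    · exact ⟨by omega, (Nat.mod_lt _ (by omega)).le⟩
  have hb' : ∀ e, 1 ≤ b (cls M e) := fun e => hb _ (hcls e).1 (hcls e).2
  have hb'' : ∀ j, 1 ≤ j → j ≤ M → 1 ≤ sw M g I b j := by
    intro j hj1 hj2
    unfold sw
    split_ifs
    · omega
    · omega
    · exact hb j hj1 hj2
  obtain ⟨k, hk, hkI⟩ : ∃ k, n ≤ k ∧ cls M k ∉ I := by
    by_cases h : cls M n ∈ I
    · exact ⟨n + 1, by omega, h1 n h⟩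
    · exact ⟨n, le_rfl, h⟩
  have hP := P_switch hM hb' hg h1 h2 h3 h4 h5 k hkI
  have e1 := coeff_P_B0 b M hM hb C n k hk
  have e2 := coeff_P_B0 (sw M g I b) M hM hb'' (swC M g I C) n k hk
  rw [hP, e1] at e2
  exact_mod_cast e2

end

end PD687
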