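import Pool.Agent.TH687.PD.Search

namespace PD687

open Finset PowerSeries

section
variable {ok ok' : ℕ → Prop} [DecidablePred ok] [DecidablePred ok'] {d d' : ℕ → ℕ}

lemma cnt_stable (hd : ∀ e, 1 ≤ e → 1 ≤ d e) (n k : ℕ) (hk : n ≤ k) :
    cnt ok d k n = cnt ok d n n := by
  obtain ⟨j, rfl⟩ := Nat.exists_eq_add_of_le hk
  clear hk
  induction j with
  | zero => rfl
  | succ j ih => rw [← add_assoc, cnt_succ hd, if_neg (by omega), add_zero, ih]

lemma cnt_congr_ok (hd : ∀ e, 1 ≤ e → 1 ≤ d e) (k n : ℕ)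
    (h : ∀ e, 1 ≤ e → e ≤ k → (ok e ↔ ok' e)) : cnt ok d k n = cnt ok' d k n := by
  unfold cnt
  congr 1
  ext l
  rw [mem_lists hd, mem_lists hd]
  constructor
  · rintro ⟨h1, h2, h3⟩
    exact ⟨h1, fun e he => ⟨(h2 e he).1, (h2 e he).2.1,
      (h e (h2 e he).1 (h2 e he).2.1).1 (h2 e he).2.2⟩, h3⟩
  · rintro ⟨h1, h2, h3⟩
    exact ⟨h1, fun e he => ⟨(h2 e he).1, (h2 e he).2.1,
      (h e (h2 e he).1 (h2 e he).2.1).2 (h2 e he).2.2⟩, h3⟩

lemma cnt_congr_gap (hd : ∀ e, 1 ≤ e → 1 ≤ d e) (hd' : ∀ e, 1 ≤ e → 1 ≤ d' e) (k n : ℕ)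
    (h : ∀ x y, ok x → ok y → 1 ≤ x → 1 ≤ y → (y + d x ≤ x ↔ y + d' x ≤ x)) :
    cnt ok d k n = cnt ok d' k n := by
  have key : ∀ l : List ℕ, (∀ e ∈ l, 1 ≤ e ∧ e ≤ k ∧ ok e) →
      (l.Pairwise (gap d) ↔ l.Pairwise (gap d')) := by
    intro l hl
    apply List.Pairwise.iff_of_mem
    intro x y hx hy
    have h1 := hl x hx
    have h2 := hl y hy
    have h3 := h x y h1.2.2 h2.2.2 h1.1 h2.1
    have h4 := hd x h1.1
    have h5 := hd' x h1.1
    unfold gap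
    omega
  unfold cnt
  congr 1
  ext l
  rw [mem_lists hd, mem_lists hd']
  constructor
  · rintro ⟨h1, h2, h3⟩
    exact ⟨(key l h2).1 h1, h2, h3⟩
  · rintro ⟨h1, h2, h3⟩
    exact ⟨(key l h2).2 h1, h2, h3⟩

/-- For given gaps the set of allowed parts is determined by the counts. -/
lemma unique_ok (hd : ∀ e, 1 ≤ e → 1 ≤ d e)
    (h : ∀ n, 1 ≤ n → cnt ok d n n = cnt ok' d n n) (n : ℕ) (hn : 1 ≤ n) : ok n ↔ ok' n := by
  induction n using Nat.strong_induction_on with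
  | _ n ih =>
    obtain ⟨m, rfl⟩ : ∃ m, n = m + 1 := ⟨n - 1, by omega⟩
    have h1 := h (m + 1) (by omega)
    rw [cnt_succ hd, cnt_succ hd, cnt_congr_ok (ok' := ok') hd m (m + 1)
      (fun e he1 he2 => ih e (by omega) he1), Nat.sub_self] at h1
    by_cases a : ok (m + 1) <;> by_cases c : ok' (m + 1)
    · exact ⟨fun _ => c, fun _ => a⟩
    · simp [a, c, cnt_at_zero hd] at h1
    · simp [a, c, cnt_at_zero hd] at h1
    · exact ⟨fun h => absurd h a, fun h => absurd h c⟩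

end

/-- the solution property, in terms of `cnt` -/
lemma sol_cnt {R C : Finset ℕ} {M : ℕ} {b : ℕ → ℕ} (hM : 1 ≤ M)
    (hb : ∀ j, 1 ≤ j → j ≤ M → 1 ≤ b j) (h : ∀ n, 1 ≤ n → A R M n = B0 b M C n) (n : ℕ)
    (hn : 1 ≤ n) : cnt (fun e => e ∉ C) (fun e => b (cls M e)) n n = A R M n := by
  rw [h n hn, B0_eq_cnt hM hb C n n le_rfl]

lemma cls_le {M : ℕ} (hM : 1 ≤ M) (e : ℕ) : 1 ≤ cls M e ∧ cls M e ≤ M := by
  unfold cls
  split_ifs
  · exact ⟨hM, le_rfl⟩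
  · exact ⟨by omega, (Nat.mod_lt _ (by omega)).le⟩

lemma hb_cls {M : ℕ} {b : ℕ → ℕ} (hM : 1 ≤ M) (hb : ∀ j, 1 ≤ j → j ≤ M → 1 ≤ b j) (e : ℕ)
    (_he : 1 ≤ e) : 1 ≤ b (cls M e) := hb _ (cls_le hM e).1 (cls_le hM e).2

/-- A family with an infinite exceptional set is impossible. -/
lemma infinite_absurd {R C : Finset ℕ} {M : ℕ} {b : ℕ → ℕ} (hM : 1 ≤ M)
    (hb : ∀ j, 1 ≤ j → j ≤ M → 1 ≤ b j) (h : ∀ n, 1 ≤ n → A R M n = B0 b M C n)
    (ok' : ℕ → Prop) [DecidablePred ok']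
    (hfam : ∀ n, 1 ≤ n → cnt ok' (fun e => b (cls M e)) n n = A R M n)
    (hinf : ∀ m, ∃ n, m < n ∧ ¬ ok' n) : False := by
  obtain ⟨n, hn, hn'⟩ := hinf (C.sup id)
  have hu := unique_ok (ok := fun e => e ∉ C) (ok' := ok') (hb_cls hM hb)
    (fun n hn => by rw [sol_cnt hM hb h n hn, hfam n hn]) n (by omega)
  have : n ∈ C := by
    by_contra hc
    exact hn' (hu.1 hc)
  have := Finset.le_sup (f := id) this
  simp only [id] at this
  omega

/-- A family with finite exceptional set `C'` determines `C`. -/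
lemma finite_unique {R C C' : Finset ℕ} {M : ℕ} {b : ℕ → ℕ} (hM : 1 ≤ M)
    (hb : ∀ j, 1 ≤ j → j ≤ M → 1 ≤ b j) (h : ∀ n, 1 ≤ n → A R M n = B0 b M C n)
    (h' : ∀ n, 1 ≤ n → A R M n = B0 b M C' n) (hC : ∀ c ∈ C, 1 ≤ c) (hC' : ∀ c ∈ C', 1 ≤ c) :
    C = C' := by
  have hu := unique_ok (ok := fun e => e ∉ C) (ok' := fun e => e ∉ C') (hb_cls hM hb)
    (fun n hn => by rw [sol_cnt hM hb h n hn, sol_cnt hM hb h' n hn])
  ext c
  constructor
  · intro hc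
    by_contra hc'
    exact (hu c (hC c hc)).2 hc' hc
  · intro hc
    by_contra hc'
    exact (hu c (hC' c hc)).1 hc' hc

/-- `A` vanishing infinitely often is impossible. -/
lemma zero_absurd {R C : Finset ℕ} {M : ℕ} {b : ℕ → ℕ} (hM : 1 ≤ M)
    (hb : ∀ j, 1 ≤ j → j ≤ M → 1 ≤ b j) (h : ∀ n, 1 ≤ n → A R M n = B0 b M C n)
    (hz : ∀ m, ∃ n, m < n ∧ A R M n = 0) : False := by
  obtain ⟨n, hn, hn'⟩ := hz (C.sup id)
  obtain ⟨m, rfl⟩ : ∃ m, n = m + 1 := ⟨n - 1, by omega⟩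
  have h1 := sol_cnt hM hb h (m + 1) (by omega)
  rw [hn', cnt_succ (hb_cls hM hb), Nat.sub_self, cnt_at_zero (hb_cls hM hb)] at h1
  have : m + 1 ∈ C := by
    by_contra hc
    rw [if_pos ⟨hc, le_rfl⟩] at h1
    omega
  have := Finset.le_sup (f := id) this
  simp only [id] at this
  omega

/-- the degenerate families: the allowed parts are those of `A`, consecutive ones allowed -/
lemma deg_family {R : Finset ℕ} {M : ℕ} (r : ℕ → Prop) [DecidablePred r]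
    (hr : ∀ e, (∃ a ∈ R, e ≡ a [MOD M]) ↔ r e) {d : ℕ → ℕ} (hd : ∀ e, 1 ≤ e → 1 ≤ d e)
    (hgap : ∀ x y, r x → r y → 1 ≤ x → 1 ≤ y → y < x → y + d x ≤ x) (n : ℕ) :
    cnt r d n n = A R M n := by
  rw [cnt_congr_gap (d' := fun _ => 1) hd (fun _ _ => le_rfl) n n
    (fun x y hx hy h1 h2 => by
      have h3 := hd x h1
      constructor
      · intro h; omega
      · intro h; exact hgap x y hx hy h1 h2 (by omega))]
  have h1 := coeff_Q_A R M n n le_rfl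
  rw [Q_eq_P, P_congr (ok' := r) (d' := fun _ => 1) hr (fun _ _ => rfl),
    coeff_P (fun _ _ => le_rfl)] at h1
  unfold cnt
  exact_mod_cast h1

lemma Q_add (r : ℕ → Prop) [DecidablePred r] (a t : ℕ) : Q r (a + t) = Q r a *
    ∏ j ∈ (Finset.Icc 1 t).filter (fun j => r (a + j)), (1 + (X : PowerSeries ℤ) ^ (a + j)) := by
  induction t with
  | zero => simp
  | succ t ih =>
    rw [← add_assoc, Q_succ, ih, ← Finset.insert_Icc_right_eq_Icc_add_one (by omega),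
      Finset.filter_insert]
    have e : a + (t + 1) = a + t + 1 := by ring
    by_cases h : r (a + t + 1)
    · rw [if_pos h, if_pos (by rw [e]; exact h), Finset.prod_insert (by simp), e]; ring
    · rw [if_neg h, if_neg (by rw [e]; exact h), mul_one]

/-- bridge from a generating function identity to counts -/
lemma cnt_eq_A_of {R : Finset ℕ} {M : ℕ} {ok : ℕ → Prop} [DecidablePred ok] {d : ℕ → ℕ}
    (hd : ∀ e, 1 ≤ e → 1 ≤ d e)
    (h : ∀ K, 1 ≤ K → ∃ k k', K ≤ k ∧ K ≤ k' ∧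
      Ideal.Quotient.mk (Ideal.span {(X : PowerSeries ℤ) ^ K}) (P ok d k) =
      Ideal.Quotient.mk (Ideal.span {(X : PowerSeries ℤ) ^ K})
        (Q (fun e => ∃ a ∈ R, e ≡ a [MOD M]) k')) (n : ℕ) :
    cnt ok d n n = A R M n := by
  obtain ⟨k, k', hk, hk', hkk⟩ := h (n + 1) (by omega)
  have h1 := coeff_eq_of_mk (n := n) (by omega) hkk
  rw [coeff_Q_A _ _ n _ (by omega), coeff_P hd] at h1
  rw [← cnt_stable hd n k (by omega)]
  unfold cnt
  exact_mod_cast h1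

end PD687
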